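import Pool.Agent.UBX.Targets

set_option autoImplicit false

/-!
# Bertrand primes
-/

namespace Pool.Agent.UBX

theorem p_PRIMES : T_PRIMES := by
  intro q P hP
  induction q with
  | zero => exact ⟨∅, rfl, by simp⟩
  | succ q ih =>
    obtain ⟨S, hS, h⟩ := ih
    obtain ⟨p, hp, h1, h2⟩ := Nat.exists_prime_lt_and_le_two_mul (2 ^ q * P)
      (by positivity)
    have hpS : p ∉ S := fun hm => absurd (h p hm).2.2 (not_le.2 h1)
    have hle : P ≤ 2 ^ q * P := Nat.le_mul_of_pos_left P (by positivity)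
    refine ⟨insert p S, by rw [Finset.card_insert_of_notMem hpS, hS], ?_⟩
    intro p' hp'
    rw [Finset.mem_insert] at hp'
    rcases hp' with rfl | hm
    · refine ⟨hp, lt_of_le_of_lt hle h1, ?_⟩
      calc p' ≤ 2 * (2 ^ q * P) := h2
        _ = 2 ^ (q + 1) * P := by ring
    · obtain ⟨a1, a2, a3⟩ := h p' hm
      refine ⟨a1, a2, ?_⟩
      calc p' ≤ 2 ^ q * P := a3
        _ ≤ 2 * (2 ^ q * P) := by omega
        _ = 2 ^ (q + 1) * P := by ring

theorem p_AVOID : T_AVOID := by
  intro q P n S hS h hn hnP hq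
  by_contra hc
  push Not at hc
  have hP : P ≠ 0 := by
    rintro rfl
    rw [zero_pow (by omega)] at hnP
    omega
  have h1 : ∏ p ∈ S, p ∣ n :=
    Finset.prod_primes_dvd n (fun p hp => (h p hp).1.prime) hc
  have h2 : ∏ p ∈ S, p ≤ n := Nat.le_of_dvd (Nat.pos_of_ne_zero hn) h1
  have hne : S.Nonempty := by
    rw [← Finset.card_pos]
    omega
  have h3 : P ^ q < ∏ p ∈ S, p := by
    rw [← hS, ← Finset.prod_const]
    exact Finset.prod_lt_prod_of_nonempty (fun _ _ => Nat.pos_of_ne_zero hP)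
      (fun p hp => (h p hp).2) hne
  omega

end Pool.Agent.UBX
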