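import Pool.Agent.UBX.Targets

set_option autoImplicit false

namespace Pool.Agent.UBX

theorem p_SPAN : T_SPAN := by
  intro ι r v h
  by_contra hcon
  push Not at hcon
  have hW : Submodule.span ℚ (Set.range v) = ⊤ := by
    by_contra hne
    obtain ⟨f, hf0, hf⟩ := Submodule.exists_le_ker_of_lt_top (Submodule.span ℚ (Set.range v))
      (lt_top_iff_ne_top.mpr hne)
    have hfx : ∀ w : Fin r → ℚ, f w = ∑ j : Fin r, f (Pi.single j 1) * w j := by
      intro w
      conv_lhs => rw [← Finset.univ_sum_single w]
      rw [map_sum]
      refine Finset.sum_congr rfl fun j _ => ?_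
      have : (Pi.single j (w j) : Fin r → ℚ) = w j • Pi.single j 1 := by
        rw [← Pi.single_smul]
        simp
      rw [this, map_smul, smul_eq_mul, mul_comm]
    obtain ⟨i, hi⟩ := hcon (fun j => f (Pi.single j 1)) (by
      intro h0
      apply hf0
      ext w
      have h1 : ∀ j, f (Pi.single j 1) = 0 := fun j => congrFun h0 j
      simp [h1 w])
    apply hi
    rw [← hfx]
    exact hf (Submodule.subset_span ⟨i, rfl⟩)
  obtain ⟨b, hb, hspan, hli⟩ := exists_linearIndependent ℚ (Set.range v)
  rw [hW] at hspan
  let B : Module.Basis b ℚ (Fin r → ℚ) := Module.Basis.mk hli (by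
    rw [Subtype.range_coe_subtype, Set.ofPred_mem_eq, hspan])
  have hfin : Finite b := Module.Finite.finite_basis B
  have hcard : Nat.card b = r := by
    rw [← Module.finrank_eq_nat_card_basis B]
    simp
  let e : Fin r ≃ b := (Finite.equivFinOfCardEq hcard).symm
  choose s hs using fun l : Fin r => hb (e l).2
  have hli2 : LinearIndependent ℚ (fun l => v (s l)) := by
    have : (fun l => v (s l)) = (Subtype.val : b → (Fin r → ℚ)) ∘ e := by
      funext l
      exact hs l
    rw [this]
    exact hli.comp _ e.injective
  have hu := (Matrix.linearIndependent_rows_iff_isUnit (A := Matrix.of fun l j => v (s l) j)).mp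
    (by exact hli2)
  rw [Matrix.isUnit_iff_isUnit_det, h s] at hu
  exact not_isUnit_zero hu

end Pool.Agent.UBX
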