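import Pool.Agent.UBX.Targets

set_option autoImplicit false

/-!
# Project UBX, job ARCH: archimedean size of preperiodic points
-/

namespace Pool.Agent.UBX

open Polynomial

namespace ARCH_

lemma abs_le_ht (q : ℚ) : |(q : ℝ)| ≤ ht q := by
  have h1 : |(q : ℝ)| = (q.num.natAbs : ℝ) / q.den := by
    conv_lhs => rw [← Rat.num_div_den q]
    push_cast
    rw [abs_div, Nat.abs_cast, Nat.cast_natAbs, Int.cast_abs]
  rw [h1]
  have hd : (1 : ℝ) ≤ q.den := by exact_mod_cast q.den_pos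
  have h2 : (q.num.natAbs : ℝ) / q.den ≤ q.num.natAbs :=
    div_le_self (by positivity) hd
  have h3 : (q.num.natAbs : ℝ) ≤ ht q := by
    exact_mod_cast le_max_left _ _
  linarith

lemma inv_le_abs (q : ℚ) (hq : q ≠ 0) : 1 / (ht q : ℝ) ≤ |(q : ℝ)| := by
  have h1 : |(q : ℝ)| = (q.num.natAbs : ℝ) / q.den := by
    conv_lhs => rw [← Rat.num_div_den q]
    push_cast
    rw [abs_div, Nat.abs_cast, Nat.cast_natAbs, Int.cast_abs]
  rw [h1]
  have hd : (1 : ℝ) ≤ q.den := by exact_mod_cast q.den_pos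
  have hn : (1 : ℝ) ≤ q.num.natAbs := by
    have : 1 ≤ q.num.natAbs := Int.natAbs_pos.mpr (Rat.num_ne_zero.mpr hq)
    exact_mod_cast this
  have h3 : (q.den : ℝ) ≤ ht q := by
    exact_mod_cast le_max_right _ _
  exact div_le_div₀ (by linarith) hn (by linarith) h3

/-- large points grow -/
lemma step (g : ℚ[X]) (d : ℕ) (hg : g.natDegree = d) (hd : 2 ≤ d) (X : ℝ) (hX : 1 ≤ X)
    (hco : ∀ i : ℕ, (ht (g.coeff i) : ℝ) ≤ X) (c : ℚ) (hc : (ht c : ℝ) ≤ X) (y : ℚ)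
    (hy : (d + 3) * X ^ 2 < |(y : ℝ)|) : 2 * |(y : ℝ)| ≤ |((g.eval y + c : ℚ) : ℝ)| := by
  have hg0 : g ≠ 0 := by
    rintro rfl
    simp at hg
    omega
  have hlc : g.coeff d ≠ 0 := by
    rw [← hg]
    exact leadingCoeff_ne_zero.mpr hg0
  have hX2 : (1 : ℝ) ≤ X ^ 2 := one_le_pow₀ hX
  have hd0 : (2 : ℝ) ≤ d := by exact_mod_cast hd
  have hy1 : (1 : ℝ) ≤ |(y : ℝ)| := by nlinarith
  have e1 : ((g.eval y + c : ℚ) : ℝ) =
      (g.coeff d : ℝ) * (y : ℝ) ^ d +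
        (∑ i ∈ Finset.range d, (g.coeff i : ℝ) * (y : ℝ) ^ i + (c : ℝ)) := by
    rw [eval_eq_sum_range, hg, Finset.sum_range_succ]
    push_cast
    ring
  have e2 : |∑ i ∈ Finset.range d, (g.coeff i : ℝ) * (y : ℝ) ^ i| ≤
      d * X * |(y : ℝ)| ^ (d - 1) := by
    calc |∑ i ∈ Finset.range d, (g.coeff i : ℝ) * (y : ℝ) ^ i|
        ≤ ∑ i ∈ Finset.range d, |(g.coeff i : ℝ) * (y : ℝ) ^ i| :=
          Finset.abs_sum_le_sum_abs _ _
      _ ≤ ∑ _i ∈ Finset.range d, X * |(y : ℝ)| ^ (d - 1) := by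
          refine Finset.sum_le_sum fun i hi => ?_
          rw [Finset.mem_range] at hi
          rw [abs_mul, abs_pow]
          refine mul_le_mul ((abs_le_ht _).trans (hco i)) ?_ (by positivity) (by linarith)
          exact pow_le_pow_right₀ hy1 (by omega)
      _ = _ := by
          rw [Finset.sum_const, Finset.card_range, nsmul_eq_mul]
          ring
  have hp1 : (1 : ℝ) ≤ |(y : ℝ)| ^ (d - 1) := one_le_pow₀ hy1
  have e3 : |(c : ℝ)| ≤ X * |(y : ℝ)| ^ (d - 1) := by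
    have := (abs_le_ht c).trans hc
    nlinarith
  have e4 : |(g.coeff d : ℝ) * (y : ℝ) ^ d| = |(g.coeff d : ℝ)| * |(y : ℝ)| * |(y : ℝ)| ^ (d - 1) := by
    rw [abs_mul, abs_pow, mul_assoc, ← pow_succ']
    congr 2
    omega
  have e5 : 1 / X ≤ |(g.coeff d : ℝ)| := by
    refine le_trans ?_ (inv_le_abs _ hlc)
    have : (0 : ℝ) < ht (g.coeff d) := by exact_mod_cast ht_pos _
    exact one_div_le_one_div_of_le this (hco d)
  have e6 : (d + 3) * X ≤ |(g.coeff d : ℝ)| * |(y : ℝ)| := by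
    have hX0 : 0 < X := by linarith
    calc (d + 3) * X = (1 / X) * ((d + 3) * X ^ 2) := by
          field_simp
      _ ≤ |(g.coeff d : ℝ)| * |(y : ℝ)| :=
          mul_le_mul e5 hy.le (by positivity) (abs_nonneg _)
  have e7 : |(y : ℝ)| ≤ |(y : ℝ)| ^ (d - 1) := by
    calc |(y : ℝ)| = |(y : ℝ)| ^ 1 := (pow_one _).symm
      _ ≤ _ := pow_le_pow_right₀ hy1 (by omega)
  have e8 : |(g.coeff d : ℝ) * (y : ℝ) ^ d| -
      |∑ i ∈ Finset.range d, (g.coeff i : ℝ) * (y : ℝ) ^ i + (c : ℝ)| ≤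
      |((g.eval y + c : ℚ) : ℝ)| := by
    rw [e1]
    have := abs_sub_abs_le_abs_sub ((g.coeff d : ℝ) * (y : ℝ) ^ d)
      (-(∑ i ∈ Finset.range d, (g.coeff i : ℝ) * (y : ℝ) ^ i + (c : ℝ)))
    rw [abs_neg, sub_neg_eq_add] at this
    exact this
  have e9 := abs_add_le (∑ i ∈ Finset.range d, (g.coeff i : ℝ) * (y : ℝ) ^ i) (c : ℝ)
  have e10 : (d + 3) * X * |(y : ℝ)| ^ (d - 1) ≤ |(g.coeff d : ℝ) * (y : ℝ) ^ d| := by
    rw [e4]
    exact mul_le_mul_of_nonneg_right e6 (by positivity)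
  nlinarith

end ARCH_

/-- archimedean size of preperiodic points -/
theorem p_ARCH : T_ARCH := by
  intro g d hg hd X hX hco c x hc hx i
  by_contra hcon
  push Not at hcon
  have hgrow : ∀ k : ℕ, (d + 3) * X ^ 2 < |((orb g c x (i + k) : ℚ) : ℝ)| ∧
      |((orb g c x (i + k) : ℚ) : ℝ)| < |((orb g c x (i + k + 1) : ℚ) : ℝ)| := by
    intro k
    have key : ∀ m : ℕ, (d + 3) * X ^ 2 < |((orb g c x m : ℚ) : ℝ)| →
        |((orb g c x m : ℚ) : ℝ)| < |((orb g c x (m + 1) : ℚ) : ℝ)| := by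
      intro m hm
      have h1 := ARCH_.step g d hg hd X hX hco c hc _ hm
      rw [← orb_rat] at h1
      have h2 : (0 : ℝ) < |((orb g c x m : ℚ) : ℝ)| := lt_of_le_of_lt (by positivity) hm
      linarith
    induction k with
    | zero => exact ⟨hcon, key _ hcon⟩
    | succ k ih =>
      have h1 : (d + 3) * X ^ 2 < |((orb g c x (i + (k + 1)) : ℚ) : ℝ)| := lt_trans ih.1 ih.2
      exact ⟨h1, key _ h1⟩
  have hmono : StrictMono fun k : ℕ => |((orb g c x (i + k) : ℚ) : ℝ)| :=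
    strictMono_nat_of_lt_succ fun k => (hgrow k).2
  obtain ⟨a, b, hab, he⟩ := hx
  have h1 := orb_shift_eq g c x he i
  have h2 : orb g c x (i + a) = orb g c x (i + b) := by
    rw [add_comm i a, add_comm i b]
    exact h1
  have h3 := hmono hab
  simp only [h2, lt_irrefl] at h3

end Pool.Agent.UBX
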