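import Pool.Agent.UBX.Defs

set_option autoImplicit false

namespace Pool.Agent.UBX

open Polynomial

section
variable {K : Type*} [CommRing K] [Algebra ℚ K]

@[simp] lemma orb_zero (g : ℚ[X]) (c x : K) : orb g c x 0 = x := rfl

lemma orb_succ (g : ℚ[X]) (c x : K) (n : ℕ) :
    orb g c x (n + 1) = aeval (orb g c x n) g + c := rfl

lemma orb_add (g : ℚ[X]) (c x : K) (i j : ℕ) :
    orb g c x (i + j) = orb g c (orb g c x i) j := by
  induction j with
  | zero => rfl
  | succ j ih => rw [← add_assoc, orb_succ, orb_succ, ih]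

lemma orb_eq_iterate (g : ℚ[X]) (c x : K) (n : ℕ) :
    orb g c x n = (fun y => aeval y g + c)^[n] x := by
  induction n with
  | zero => rfl
  | succ n ih => rw [Function.iterate_succ_apply', ← ih, orb_succ]

lemma orb_shift_eq (g : ℚ[X]) (c x : K) {i j : ℕ} (h : orb g c x i = orb g c x j) (k : ℕ) :
    orb g c x (i + k) = orb g c x (j + k) := by
  rw [orb_add, orb_add, h]

lemma ev_apply (c x : K) (p : ℚ[X][X]) : ev c x p = eval x (sp c p) := by
  simp only [ev, sp, coe_eval₂RingHom, coe_mapRingHom, eval_map]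

@[simp] lemma ev_X (c x : K) : ev c x X = x := by simp [ev]

@[simp] lemma ev_C (c x : K) (p : ℚ[X]) : ev c x (C p) = aeval c p := by simp [ev]

lemma ev_Pit (g : ℚ[X]) (c x : K) (n : ℕ) : ev c x (Pit g n) = orb g c x n := by
  induction n with
  | zero => simp [Pit]
  | succ n ih =>
    rw [Pit, map_add, ev_C, aeval_X, orb_succ]
    congr 1
    have h : ev c x ((g.map (C : ℚ →+* ℚ[X])).comp (Pit g n))
        = eval₂ (ev c x |>.comp (C : ℚ[X] →+* ℚ[X][X])) (ev c x (Pit g n))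
          (g.map (C : ℚ →+* ℚ[X])) := by
      rw [comp, hom_eval₂]
    rw [h, eval₂_map, ih, aeval_def]
    congr 1
    ext q
    simp

lemma ev_Rel (g : ℚ[X]) (c x : K) {r : ℕ} (μ : Fin r → ℚ) (i : ℕ) :
    ev c x (Rel g μ i) = ∑ j : Fin r, algebraMap ℚ K (μ j) * orb g c x (i + j) := by
  simp only [Rel, map_sum, map_mul, ev_C, aeval_C, ev_Pit]

end

lemma orb_rat (g : ℚ[X]) (c x : ℚ) (n : ℕ) : orb g c x (n + 1) = g.eval (orb g c x n) + c := by
  rw [orb_succ, coe_aeval_eq_eval]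

lemma ev_Rel_rat (g : ℚ[X]) (c x : ℚ) {r : ℕ} (μ : Fin r → ℚ) (i : ℕ) :
    ev c x (Rel g μ i) = ∑ j : Fin r, μ j * orb g c x (i + j) := by
  rw [ev_Rel]; rfl

lemma ht_pos (q : ℚ) : 1 ≤ ht q := le_trans q.den_pos (le_max_right _ _)

lemma ht_le_iff (q : ℚ) (n : ℕ) : ht q ≤ n ↔ q.num.natAbs ≤ n ∧ q.den ≤ n := max_le_iff

/-- `K` depends on `(d, r)` only -/
lemma natDegree_Pit {g : ℚ[X]} {d : ℕ} (hg : g.natDegree = d) (hd : 2 ≤ d) (n : ℕ) :
    (Pit g n).natDegree = d ^ n ∧ ∃ q : ℚ, q ≠ 0 ∧ (Pit g n).leadingCoeff = C q := by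
  have hg0 : g ≠ 0 := by
    rintro rfl
    simp at hg
    omega
  induction n with
  | zero => exact ⟨by simp [Pit], 1, one_ne_zero, by simp [Pit]⟩
  | succ n ih =>
    obtain ⟨h1, q, hq, h2⟩ := ih
    have hm : (g.map (C : ℚ →+* ℚ[X])).natDegree = d := by
      rw [natDegree_map_eq_of_injective C_injective, hg]
    have hdeg : ((g.map (C : ℚ →+* ℚ[X])).comp (Pit g n)).natDegree = d ^ (n + 1) := by
      rw [natDegree_comp, hm, h1, pow_succ, mul_comm]
    have hpos : 0 < d ^ (n + 1) := by positivity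
    have hlt : (C X : ℚ[X][X]).natDegree <
        ((g.map (C : ℚ →+* ℚ[X])).comp (Pit g n)).natDegree := by
      rw [natDegree_C, hdeg]; exact hpos
    have hlc : ((g.map (C : ℚ →+* ℚ[X])).comp (Pit g n)).leadingCoeff
        = C (g.leadingCoeff * q ^ d) := by
      rw [leadingCoeff_comp (by rw [h1]; positivity), h2, hm,
        leadingCoeff_map_of_injective C_injective, map_mul, map_pow]
    refine ⟨?_, g.leadingCoeff * q ^ d, mul_ne_zero (leadingCoeff_ne_zero.mpr hg0) (pow_ne_zero _ hq), ?_⟩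
    · rw [Pit, natDegree_add_eq_left_of_natDegree_lt hlt, hdeg]
    · rw [Pit, leadingCoeff_add_of_degree_lt', hlc]
      exact degree_lt_degree hlt

end Pool.Agent.UBX
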