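import Pool.Agent.UBX.Targets

set_option autoImplicit false

/-!
# Project UBX: few points on curves where a relation fails (CASEA)
-/

namespace Pool.Agent.UBX

open Polynomial

namespace CASEA_

lemma norm_prod_le (s : Multiset ℂ) (f : ℂ → ℂ) (B : ℝ) (hB : 0 ≤ B) :
    (∀ ξ ∈ s, ‖f ξ‖ ≤ B) → ‖(s.map f).prod‖ ≤ B ^ (Multiset.card s) := by
  induction s using Multiset.induction_on with
  | empty => intro _; simp
  | cons a s ih =>
    intro h
    rw [Multiset.map_cons, Multiset.prod_cons, norm_mul, Multiset.card_cons, pow_succ, mul_comm]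
    have h1 := ih fun ξ hξ => h ξ (Multiset.mem_cons_of_mem hξ)
    have h2 := h a (Multiset.mem_cons_self a s)
    exact mul_le_mul h1 h2 (norm_nonneg _) (pow_nonneg hB _)

lemma natDegree_pos {G : ℚ[X][X]} (hi : Irreducible G) (hm : G.Monic) : 1 ≤ G.natDegree := by
  by_contra h
  have h0 : G.natDegree = 0 := by omega
  have h1 : G = 1 := hm.natDegree_eq_zero.1 h0
  exact hi.not_isUnit (by rw [h1]; exact isUnit_one)

/-- growth of a relation polynomial at a root of `G` -/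
lemma growth (hG : T_GRO) (hE : T_ESC) (hU : T_UPG) (g : ℚ[X]) (d r i : ℕ)
    (hg : g.natDegree = d) (hd : 2 ≤ d) (G : ℚ[X][X])
    (h0 : ∃ μ : Fin r → ℚ, μ ≠ 0 ∧ G ∣ Rel g μ 0) (μ : Fin r → ℚ) :
    ∃ (C : ℝ) (T : ℕ), 1 ≤ C ∧ ∀ m : ℕ, T ≤ m → 1 ≤ m → ∀ ξ : ℂ, ev (m : ℂ) ξ G = 0 →
      ‖ev (m : ℂ) ξ (Rel g μ i)‖ ≤ C * (m : ℝ) ^ (d ^ (i + r - 1)) := by
  obtain ⟨μ0, hμ0, hdiv⟩ := h0
  obtain ⟨Γ, hΓ⟩ := hG g d hg hd
  obtain ⟨T, hT⟩ := hE g d hg hd Γ hΓ r μ0 hμ0
  choose K hK using fun n => hU g d hg hd Γ n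
  refine ⟨1 + ∑ j : Fin r, |(μ j : ℝ)| * |K (i + j)|, T, ?_, ?_⟩
  · have : 0 ≤ ∑ j : Fin r, |(μ j : ℝ)| * |K (i + j)| :=
      Finset.sum_nonneg fun j _ => mul_nonneg (abs_nonneg _) (abs_nonneg _)
    linarith
  intro m hm hm1 ξ hξ
  have hm1' : (1 : ℝ) ≤ (m : ℝ) := by exact_mod_cast hm1
  have hrel : (∑ j : Fin r, (μ0 j : ℂ) * orb g (m : ℂ) ξ j) = 0 := by
    obtain ⟨q, hq⟩ := hdiv
    have h1 : ev (m : ℂ) ξ (Rel g μ0 0) = 0 := by rw [hq, map_mul, hξ, zero_mul]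
    rw [ev_Rel] at h1
    rw [← h1]
    refine Finset.sum_congr rfl fun j _ => ?_
    rw [zero_add, eq_ratCast]
  have hnorm : ‖ξ‖ ≤ Γ * m := by
    refine (hT m hm ξ hrel).trans ?_
    refine mul_le_mul_of_nonneg_left ?_ (le_trans zero_le_one hΓ.1)
    have hd' : (1 : ℝ) / d ≤ 1 := by
      rw [div_le_one (by positivity)]
      exact_mod_cast (by omega : 1 ≤ d)
    calc (m : ℝ) ^ ((1 : ℝ) / d) ≤ (m : ℝ) ^ (1 : ℝ) :=
          Real.rpow_le_rpow_of_exponent_le hm1' hd'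
      _ = m := Real.rpow_one _
  rw [ev_Rel]
  refine (norm_sum_le _ _).trans ?_
  have hterm : ∀ j ∈ (Finset.univ : Finset (Fin r)),
      ‖algebraMap ℚ ℂ (μ j) * orb g (m : ℂ) ξ (i + j)‖ ≤
        (|(μ j : ℝ)| * |K (i + j)|) * (m : ℝ) ^ (d ^ (i + r - 1)) := by
    intro j _
    rw [norm_mul, mul_assoc]
    have h1 : ‖algebraMap ℚ ℂ (μ j)‖ = |(μ j : ℝ)| := by
      rw [eq_ratCast, ← Complex.ofReal_ratCast, Complex.norm_real, Real.norm_eq_abs]
    rw [h1]
    refine mul_le_mul_of_nonneg_left ?_ (abs_nonneg _)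
    refine (hK (i + j) m hm1 ξ hnorm).trans ?_
    have hj : i + (j : ℕ) ≤ i + r - 1 := by have := j.2; omega
    have h2 : (m : ℝ) ^ (d ^ (i + (j : ℕ))) ≤ (m : ℝ) ^ (d ^ (i + r - 1)) :=
      pow_le_pow_right₀ hm1' (Nat.pow_le_pow_right (by omega) hj)
    calc K (i + j) * (m : ℝ) ^ (d ^ (i + (j : ℕ)))
        ≤ |K (i + j)| * (m : ℝ) ^ (d ^ (i + (j : ℕ))) :=
          mul_le_mul_of_nonneg_right (le_abs_self _) (by positivity)
      _ ≤ |K (i + j)| * (m : ℝ) ^ (d ^ (i + r - 1)) :=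
          mul_le_mul_of_nonneg_left h2 (abs_nonneg _)
  refine (Finset.sum_le_sum hterm).trans ?_
  rw [← Finset.sum_mul]
  refine mul_le_mul_of_nonneg_right ?_ (by positivity)
  linarith

end CASEA_

/-- few points on curves where a relation fails -/
theorem p_CASEA (hG : T_GRO) (hE : T_ESC) (hU : T_UPG) (hZ : T_RESZ) (hEv : T_RESEV)
    (hQ : T_RESQ) (hPol : T_POLYG) : T_CASEA := by
  intro d r N i hd hr
  refine ⟨N * (N * d ^ (i + r - 1)), ?_⟩
  intro g hg G hirr hmon hN h0 μ hμ hndiv Z hZZ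
  classical
  have hpos := CASEA_.natDegree_pos hirr hmon
  set H := Rel g μ i with hH
  have hρ0 : resultant G H ≠ 0 := fun h => hndiv (hZ G H hirr hmon h)
  obtain ⟨K, T, hK1, hK⟩ := CASEA_.growth hG hE hU g d r i hg hd G h0 μ
  have hdeg : (resultant G H).natDegree ≤ N * d ^ (i + r - 1) := by
    refine hPol.1 _ _ ⟨K ^ N, max T 1, ?_⟩
    intro m hm
    have hmT : T ≤ m := (le_max_left _ _).trans hm
    have hm1 : 1 ≤ m := (le_max_right _ _).trans hm
    have hm1' : (1 : ℝ) ≤ (m : ℝ) := by exact_mod_cast hm1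
    obtain ⟨hcard, hprod⟩ := hEv G H hmon (m : ℂ)
    rw [hprod]
    have hB : (1 : ℝ) ≤ K * (m : ℝ) ^ (d ^ (i + r - 1)) :=
      one_le_mul_of_one_le_of_one_le hK1 (one_le_pow₀ hm1')
    have h1 : ‖(((sp (m : ℂ) G).roots.map (fun ξ => ev (m : ℂ) ξ H)).prod)‖ ≤
        (K * (m : ℝ) ^ (d ^ (i + r - 1))) ^ (Multiset.card (sp (m : ℂ) G).roots) := by
      refine CASEA_.norm_prod_le _ _ _ (le_trans zero_le_one hB) ?_
      intro ξ hξ
      refine hK m hmT hm1 ξ ?_
      rw [ev_apply]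
      exact isRoot_of_mem_roots hξ
    refine h1.trans ?_
    rw [hcard]
    calc (K * (m : ℝ) ^ (d ^ (i + r - 1))) ^ G.natDegree
        ≤ (K * (m : ℝ) ^ (d ^ (i + r - 1))) ^ N := pow_le_pow_right₀ hB hN
      _ = K ^ N * (m : ℝ) ^ (N * d ^ (i + r - 1)) := by
          rw [mul_pow, ← pow_mul, mul_comm (d ^ (i + r - 1)) N]
  have hfib : ∀ a ∈ Z.image Prod.fst, (Z.filter fun z => z.1 = a).card ≤ N := by
    intro a _
    have hspm : (sp a G).Monic := hmon.map _
    have hspd : (sp a G).natDegree = G.natDegree := hmon.natDegree_map _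
    have h1 : (Z.filter fun z => z.1 = a).card ≤ (sp a G).roots.toFinset.card := by
      refine Finset.card_le_card_of_injOn Prod.snd ?_ ?_
      · intro z hz
        have hz' := Finset.mem_filter.1 (Finset.mem_coe.1 hz)
        have h2 := (hZZ z hz'.1).1
        rw [hz'.2, ev_apply] at h2
        rw [Finset.mem_coe, Multiset.mem_toFinset, mem_roots hspm.ne_zero]
        exact h2
      · intro z hz z' hz' h
        have h1 := (Finset.mem_filter.1 (Finset.mem_coe.1 hz)).2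
        have h2 := (Finset.mem_filter.1 (Finset.mem_coe.1 hz')).2
        exact Prod.ext (h1.trans h2.symm) h
    calc (Z.filter fun z => z.1 = a).card ≤ (sp a G).roots.toFinset.card := h1
      _ ≤ Multiset.card (sp a G).roots := Multiset.toFinset_card_le _
      _ ≤ (sp a G).natDegree := card_roots' _
      _ = G.natDegree := hspd
      _ ≤ N := hN
  have himg : (Z.image Prod.fst).card ≤ N * d ^ (i + r - 1) := by
    have h1 : Z.image Prod.fst ⊆ (resultant G H).roots.toFinset := by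
      intro c hc
      obtain ⟨z, hz, rfl⟩ := Finset.mem_image.1 hc
      rw [Multiset.mem_toFinset, mem_roots hρ0]
      exact hQ G H hmon hpos z.1 z.2 (hZZ z hz).1 (hZZ z hz).2
    calc (Z.image Prod.fst).card ≤ (resultant G H).roots.toFinset.card := Finset.card_le_card h1
      _ ≤ Multiset.card (resultant G H).roots := Multiset.toFinset_card_le _
      _ ≤ (resultant G H).natDegree := card_roots' _
      _ ≤ N * d ^ (i + r - 1) := hdeg
  calc Z.card ≤ N * (Z.image Prod.fst).card := Finset.card_le_mul_card_image Z N hfib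
    _ ≤ N * (N * d ^ (i + r - 1)) := Nat.mul_le_mul_left _ himg

end Pool.Agent.UBX
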