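import Pool.Agent.UBX.Targets

set_option autoImplicit false

/-!
# Project UBX: all relations hold identically on the curve, so it is a curve `x_a = x_b`
-/

namespace Pool.Agent.UBX

open Polynomial

namespace CASEB_

theorem norm_prod_le {α : Type*} (f : α → ℂ) (B : ℝ) (hB : 0 ≤ B) (s : Multiset α)
    (h : ∀ x ∈ s, ‖f x‖ ≤ B) : ‖(s.map f).prod‖ ≤ B ^ Multiset.card s := by
  induction s using Multiset.induction_on with
  | empty => simp
  | cons a s ih =>
    rw [Multiset.map_cons, Multiset.prod_cons, Multiset.card_cons, norm_mul, pow_succ, mul_comm]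
    exact mul_le_mul (ih fun x hx => h x (Multiset.mem_cons_of_mem hx))
      (h a (Multiset.mem_cons_self a s)) (norm_nonneg _) (pow_nonneg hB _)

end CASEB_

open CASEB_ in
theorem p_CASEB (hP : T_PIG) (hZ : T_RESZ) (hEv : T_RESEV) (hPol : T_POLYG) : T_CASEB := by
  intro g d r N L hg hd hr hL G hGi hGm hGN hrel
  obtain ⟨a, b, hab, hbL, C, hC⟩ := hP g d r N L hg hd hr hL G hGm hGN hrel
  refine ⟨a, b, hab, hbL, ?_⟩
  set H : ℚ[X][X] := Pit g a - Pit g b with hH
  have hdeg : 1 ≤ G.natDegree := by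
    by_contra h
    have h0 : G.natDegree = 0 := by omega
    replace h0 := hGm.natDegree_eq_zero.1 h0
    exact hGi.not_isUnit (by rw [h0]; exact isUnit_one)
  set C' : ℝ := max C 0 with hC'
  have hC'0 : 0 ≤ C' := le_max_right _ _
  have hρ : resultant G H = 0 := by
    refine hPol.2 _ ⟨C' ^ G.natDegree, fun T => ?_⟩
    obtain ⟨m, hm, hξ⟩ := hC (max T 1)
    refine ⟨m, (le_max_left _ _).trans hm, ?_⟩
    have hm1 : (1 : ℝ) ≤ m := by exact_mod_cast (le_max_right T 1).trans hm
    have hs1 : 1 ≤ Real.sqrt m := by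
      rw [← Real.sqrt_one]
      exact Real.sqrt_le_sqrt hm1
    have hs0 : 0 < Real.sqrt m := by linarith
    obtain ⟨e1, e2⟩ := hEv G H hGm (m : ℂ)
    rw [e2]
    have e3 : ‖((sp (m : ℂ) G).roots.map (fun ξ => ev (m : ℂ) ξ H)).prod‖ ≤
        (C' / Real.sqrt m) ^ G.natDegree := by
      rw [← e1]
      refine norm_prod_le _ _ (by positivity) _ fun ξ hξr => ?_
      have e4 : ev (m : ℂ) ξ G = 0 := by
        rw [ev_apply]
        exact (mem_roots'.1 hξr).2
      have e5 := hξ ξ e4
      rw [hH, map_sub, ev_Pit, ev_Pit, le_div_iff₀ hs0]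
      exact e5.trans (le_max_left _ _)
    obtain ⟨n, hn⟩ : ∃ n, G.natDegree = n + 1 := ⟨G.natDegree - 1, by omega⟩
    calc ‖((sp (m : ℂ) G).roots.map (fun ξ => ev (m : ℂ) ξ H)).prod‖ * Real.sqrt m
        ≤ (C' / Real.sqrt m) ^ G.natDegree * Real.sqrt m :=
          mul_le_mul_of_nonneg_right e3 hs0.le
      _ = C' ^ G.natDegree / Real.sqrt m ^ n := by
          rw [div_pow, hn, pow_succ (Real.sqrt m)]
          field_simp
      _ ≤ C' ^ G.natDegree := by
          refine div_le_self (by positivity) ?_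
          exact one_le_pow₀ hs1
  exact hZ G H hGi hGm hρ

end Pool.Agent.UBX
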