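import Pool.Agent.UBX.Targets

set_option autoImplicit false

/-!
# UBX-CLASS: one linear relation for every block, on a whole residue class
-/

namespace Pool.Agent.UBX

open Polynomial

/-- CLASS: one linear relation for every block, on a whole residue class. -/
theorem p_CLASS (hM : T_MINOR) (hS : T_SPAN) : T_CLASS := by
  intro p h r _ hr hh g e he hg Y hY hlt Z hZ hres i
  choose! b hb1 hb2 hb3 using hZ
  obtain ⟨μ, hμ, hrel⟩ := hS {z : ℚ × ℚ // z ∈ Z} r
    (fun z j => orb g z.1.1 z.1.2 (i + j)) (by
      intro s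
      exact hM p h r hr hh g e he hg Y hY hlt i (fun l => (s l).1) (fun l => b (s l).1)
        (fun l => hb1 _ (s l).2) (fun l => hb2 _ (s l).2)
        (fun l j => hb3 _ (s l).2 j)
        (fun l l' => hres _ (s l).2 _ (s l').2))
  exact ⟨μ, hμ, fun z hz => hrel ⟨z, hz⟩⟩

end Pool.Agent.UBX
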