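import Pool.Agent.UBX.Targets

set_option autoImplicit false

/-!
# Project UBX: counting by residue classes
-/

namespace Pool.Agent.UBX

theorem p_CLCOUNT : T_CLCOUNT := by
  classical
  intro p M _ Z hZ
  set f : ℚ × ℚ → ZMod p × ZMod p := fun z => ((z.1 : ZMod p), (z.2 : ZMod p)) with hf
  have h1 : Z.card ≤ M * (Z.image f).card := by
    refine Finset.card_le_mul_card_image (f := f) Z M fun b _ => ?_
    refine hZ _ (Finset.filter_subset _ _) fun z hz z' hz' => ?_
    have e1 : f z = b := (Finset.mem_filter.1 hz).2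
    have e2 : f z' = b := (Finset.mem_filter.1 hz').2
    have e3 : f z = f z' := e1.trans e2.symm
    exact Prod.mk.inj e3
  have h2 : (Z.image f).card ≤ p ^ 2 := by
    refine (Finset.card_le_univ _).trans ?_
    rw [Fintype.card_prod, ZMod.card, sq]
  calc Z.card ≤ M * (Z.image f).card := h1
    _ ≤ M * p ^ 2 := Nat.mul_le_mul_left _ h2
    _ = p ^ 2 * M := Nat.mul_comm _ _

end Pool.Agent.UBX
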