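import Pool.Agent.UBX.Targets

set_option autoImplicit false

namespace Pool.Agent.UBX

open Polynomial

theorem p_COMD : T_COMD := by
  intro g d hd X hX hg
  refine ⟨∏ i ∈ Finset.range (d + 1), (g.coeff i).den, ?_, ?_, ?_⟩
  · exact Finset.prod_ne_zero_iff.mpr fun i _ => (g.coeff i).den_ne_zero
  · push_cast
    calc ∏ i ∈ Finset.range (d + 1), ((g.coeff i).den : ℝ)
        ≤ ∏ _i ∈ Finset.range (d + 1), X :=
          Finset.prod_le_prod (fun i _ => Nat.cast_nonneg _) fun i _ =>
            le_trans (by exact_mod_cast le_max_right _ _) (hg i)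
      _ = X ^ (d + 1) := by simp
  · intro i
    by_cases hi : i ≤ d
    · obtain ⟨m, hm⟩ := Finset.dvd_prod_of_mem (fun i => (g.coeff i).den)
        (Finset.mem_range.mpr (Nat.lt_succ_of_le hi))
      refine ⟨m * (g.coeff i).num, ?_⟩
      rw [hm]
      push_cast
      have := Rat.mul_den_eq_num (g.coeff i)
      rw [← this]
      ring
    · refine ⟨0, ?_⟩
      rw [coeff_eq_zero_of_natDegree_lt (by omega)]
      simp

end Pool.Agent.UBX
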