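import Pool.Agent.UBX.Targets

set_option autoImplicit false

/-!
# UBX-CON: contraction of the inverse branches
-/

namespace Pool.Agent.UBX

open Polynomial

namespace CON_

lemma pow_sub (u z : ℂ) (w C : ℝ) (hu : ‖u‖ ≤ w) (hz : ‖z‖ ≤ w) (hC : ‖u - z‖ ≤ C) (n : ℕ) :
    ‖u ^ (n + 1) - z ^ (n + 1)‖ ≤ (n + 1) * C * w ^ n := by
  have hw : 0 ≤ w := le_trans (norm_nonneg _) hu
  have hC0 : 0 ≤ C := le_trans (norm_nonneg _) hC
  induction n with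
  | zero => simpa using hC
  | succ n ih =>
    have h1 : u ^ (n + 1 + 1) - z ^ (n + 1 + 1) =
      u ^ (n + 1) * (u - z) + (u ^ (n + 1) - z ^ (n + 1)) * z := by ring
    rw [h1]
    refine (norm_add_le _ _).trans ?_
    rw [norm_mul, norm_mul, norm_pow]
    have h2 : ‖u‖ ^ (n + 1) * ‖u - z‖ ≤ w ^ (n + 1) * C := by gcongr
    have h3 : ‖u ^ (n + 1) - z ^ (n + 1)‖ * ‖z‖ ≤ ((n + 1) * C * w ^ n) * w := by gcongr
    refine (add_le_add h2 h3).trans (le_of_eq ?_)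
    push_cast
    ring

lemma eval_bd (R : ℂ[X]) (e : ℕ) (hR : R.natDegree ≤ e) :
    ∃ S : ℝ, 0 ≤ S ∧ ∀ (w : ℝ) (u : ℂ), 1 ≤ w → ‖u‖ ≤ w → ‖R.eval u‖ ≤ S * w ^ e := by
  refine ⟨∑ i ∈ Finset.range (e + 1), ‖R.coeff i‖, by positivity, fun w u hw hu => ?_⟩
  rw [Polynomial.eval_eq_sum_range' (Nat.lt_succ_of_le hR) u, Finset.sum_mul]
  refine (norm_sum_le _ _).trans (Finset.sum_le_sum fun i hi => ?_)
  rw [norm_mul, norm_pow]
  have h1 : ‖u‖ ^ i ≤ w ^ i := by gcongr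
  have h2 : w ^ i ≤ w ^ e := pow_le_pow_right₀ hw (by
    have := Finset.mem_range.1 hi; omega)
  have h3 := norm_nonneg (R.coeff i)
  exact mul_le_mul_of_nonneg_left (h1.trans h2) h3

end CON_

open CON_ in
theorem p_CON : T_CON := by
  intro g d hg hd C
  obtain ⟨e, rfl⟩ : ∃ e, d = e + 2 := ⟨d - 2, by omega⟩
  set P : ℂ[X] := g.map (algebraMap ℚ ℂ) with hP
  set a : ℂ := (g.leadingCoeff : ℂ) with ha
  have hg0 : g ≠ 0 := by rintro rfl; simp at hg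
  have ha0 : a ≠ 0 := by
    rw [ha]; exact_mod_cast leadingCoeff_ne_zero.2 hg0
  have hapos : 0 < ‖a‖ := norm_pos_iff.2 ha0
  have hPc : ∀ i, P.coeff i = (g.coeff i : ℂ) := by
    intro i; rw [hP, coeff_map]; simp
  have hev : ∀ x : ℂ, aeval x g = P.eval x := by
    intro x; rw [hP, eval_map, aeval_def]
  set R : ℂ[X] := derivative P - Polynomial.C (((e + 2 : ℕ) : ℂ) * a) * X ^ (e + 1) with hR
  have hRd : R.natDegree ≤ e := by
    rw [natDegree_le_iff_coeff_eq_zero]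
    intro N hN
    rw [hR, coeff_sub, coeff_derivative, coeff_C_mul, coeff_X_pow, hPc]
    by_cases h : N = e + 1
    · subst h
      rw [if_pos rfl, mul_one]
      have : g.coeff (e + 1 + 1) = g.leadingCoeff := by
        unfold leadingCoeff; rw [hg]
      rw [this, ← ha]
      push_cast
      ring
    · rw [if_neg h, coeff_eq_zero_of_natDegree_lt (by omega)]
      simp
  obtain ⟨S, hS0, hS⟩ := eval_bd R e hRd
  set C₀ : ℝ := |C| with hC₀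
  have hC₀0 : 0 ≤ C₀ := abs_nonneg C
  set B : ℝ := (S + (e + 2) * ‖a‖ * ((e + 1) * C₀)) * 2 ^ e with hB
  have hB0 : 0 ≤ B := by positivity
  set ρ₀ : ℝ := 1 + C₀ + B / ‖a‖ with hρ₀
  have hρ₀1 : 1 ≤ ρ₀ := by
    have : 0 ≤ B / ‖a‖ := by positivity
    linarith
  have hρ₀C : C₀ ≤ ρ₀ := by
    have : 0 ≤ B / ‖a‖ := by positivity
    linarith
  have hρ₀B : B ≤ ‖a‖ * ρ₀ := by
    have h1 : B / ‖a‖ ≤ ρ₀ := by linarith
    rw [div_le_iff₀ hapos] at h1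
    linarith
  refine ⟨Real.sqrt ‖a‖ * (2 * C₀ / ‖a‖), ⌈‖a‖ * ρ₀ ^ (e + 2)⌉₊, ?_⟩
  intro m hm τ hτ ζ x y hζ hx hy hxy
  set ρ : ℝ := ‖τ‖ with hρ
  have hmρ : ‖a‖ * ρ ^ (e + 2) = m := by
    have h1 := congrArg norm hτ
    rw [norm_mul, norm_pow, norm_neg, Complex.norm_natCast] at h1
    exact h1
  have hρ0 : 0 ≤ ρ := norm_nonneg _
  have hmT : ‖a‖ * ρ₀ ^ (e + 2) ≤ m := (Nat.le_ceil _).trans (by exact_mod_cast hm)
  have hρρ : ρ₀ ≤ ρ := by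
    by_contra hcon
    push Not at hcon
    have h1 : ρ ^ (e + 2) < ρ₀ ^ (e + 2) := pow_lt_pow_left₀ hcon hρ0 (by omega)
    have h2 := mul_lt_mul_of_pos_left h1 hapos
    linarith
  have hρ1 : 1 ≤ ρ := hρ₀1.trans hρρ
  have hρC : C₀ ≤ ρ := hρ₀C.trans hρρ
  have hCabs : C ≤ C₀ := le_abs_self C
  set z : ℂ := ζ * τ with hz
  have hζ1 : ‖ζ‖ = 1 := Complex.norm_eq_one_of_pow_eq_one hζ (by omega)
  have hzρ : ‖z‖ = ρ := by rw [hz, norm_mul, hζ1, one_mul]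
  -- mean value inequality
  set s : Set ℂ := Metric.closedBall z C₀ with hs
  have hxs : x ∈ s := by
    rw [hs, mem_closedBall_iff_norm]; exact hx.trans hCabs
  have hys : y ∈ s := by
    rw [hs, mem_closedBall_iff_norm]; exact hy.trans hCabs
  have hbd : ∀ u ∈ s, ‖(derivative P).eval u - ((e + 2 : ℕ) : ℂ) * a * z ^ (e + 1)‖ ≤ B * ρ ^ e := by
    intro u hu
    rw [hs, mem_closedBall_iff_norm] at hu
    have hu2 : ‖u‖ ≤ 2 * ρ := by
      have h1 : ‖u‖ ≤ ‖u - z‖ + ‖z‖ := by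
        have := norm_add_le (u - z) z
        rwa [sub_add_cancel] at this
      linarith
    have hz2 : ‖z‖ ≤ 2 * ρ := by rw [hzρ]; linarith
    have h1 : (derivative P).eval u - ((e + 2 : ℕ) : ℂ) * a * z ^ (e + 1) =
        R.eval u + ((e + 2 : ℕ) : ℂ) * a * (u ^ (e + 1) - z ^ (e + 1)) := by
      rw [hR]
      simp only [eval_sub, eval_mul, eval_C, eval_pow, eval_X]
      ring
    rw [h1]
    refine (norm_add_le _ _).trans ?_
    have h2 := hS (2 * ρ) u (by linarith) hu2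
    have h3 := pow_sub u z (2 * ρ) C₀ hu2 hz2 hu e
    rw [norm_mul, norm_mul, Complex.norm_natCast]
    have h4 : ((e + 2 : ℕ) : ℝ) * ‖a‖ * ‖u ^ (e + 1) - z ^ (e + 1)‖ ≤
        ((e + 2 : ℕ) : ℝ) * ‖a‖ * ((e + 1) * C₀ * (2 * ρ) ^ e) :=
      mul_le_mul_of_nonneg_left h3 (by positivity)
    refine (add_le_add h2 h4).trans (le_of_eq ?_)
    rw [hB, mul_pow]
    push_cast
    ring
  have hmv := Convex.norm_image_sub_le_of_norm_hasDerivWithin_le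
    (f := fun u : ℂ => P.eval u - ((e + 2 : ℕ) : ℂ) * a * z ^ (e + 1) * u)
    (f' := fun u : ℂ => (derivative P).eval u - ((e + 2 : ℕ) : ℂ) * a * z ^ (e + 1))
    (s := s) (C := B * ρ ^ e) (x := y) (y := x)
    (fun u _ => by
      have h1 := (P.hasDerivAt u).sub ((hasDerivAt_id u).const_mul
        (((e + 2 : ℕ) : ℂ) * a * z ^ (e + 1)))
      rw [mul_one] at h1
      exact h1.hasDerivWithinAt) hbd (convex_closedBall _ _) hys hxs
  have h5 : ((e + 2 : ℕ) : ℂ) * a * z ^ (e + 1) * (x - y) =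
      (P.eval x - P.eval y) -
      ((P.eval x - ((e + 2 : ℕ) : ℂ) * a * z ^ (e + 1) * x) -
        (P.eval y - ((e + 2 : ℕ) : ℂ) * a * z ^ (e + 1) * y)) := by ring
  have h6 := norm_sub_le (P.eval x - P.eval y)
      ((P.eval x - ((e + 2 : ℕ) : ℂ) * a * z ^ (e + 1) * x) -
        (P.eval y - ((e + 2 : ℕ) : ℂ) * a * z ^ (e + 1) * y))
  rw [← h5, norm_mul, norm_mul, norm_mul, norm_pow, hzρ, Complex.norm_natCast] at h6
  rw [hev, hev] at hxy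
  have h7 : ((e + 2 : ℕ) : ℝ) * ‖a‖ * ρ ^ (e + 1) * ‖x - y‖ ≤
      2 * C₀ + B * ρ ^ e * ‖x - y‖ := by
    refine h6.trans (add_le_add ?_ hmv)
    linarith
  have h8 : B * ρ ^ e ≤ ‖a‖ * ρ ^ (e + 1) := by
    have h9 : B ≤ ‖a‖ * ρ := hρ₀B.trans (mul_le_mul_of_nonneg_left hρρ hapos.le)
    have h10 : B * ρ ^ e ≤ (‖a‖ * ρ) * ρ ^ e := mul_le_mul_of_nonneg_right h9 (by positivity)
    refine h10.trans (le_of_eq ?_)
    ring
  have h11 : ‖a‖ * ρ ^ (e + 1) * ‖x - y‖ ≤ 2 * C₀ := by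
    have h12 : B * ρ ^ e * ‖x - y‖ ≤ ‖a‖ * ρ ^ (e + 1) * ‖x - y‖ :=
      mul_le_mul_of_nonneg_right h8 (norm_nonneg _)
    have h13 : 0 ≤ ‖a‖ * ρ ^ (e + 1) * ‖x - y‖ := by positivity
    have h14 : ((e + 2 : ℕ) : ℝ) * ‖a‖ * ρ ^ (e + 1) * ‖x - y‖ =
        ((e : ℝ) + 2) * (‖a‖ * ρ ^ (e + 1) * ‖x - y‖) := by push_cast; ring
    rw [h14] at h7
    have h15 : 0 ≤ (e : ℝ) * (‖a‖ * ρ ^ (e + 1) * ‖x - y‖) := by positivity
    linarith
  have h16 : Real.sqrt m ≤ Real.sqrt ‖a‖ * ρ ^ (e + 1) := by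
    rw [← hmρ, ← Real.sqrt_sq (show 0 ≤ ρ ^ (e + 1) by positivity), ← Real.sqrt_mul hapos.le]
    apply Real.sqrt_le_sqrt
    apply mul_le_mul_of_nonneg_left _ hapos.le
    rw [← pow_mul]
    exact pow_le_pow_right₀ hρ1 (by omega)
  calc ‖x - y‖ * Real.sqrt m ≤ ‖x - y‖ * (Real.sqrt ‖a‖ * ρ ^ (e + 1)) :=
        mul_le_mul_of_nonneg_left h16 (norm_nonneg _)
    _ = Real.sqrt ‖a‖ * (‖a‖ * ρ ^ (e + 1) * ‖x - y‖ / ‖a‖) := by
        field_simp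
    _ ≤ Real.sqrt ‖a‖ * (2 * C₀ / ‖a‖) := by gcongr

end Pool.Agent.UBX
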