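import Pool.Agent.UBX.Targets

set_option autoImplicit false

/-!
# UBX-COUNT: counting the exceptional constants
-/

namespace Pool.Agent.UBX

open Polynomial

theorem p_COUNT (hH : T_HGT) (hC : T_CLASS) (hP : T_PRIMES) (hA : T_AVOID) (hCl : T_CLCOUNT) :
    T_COUNT := by
  classical
  intro d h r L M hd hh hr hM g hg X hX hcoef P hPh E hE
  obtain ⟨e, he0, heX, hei, hb⟩ := hH g d hg hd X hX hcoef
  -- choices
  have hch : ∀ c : ℚ, ∃ (x : ℚ) (b : ℕ), c ∈ E → IsPrep g c x ∧ Dist g L c x ∧ b ≠ 0 ∧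
      (b : ℝ) ≤ X ^ (d + 3) ∧ c.den ∣ b ∧ ∀ i : ℕ, ∃ n : ℤ, (b : ℚ) * orb g c x i = n ∧
        |(n : ℝ)| ≤ (d + 3) * X ^ (d + 5) := by
    intro c
    by_cases hc : c ∈ E
    · obtain ⟨h1, x, h2, h3⟩ := hE c hc
      obtain ⟨b, h4, h5, h6, h7⟩ := hb c h1
      exact ⟨x, b, fun _ => ⟨h2, h3, h4, h5, h6, h7 x h2⟩⟩
    · exact ⟨0, 0, fun h => absurd h hc⟩
  choose x b hxb using hch
  obtain ⟨Y, hYd⟩ : ∃ Y : ℝ, Y = (d + 3) * X ^ (d + 5) := ⟨_, rfl⟩
  have hX5 : 1 ≤ X ^ (d + 5) := one_le_pow₀ hX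
  have hY1 : 1 ≤ Y := by
    rw [hYd]
    have : (0 : ℝ) ≤ d := Nat.cast_nonneg _
    nlinarith
  have hYX : X ^ (d + 5) ≤ Y := by
    rw [hYd]
    have : (0 : ℝ) ≤ d := Nat.cast_nonneg _
    nlinarith
  have hr2 : (1 : ℝ) ≤ r := by
    have : 1 ≤ r := by rw [hr]; exact Nat.succ_le_of_lt (by positivity)
    exact_mod_cast this
  rw [← hYd] at hPh
  have hrY : 1 ≤ (r : ℝ) * Y := by nlinarith
  have hP1 : 1 ≤ P := by
    by_contra hP0
    have : P = 0 := by omega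
    rw [this, Nat.cast_zero, zero_pow (by omega)] at hPh
    nlinarith
  obtain ⟨S, hSc, hS⟩ := hP h P hP1
  -- every constant avoids one of the primes
  have hav : ∀ c ∈ E, ∃ p ∈ S, ¬ p ∣ e * b c := by
    intro c hc
    obtain ⟨-, -, h4, h5, -, -⟩ := hxb c hc
    refine hA h P (e * b c) S hSc (fun p hp => ⟨(hS p hp).1, (hS p hp).2.1⟩) (mul_ne_zero he0 h4) ?_ hh
    have h6 : ((e * b c : ℕ) : ℝ) ≤ (P : ℝ) ^ h := by
      refine le_trans ?_ hPh
      push_cast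
      have h7 : (e : ℝ) * b c ≤ X ^ (d + 1) * X ^ (d + 3) := by gcongr
      have h8 : X ^ (d + 1) * X ^ (d + 3) ≤ X ^ (d + 5) * X ^ (d + 5) := by
        have a1 : X ^ (d + 1) ≤ X ^ (d + 5) := pow_le_pow_right₀ hX (by omega)
        have a2 : X ^ (d + 3) ≤ X ^ (d + 5) := pow_le_pow_right₀ hX (by omega)
        gcongr
      have h9 : X ^ (d + 5) ≤ (r : ℝ) * Y := by nlinarith
      calc (e : ℝ) * b c ≤ X ^ (d + 5) * X ^ (d + 5) := h7.trans h8
        _ ≤ ((r : ℝ) * Y) * ((r : ℝ) * Y) := by gcongr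
        _ = _ := by ring
    exact_mod_cast h6
  -- one prime
  have hone : ∀ p ∈ S, (E.filter fun c => ¬ p ∣ e * b c).card ≤ (2 ^ h * P) ^ 2 * M := by
    intro p hp
    obtain ⟨hpp, hPp, hp2⟩ := hS p hp
    haveI : Fact p.Prime := ⟨hpp⟩
    set Z : Finset (ℚ × ℚ) := (E.filter fun c => ¬ p ∣ e * b c).image (fun c => (c, x c)) with hZ
    have hZc : Z.card = (E.filter fun c => ¬ p ∣ e * b c).card := by
      rw [hZ, Finset.card_image_of_injective]
      intro c c' hcc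
      exact (Prod.mk.inj hcc).1
    rw [← hZc]
    have hlt : ((r : ℝ) * Y) ^ 2 < (p : ℝ) ^ h := by
      refine lt_of_le_of_lt hPh ?_
      have : (P : ℝ) < p := by exact_mod_cast hPp
      exact pow_lt_pow_left₀ this (Nat.cast_nonneg _) (by omega)
    have hcl : Z.card ≤ p ^ 2 * M := by
      refine hCl p M Z fun Z' hZ' hcong => ?_
      rcases Z'.eq_empty_or_nonempty with h0 | ⟨z0, hz0⟩
      · rw [h0]; simp
      · have hmem : ∀ z ∈ Z', z.1 ∈ E ∧ ¬ p ∣ e * b z.1 ∧ z.2 = x z.1 := by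
          intro z hz
          have := hZ' hz
          rw [hZ, Finset.mem_image] at this
          obtain ⟨c, hc, rfl⟩ := this
          rw [Finset.mem_filter] at hc
          exact ⟨hc.1, hc.2, rfl⟩
        have hpe : ¬ p ∣ e := fun h => (hmem z0 hz0).2.1 (dvd_mul_of_dvd_left h _)
        refine hM g hg Z' (fun i _ => ?_) (fun z hz => ?_)
        · refine hC p h r hr hh g e hpe hei Y hY1 hlt Z' (fun z hz => ?_) hcong i
          obtain ⟨h1, h2, h3⟩ := hmem z hz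
          obtain ⟨-, -, -, -, h6, h7⟩ := hxb z.1 h1
          refine ⟨b z.1, fun h => h2 (dvd_mul_of_dvd_right h _), h6, fun j => ?_⟩
          rw [h3, hYd]
          exact h7 j
        · obtain ⟨h1, -, h3⟩ := hmem z hz
          rw [h3]
          exact (hxb z.1 h1).2.1
    refine hcl.trans (Nat.mul_le_mul_right _ (Nat.pow_le_pow_left hp2 2))
  -- union
  have hsub : E ⊆ S.biUnion fun p => E.filter fun c => ¬ p ∣ e * b c := by
    intro c hc
    obtain ⟨p, hp, hpd⟩ := hav c hc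
    rw [Finset.mem_biUnion]
    exact ⟨p, hp, Finset.mem_filter.2 ⟨hc, hpd⟩⟩
  calc E.card ≤ (S.biUnion fun p => E.filter fun c => ¬ p ∣ e * b c).card := Finset.card_le_card hsub
    _ ≤ ∑ p ∈ S, (E.filter fun c => ¬ p ∣ e * b c).card := Finset.card_biUnion_le
    _ ≤ ∑ _p ∈ S, (2 ^ h * P) ^ 2 * M := Finset.sum_le_sum hone
    _ = h * ((2 ^ h * P) ^ 2 * M) := by rw [Finset.sum_const, hSc, smul_eq_mul]

end Pool.Agent.UBX
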