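import Pool.Agent.UBX.Targets

set_option autoImplicit false

namespace Pool.Agent.UBX

open Polynomial

namespace DEN_

/-- a rational number with all `p`-adic norms at most `1` is an integer -/
lemma int_of_norm (q : ℚ) (h : ∀ p : ℕ, p.Prime → padicNorm p q ≤ 1) : ∃ n : ℤ, q = n := by
  have hden : q.den = 1 := by
    by_contra hne
    obtain ⟨p, hp, hdvd⟩ := Nat.exists_prime_and_dvd hne
    have : Fact p.Prime := ⟨hp⟩
    have h1 := h p hp
    have hnum : padicNorm p (q.num : ℚ) = 1 := by
      rw [padicNorm.int_eq_one_iff]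
      intro hd
      have h2 : p ∣ q.num.natAbs := Int.natCast_dvd.mp hd
      have := Nat.dvd_gcd h2 hdvd
      rw [Nat.Coprime.gcd_eq_one q.reduced] at this
      exact hp.one_lt.ne' (Nat.dvd_one.mp this)
    have hd' : padicNorm p (q.den : ℚ) < 1 := (padicNorm.nat_lt_one_iff q.den).mpr hdvd
    have hq : q * q.den = q.num := Rat.mul_den_eq_num q
    have h3 : padicNorm p q * padicNorm p (q.den : ℚ) = 1 := by
      rw [← padicNorm.mul, hq, hnum]
    have h4 : 0 ≤ padicNorm p (q.den : ℚ) := padicNorm.nonneg _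
    have h5 : 0 ≤ padicNorm p q := padicNorm.nonneg _
    nlinarith
  exact ⟨q.num, (Rat.coe_int_num_of_den_eq_one hden).symm⟩

lemma step (p : ℕ) [Fact p.Prime] (g : ℚ[X]) (d e : ℕ) (hd : g.natDegree = d) (h2 : 2 ≤ d)
    (hint : ∀ i : ℕ, ∃ k : ℤ, (e : ℚ) * g.coeff i = k) (c x : ℚ)
    (hx : 1 < padicNorm p x * padicNorm p ((e : ℚ) * g.leadingCoeff) * padicNorm p (c.den : ℚ)) :
    padicNorm p x < padicNorm p (g.eval x + c) := by
  set R := padicNorm p x with hR
  set G : ℚ := (e : ℚ) * g.leadingCoeff with hG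
  have hG1 : padicNorm p G ≤ 1 := by
    obtain ⟨k, hk⟩ := hint g.natDegree
    rw [hG, leadingCoeff, hk]
    exact padicNorm.of_int k
  have hD1 : padicNorm p (c.den : ℚ) ≤ 1 := padicNorm.of_nat c.den
  have hR0 : 0 ≤ R := padicNorm.nonneg _
  have hG0 : 0 ≤ padicNorm p G := padicNorm.nonneg _
  have hD0 : 0 ≤ padicNorm p (c.den : ℚ) := padicNorm.nonneg _
  -- R * |G| > 1, R > 1
  have hRG : 1 < R * padicNorm p G := by
    have : R * padicNorm p G * padicNorm p (c.den : ℚ) ≤ R * padicNorm p G * 1 :=
      mul_le_mul_of_nonneg_left hD1 (mul_nonneg hR0 hG0)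
    linarith
  have hR1 : 1 < R := by
    have : R * padicNorm p G ≤ R * 1 := mul_le_mul_of_nonneg_left hG1 hR0
    linarith
  -- the decomposition
  have hsum : (e : ℚ) * (g.eval x + c) =
      G * x ^ d + (∑ j ∈ Finset.range d, (e : ℚ) * g.coeff j * x ^ j + (e : ℚ) * c) := by
    rw [eval_eq_sum_range, hd, Finset.sum_range_succ, hG, leadingCoeff, hd, mul_add, mul_add,
      Finset.mul_sum]
    have : ∀ j ∈ Finset.range d, (e : ℚ) * (g.coeff j * x ^ j) = (e : ℚ) * g.coeff j * x ^ j :=
      fun j _ => by ring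
    rw [Finset.sum_congr rfl this]
    ring
  have hmain : padicNorm p (G * x ^ d) = padicNorm p G * R ^ d := by
    rw [padicNorm.mul, hR]
    congr 1
    clear hsum h2 hd
    induction d with
    | zero => simp
    | succ n ih => rw [pow_succ, padicNorm.mul, ih, pow_succ]
  obtain ⟨n, rfl⟩ : ∃ n, d = n + 2 := ⟨d - 2, by omega⟩
  have hbig : R ^ (n + 1) < padicNorm p G * R ^ (n + 2) := by
    have h0 : 0 < R ^ (n + 1) := by positivity
    have : R ^ (n + 1) * 1 < R ^ (n + 1) * (R * padicNorm p G) := mul_lt_mul_of_pos_left hRG h0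
    calc R ^ (n + 1) = R ^ (n + 1) * 1 := by ring
      _ < R ^ (n + 1) * (R * padicNorm p G) := this
      _ = padicNorm p G * R ^ (n + 2) := by ring
  have hsmall1 : padicNorm p (∑ j ∈ Finset.range (n + 2), (e : ℚ) * g.coeff j * x ^ j) ≤
      R ^ (n + 1) := by
    apply padicNorm.sum_le'
    · intro j hj
      obtain ⟨k, hk⟩ := hint j
      rw [hk, padicNorm.mul]
      have h1 : padicNorm p (k : ℚ) ≤ 1 := padicNorm.of_int k
      have hp : ∀ m : ℕ, padicNorm p (x ^ m) = R ^ m := by
        intro m
        induction m with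
        | zero => simp
        | succ m ih => rw [pow_succ, padicNorm.mul, ih, pow_succ]
      rw [hp]
      have hj' : j ≤ n + 1 := by
        have := Finset.mem_range.mp hj
        omega
      calc padicNorm p (k : ℚ) * R ^ j ≤ 1 * R ^ j :=
            mul_le_mul_of_nonneg_right h1 (by positivity)
        _ = R ^ j := one_mul _
        _ ≤ R ^ (n + 1) := pow_le_pow_right₀ hR1.le hj'
    · positivity
  have hsmall2 : padicNorm p ((e : ℚ) * c) < padicNorm p G * R ^ (n + 2) := by
    have h1 : padicNorm p ((e : ℚ) * c) * padicNorm p (c.den : ℚ) ≤ 1 := by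
      rw [← padicNorm.mul]
      have : (e : ℚ) * c * (c.den : ℚ) = ((e * c.num : ℤ) : ℚ) := by
        rw [mul_assoc, Rat.mul_den_eq_num]
        push_cast
        ring
      rw [this]
      exact padicNorm.of_int _
    have hDpos : 0 < padicNorm p (c.den : ℚ) := by
      rcases hD0.lt_or_eq with h | h
      · exact h
      · rw [← h] at hx
        simp at hx
        linarith
    have h3 : padicNorm p ((e : ℚ) * c) < R * padicNorm p G := by
      have h4 : padicNorm p ((e : ℚ) * c) * padicNorm p (c.den : ℚ) <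
          R * padicNorm p G * padicNorm p (c.den : ℚ) := lt_of_le_of_lt h1 hx
      exact lt_of_mul_lt_mul_right h4 hDpos.le
    have h5 : R * 1 ≤ R * R ^ (n + 1) := mul_le_mul_of_nonneg_left (one_le_pow₀ hR1.le) hR0
    calc padicNorm p ((e : ℚ) * c) < R * padicNorm p G := h3
      _ = padicNorm p G * (R * 1) := by ring
      _ ≤ padicNorm p G * (R * R ^ (n + 1)) := mul_le_mul_of_nonneg_left h5 hG0
      _ = padicNorm p G * R ^ (n + 2) := by ring
  have hrest : padicNorm p (∑ j ∈ Finset.range (n + 2), (e : ℚ) * g.coeff j * x ^ j +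
      (e : ℚ) * c) < padicNorm p G * R ^ (n + 2) := by
    refine lt_of_le_of_lt padicNorm.nonarchimedean ?_
    exact max_lt (lt_of_le_of_lt hsmall1 hbig) hsmall2
  have heq : padicNorm p ((e : ℚ) * (g.eval x + c)) = padicNorm p G * R ^ (n + 2) := by
    rw [hsum, padicNorm.add_eq_max_of_ne (by rw [hmain]; exact hrest.ne'), hmain]
    exact max_eq_left hrest.le
  have he1 : padicNorm p (e : ℚ) ≤ 1 := padicNorm.of_nat e
  have hfin : padicNorm p G * R ^ (n + 2) ≤ padicNorm p (g.eval x + c) := by
    rw [← heq, padicNorm.mul]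
    calc padicNorm p (e : ℚ) * padicNorm p (g.eval x + c)
        ≤ 1 * padicNorm p (g.eval x + c) :=
          mul_le_mul_of_nonneg_right he1 (padicNorm.nonneg _)
      _ = padicNorm p (g.eval x + c) := one_mul _
  have hRle : R ≤ R ^ (n + 1) := by
    calc R = R ^ 1 := (pow_one R).symm
      _ ≤ R ^ (n + 1) := pow_le_pow_right₀ hR1.le (by omega)
  linarith

end DEN_

theorem p_DEN : T_DEN := by
  intro g d e hd h2 he hint c x hprep i
  apply DEN_.int_of_norm
  intro p hp
  have : Fact p.Prime := ⟨hp⟩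
  by_contra hcon
  push Not at hcon
  set K := padicNorm p ((e : ℚ) * g.leadingCoeff) * padicNorm p (c.den : ℚ) with hK
  have hK0 : 0 ≤ K := mul_nonneg (padicNorm.nonneg _) (padicNorm.nonneg _)
  have hi : 1 < padicNorm p (orb g c x i) * K := by
    have : padicNorm p ((e : ℚ) * g.leadingCoeff * c.den * orb g c x i) =
        padicNorm p (orb g c x i) * K := by
      rw [hK, padicNorm.mul, padicNorm.mul]
      ring
    rw [← this]
    exact hcon
  have hstep : ∀ n, 1 < padicNorm p (orb g c x n) * K →
      padicNorm p (orb g c x n) < padicNorm p (orb g c x (n + 1)) := by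
    intro n hn
    rw [orb_rat]
    apply DEN_.step p g d e hd h2 hint c
    rw [mul_assoc]
    exact hn
  have hall : ∀ k, 1 < padicNorm p (orb g c x (i + k)) * K := by
    intro k
    induction k with
    | zero => exact hi
    | succ k ih =>
      have := hstep _ ih
      calc (1 : ℚ) < padicNorm p (orb g c x (i + k)) * K := ih
        _ ≤ padicNorm p (orb g c x (i + (k + 1))) * K :=
          mul_le_mul_of_nonneg_right this.le hK0
  have hmono : StrictMono fun k => padicNorm p (orb g c x (i + k)) :=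
    strictMono_nat_of_lt_succ fun k => hstep _ (hall k)
  obtain ⟨a, b, hab, hEq⟩ := hprep
  have h1 := orb_shift_eq g c x hEq i
  have h3 := hmono hab
  simp only at h3
  rw [add_comm i a, add_comm i b, h1] at h3
  exact lt_irrefl _ h3

end Pool.Agent.UBX
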