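import Pool.Agent.UBX.Targets

set_option autoImplicit false

/-!
# UBX-DET: `p`-adic divisibility of a determinant
-/

namespace Pool.Agent.UBX

open Polynomial

namespace DET_

variable {R : Type} [CommRing R]

theorem det_dvd {r : ℕ} {D : Type} [Fintype D] [DecidableEq D] (P : R) (h q : ℕ)
    (hq : Fintype.card D ≤ q) (a : Fin r → D → R) (b : D → Fin r → R) (N : Fin r → Fin r → R) :
    P ^ (h * (r - q)) ∣
      Matrix.det (Matrix.of fun l j => ∑ α, a l α * b α j + P ^ h * N l j) := by
  classical
  set g : Fin r → Option D → (Fin r → R) := fun l s => s.elim (P ^ h • N l) (fun α => a l α • b α)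
    with hg
  have h1 : (Matrix.of fun l j => ∑ α, a l α * b α j + P ^ h * N l j) =
      Matrix.of (fun l => ∑ s : Option D, g l s) := by
    ext l j
    rw [Matrix.of_apply, Matrix.of_apply, Fintype.sum_option, Pi.add_apply, Finset.sum_apply]
    simp only [hg, Option.elim_none, Option.elim_some, Pi.smul_apply, smul_eq_mul]
    ring
  have h2 : Matrix.det (Matrix.of (fun l => ∑ s : Option D, g l s)) =
      ∑ s : Fin r → Option D, Matrix.det (Matrix.of fun l => g l (s l)) :=
    MultilinearMap.map_sum (Matrix.detRowAlternating (n := Fin r) (R := R)).toMultilinearMap g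
  rw [h1, h2]
  refine Finset.dvd_sum fun s _ => ?_
  set c : Fin r → R := fun l => (s l).elim (P ^ h) (a l) with hc
  set m : Fin r → Fin r → R := fun l => (s l).elim (N l) b with hm
  have h3 : (Matrix.of fun l => g l (s l)) = Matrix.of fun l j => c l * m l j := by
    ext l j
    rw [Matrix.of_apply, Matrix.of_apply]
    simp only [hg, hc, hm]
    rcases s l with _ | α <;> simp
  rw [h3]
  have h4 : Matrix.det (Matrix.of fun l j => c l * m l j) = (∏ l, c l) * Matrix.det (Matrix.of m) :=
    Matrix.det_mul_column c (Matrix.of m)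
  rw [h4]
  by_cases hinj : ∃ l l', l ≠ l' ∧ s l = s l' ∧ s l ≠ none
  · obtain ⟨l, l', hne, he, hn⟩ := hinj
    have h5 : Matrix.det (Matrix.of m) = 0 := by
      refine Matrix.det_zero_of_row_eq hne ?_
      show m l = m l'
      simp only [hm]
      rw [← he]
      obtain ⟨α, hα⟩ := Option.ne_none_iff_exists'.1 hn
      rw [hα]
      rfl
    rw [h5, mul_zero]
    exact dvd_zero _
  · push Not at hinj
    refine dvd_mul_of_dvd_left ?_ _
    set Z : Finset (Fin r) := Finset.univ.filter fun l => s l = none with hZ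
    have h6 : ∏ l ∈ Z, c l ∣ ∏ l, c l := Finset.prod_dvd_prod_of_subset _ _ _ (Finset.subset_univ _)
    have h7 : ∏ l ∈ Z, c l = P ^ (h * Z.card) := by
      rw [pow_mul, Finset.prod_congr rfl (g := fun _ => P ^ h), Finset.prod_const]
      intro l hl
      have : s l = none := (Finset.mem_filter.1 hl).2
      simp only [hc, this, Option.elim_none]
    have h8 : r - q ≤ Z.card := by
      have h9 : (Finset.univ.filter fun l => s l ≠ none).card ≤ Fintype.card D := by
        have h10 : ((Finset.univ.filter fun l => s l ≠ none).image s) ⊆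
            (Finset.univ : Finset (Option D)).erase none := by
          intro x hx
          rw [Finset.mem_image] at hx
          obtain ⟨l, hl, rfl⟩ := hx
          rw [Finset.mem_erase]
          exact ⟨(Finset.mem_filter.1 hl).2, Finset.mem_univ _⟩
        have h11 := Finset.card_le_card h10
        rw [Finset.card_erase_of_mem (Finset.mem_univ _), Finset.card_univ, Fintype.card_option,
          Finset.card_image_of_injOn] at h11
        · simpa using h11
        · intro l hl l' hl' he
          by_contra hne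
          exact (Finset.mem_filter.1 (Finset.mem_coe.1 hl)).2 (hinj l l' hne he)
      have h12 := Finset.card_filter_add_card_filter_not (s := (Finset.univ : Finset (Fin r)))
        (fun l => s l = none)
      rw [Finset.card_univ, Fintype.card_fin] at h12
      have h13 : (Finset.univ.filter fun l => ¬ s l = none).card ≤ Fintype.card D := h9
      have h14 : Z.card + (Finset.univ.filter fun l => ¬ s l = none).card = r := by
        convert h12 using 3
      omega
    rw [h7] at h6
    exact (pow_dvd_pow P (Nat.mul_le_mul_left h h8)).trans h6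

/-- exponents of degree less than `h` -/
noncomputable def S (h : ℕ) : Finset (Fin 2 →₀ ℕ) := by
  classical
  exact ((Finset.range h).sigma (fun n => Finset.range (n + 1))).image
    (fun x => Finsupp.single 0 x.2 + Finsupp.single 1 (x.1 - x.2))

theorem mem_S {h : ℕ} {d : Fin 2 →₀ ℕ} : d ∈ S h ↔ d 0 + d 1 < h := by
  classical
  unfold S
  rw [Finset.mem_image]
  constructor
  · rintro ⟨⟨n, i⟩, hx, rfl⟩
    rw [Finset.mem_sigma, Finset.mem_range, Finset.mem_range] at hx
    simp only [Finsupp.add_apply, Finsupp.single_apply]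
    simp only at hx
    simp
    omega
  · intro hd
    refine ⟨⟨d 0 + d 1, d 0⟩, ?_, ?_⟩
    · rw [Finset.mem_sigma, Finset.mem_range, Finset.mem_range]
      exact ⟨hd, Nat.lt_succ_of_le (Nat.le_add_right _ _)⟩
    · ext i
      fin_cases i <;> simp

theorem card_S (h : ℕ) : 2 * (S h).card ≤ h * (h + 1) := by
  classical
  unfold S
  have h1 := Finset.card_image_le (s := (Finset.range h).sigma (fun n => Finset.range (n + 1)))
    (f := fun x => (Finsupp.single 0 x.2 + Finsupp.single 1 (x.1 - x.2) : Fin 2 →₀ ℕ))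
  have h2 : 2 * ((Finset.range h).sigma (fun n => Finset.range (n + 1))).card = h * (h + 1) := by
    rw [Finset.card_sigma]
    simp only [Finset.card_range]
    clear h1
    induction h with
    | zero => simp
    | succ h ih =>
      rw [Finset.sum_range_succ, mul_add, ih]
      ring
  omega

/-- Taylor expansion -/
theorem expand (P : R) (h : ℕ) (ψ : MvPolynomial (Fin 2) R) : ∃ N : (Fin 2 → R) → R,
    ∀ w : Fin 2 → R, MvPolynomial.eval (fun k => P * w k) ψ =
      ∑ α : {d // d ∈ S h}, (P ^ (α.1 0 + α.1 1) * (w 0 ^ α.1 0 * w 1 ^ α.1 1)) *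
        MvPolynomial.coeff α.1 ψ + P ^ h * N w := by
  classical
  refine ⟨fun w => ∑ d ∈ ψ.support.filter (fun d => ¬ d 0 + d 1 < h),
    MvPolynomial.coeff d ψ * (P ^ (d 0 + d 1 - h) * (w 0 ^ d 0 * w 1 ^ d 1)), fun w => ?_⟩
  rw [MvPolynomial.eval_eq', ← Finset.sum_filter_add_sum_filter_not _ (fun d => d 0 + d 1 < h)]
  congr 1
  · rw [Finset.sum_coe_sort (S h) (fun d => (P ^ (d 0 + d 1) * (w 0 ^ d 0 * w 1 ^ d 1)) *
      MvPolynomial.coeff d ψ)]
    have hsub : ψ.support.filter (fun d => d 0 + d 1 < h) ⊆ S h := by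
      intro d hd
      exact mem_S.2 (Finset.mem_filter.1 hd).2
    rw [← Finset.sum_subset hsub]
    · refine Finset.sum_congr rfl fun d _ => ?_
      rw [Fin.prod_univ_two]
      ring
    · intro d hd hd'
      have : MvPolynomial.coeff d ψ = 0 := by
        by_contra hne
        exact hd' (Finset.mem_filter.2 ⟨MvPolynomial.mem_support_iff.2 hne, mem_S.1 hd⟩)
      rw [this, mul_zero]
  · rw [Finset.mul_sum]
    refine Finset.sum_congr rfl fun d hd => ?_
    have h1 : ¬ d 0 + d 1 < h := (Finset.mem_filter.1 hd).2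
    have h2 : P ^ (d 0 + d 1) = P ^ h * P ^ (d 0 + d 1 - h) := by
      rw [← pow_add]; congr 1; omega
    rw [Fin.prod_univ_two, mul_pow, mul_pow]
    calc _ = MvPolynomial.coeff d ψ * (P ^ (d 0 + d 1) * (w 0 ^ d 0 * w 1 ^ d 1)) := by
          rw [pow_add]; ring
      _ = _ := by rw [h2]; ring

end DET_

open DET_ in
theorem p_DET : T_DET := by
  classical
  intro p hp h r hr φ z hz
  by_cases h0 : h = 0
  · subst h0
    simp
  have hr0 : 0 < r := by
    rw [hr]
    positivity
  obtain ⟨u, hu⟩ : ∃ u, u = z ⟨0, hr0⟩ := ⟨_, rfl⟩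
  have hw : ∀ l k, ∃ w : ℤ_[p], z l k = (p : ℤ_[p]) * w + u k := by
    intro l k
    obtain ⟨w, hw⟩ := hz l ⟨0, hr0⟩ k
    refine ⟨w, ?_⟩
    rw [← hw, hu]
    ring
  choose w hw using hw
  -- shifted polynomials
  set ψ : Fin r → MvPolynomial (Fin 2) ℤ_[p] := fun j =>
    MvPolynomial.bind₁ (fun k => MvPolynomial.X k + MvPolynomial.C (u k)) (φ j) with hψ
  have hev : ∀ l j, MvPolynomial.eval (z l) (φ j) =
      MvPolynomial.eval (fun k => (p : ℤ_[p]) * w l k) (ψ j) := by
    intro l j
    have h1 : MvPolynomial.eval (fun k => (p : ℤ_[p]) * w l k) (ψ j) =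
        MvPolynomial.eval (fun k => MvPolynomial.eval (fun k => (p : ℤ_[p]) * w l k)
          (MvPolynomial.X k + MvPolynomial.C (u k))) (φ j) := by
      simp only [hψ]
      rw [MvPolynomial.eval, MvPolynomial.eval₂Hom_bind₁]
      rfl
    have h5 : z l = fun k => MvPolynomial.eval (fun k => (p : ℤ_[p]) * w l k)
        (MvPolynomial.X k + MvPolynomial.C (u k)) := by
      funext k
      rw [MvPolynomial.eval_add, MvPolynomial.eval_X, MvPolynomial.eval_C]
      exact hw l k
    rw [h1, ← h5]
  choose N hN using fun j => expand (p : ℤ_[p]) h (ψ j)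
  have hM : (Matrix.of fun l j => MvPolynomial.eval (z l) (φ j)) =
      Matrix.of fun l j => ∑ α : {d // d ∈ S h},
        ((p : ℤ_[p]) ^ (α.1 0 + α.1 1) * (w l 0 ^ α.1 0 * w l 1 ^ α.1 1)) *
        MvPolynomial.coeff α.1 (ψ j) + (p : ℤ_[p]) ^ h * N j (w l) := by
    ext l j
    rw [Matrix.of_apply, Matrix.of_apply, hev, hN]
  rw [hM]
  have h2 := card_S h
  have h3 := det_dvd (D := {d // d ∈ S h}) (p : ℤ_[p]) h (r / 2)
    (by rw [Fintype.card_coe]; omega)
    (fun l α => (p : ℤ_[p]) ^ (α.1 0 + α.1 1) * (w l 0 ^ α.1 0 * w l 1 ^ α.1 1))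
    (fun α j => MvPolynomial.coeff α.1 (ψ j)) (fun l j => N j (w l))
  have h4 : r - r / 2 = r / 2 := by
    have : 2 ∣ r := by rw [hr]; exact (Nat.even_mul_succ_self h).two_dvd
    omega
  rw [h4] at h3
  exact h3

end Pool.Agent.UBX
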