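import Pool.Agent.UBX.Targets

set_option autoImplicit false

/-! # Size of an integral determinant (T_DSIZE) -/

namespace Pool.Agent.UBX

theorem p_DSIZE : T_DSIZE := by
  intro r Y M hM
  rcases Nat.eq_zero_or_pos r with rfl | hr
  · simp
  · have hY : 0 ≤ Y := (abs_nonneg _).trans (hM ⟨0, hr⟩ ⟨0, hr⟩)
    have h1 : |((M.map (Int.cast : ℤ → ℝ)).det)| ≤ (r.factorial : ℝ) * Y ^ r := by
      have := Matrix.det_le (A := M.map (Int.cast : ℤ → ℝ)) (abv := AbsoluteValue.abs) (x := Y)
        (fun i j => hM i j)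
      simpa [nsmul_eq_mul] using this
    have h2 : ((M.det : ℤ) : ℝ) = (M.map (Int.cast : ℤ → ℝ)).det := by
      exact Int.cast_det M
    rw [h2, mul_pow]
    refine h1.trans (mul_le_mul_of_nonneg_right ?_ (pow_nonneg hY r))
    exact_mod_cast Nat.factorial_le_pow r

end Pool.Agent.UBX
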