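import Mathlib

set_option autoImplicit false

/-!
# Project UBX (MP_c076ed_nt): definitions

Notation: `g : ℚ[X]` of degree `d ≥ 2`, the maps `x ↦ g(x) + c`, `c ∈ ℚ`.
`ℚ[X][X]` : the INNER variable is the parameter `c`, the OUTER variable is the point `x`.
-/

namespace Pool.Agent.UBX

open Polynomial

/-- height of a rational number -/
def ht (q : ℚ) : ℕ := max q.num.natAbs q.den

/-- `n`-th point of the orbit of `x` under `y ↦ g(y) + c` (over any field of characteristic 0) -/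
noncomputable def orb {K : Type*} [CommRing K] [Algebra ℚ K] (g : ℚ[X]) (c x : K) : ℕ → K
  | 0 => x
  | (n + 1) => aeval (orb g c x n) g + c

/-- `x` is preperiodic for `y ↦ g(y) + c` -/
def IsPrep (g : ℚ[X]) (c x : ℚ) : Prop := ∃ i j : ℕ, i < j ∧ orb g c x i = orb g c x j

/-- `x_0, …, x_K` are pairwise distinct -/
def Dist {K : Type*} [CommRing K] [Algebra ℚ K] (g : ℚ[X]) (N : ℕ) (c x : K) : Prop :=
  ∀ a b : ℕ, a < b → b ≤ N → orb g c x a ≠ orb g c x b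

/-- the polynomials `P_n(x, c) ∈ ℚ[c][x]` with `P_0 = x`, `P_{n+1} = g(P_n) + c` -/
noncomputable def Pit (g : ℚ[X]) : ℕ → ℚ[X][X]
  | 0 => X
  | (n + 1) => (g.map (C : ℚ →+* ℚ[X])).comp (Pit g n) + C X

/-- evaluation of `p ∈ ℚ[c][x]` at `(c, x)` -/
noncomputable def ev {K : Type*} [CommRing K] [Algebra ℚ K] (c x : K) : ℚ[X][X] →+* K :=
  eval₂RingHom ((aeval c : ℚ[X] →ₐ[ℚ] K) : ℚ[X] →+* K) x

/-- specialisation of the parameter: `p(·, c) ∈ K[X]` -/
noncomputable def sp {K : Type*} [CommRing K] [Algebra ℚ K] (c : K) : ℚ[X][X] →+* K[X] :=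
  mapRingHom ((aeval c : ℚ[X] →ₐ[ℚ] K) : ℚ[X] →+* K)

/-- the relation polynomial `Σ_{j<r} μ_j P_{i+j}` -/
noncomputable def Rel (g : ℚ[X]) {r : ℕ} (μ : Fin r → ℚ) (i : ℕ) : ℚ[X][X] :=
  ∑ j : Fin r, C (C (μ j)) * Pit g (i + j)

end Pool.Agent.UBX
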