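import Pool.Agent.UBX.Targets

set_option autoImplicit false

/-!
# UBX-ESC: a linear relation between consecutive points of an orbit forbids escape
-/

namespace Pool.Agent.UBX

open Polynomial

namespace ESC_

/-- growth of an escaping orbit -/
theorem grow (g : ℚ[X]) (m : ℕ) (R Λ : ℝ) (hΛ : 1 ≤ Λ)
    (hT : ∀ x : ℂ, R ≤ ‖x‖ → Λ * ‖x‖ ≤ ‖aeval x g + (m : ℂ)‖) (y : ℂ) (hy : R < ‖y‖) (k : ℕ) :
    ‖y‖ ≤ ‖orb g (m : ℂ) y k‖ ∧ Λ * ‖orb g (m : ℂ) y k‖ ≤ ‖orb g (m : ℂ) y (k + 1)‖ := by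
  induction k with
  | zero =>
    refine ⟨le_refl _, ?_⟩
    rw [orb_succ]
    exact hT _ hy.le
  | succ k ih =>
    obtain ⟨h1, h2⟩ := ih
    have h3 : ‖y‖ ≤ ‖orb g (m : ℂ) y (k + 1)‖ := by
      have h0 : 0 ≤ ‖orb g (m : ℂ) y k‖ := norm_nonneg _
      nlinarith
    refine ⟨h3, ?_⟩
    rw [orb_succ g _ _ (k + 1)]
    exact hT _ (hy.le.trans h3)

theorem mono (g : ℚ[X]) (m : ℕ) (R Λ : ℝ) (hΛ : 1 ≤ Λ)
    (hT : ∀ x : ℂ, R ≤ ‖x‖ → Λ * ‖x‖ ≤ ‖aeval x g + (m : ℂ)‖) (y : ℂ) (hy : R < ‖y‖) (k n : ℕ)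
    (hkn : k < n) : Λ * ‖orb g (m : ℂ) y k‖ ≤ ‖orb g (m : ℂ) y n‖ := by
  induction n, hkn using Nat.le_induction with
  | base => exact (grow g m R Λ hΛ hT y hy k).2
  | succ n hn ih =>
    have h1 := (grow g m R Λ hΛ hT y hy n).2
    have h0 : 0 ≤ ‖orb g (m : ℂ) y n‖ := norm_nonneg _
    nlinarith

end ESC_

/-- ESC: a linear relation between `r` consecutive points of an orbit forbids escape. -/
theorem p_ESC : T_ESC := by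
  intro g d _ _ Γ hE r μ hμ
  obtain ⟨_, hE⟩ := hE
  obtain ⟨j0, hj0⟩ : ∃ j, μ j ≠ 0 := Function.ne_iff.mp hμ
  have hne : (Finset.univ.filter fun j : Fin r => μ j ≠ 0).Nonempty :=
    ⟨j0, by simp [hj0]⟩
  obtain ⟨J, hJ1, hJ2⟩ := Finset.exists_max_image _ (fun j : Fin r => j) hne
  rw [Finset.mem_filter] at hJ1
  have hJ : μ J ≠ 0 := hJ1.2
  have hJ0 : ∀ j : Fin r, J < j → μ j = 0 := by
    intro j hj
    by_contra hcon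
    exact absurd (hJ2 j (by simp [hcon])) (not_le.mpr hj)
  have hpos : 0 < ‖(μ J : ℂ)‖ := by
    rw [norm_pos_iff]
    exact_mod_cast hJ
  set s : ℝ := ∑ j : Fin r, ‖(μ j : ℂ)‖ with hs
  have hs0 : 0 ≤ s := Finset.sum_nonneg fun _ _ => norm_nonneg _
  set Λ : ℝ := s / ‖(μ J : ℂ)‖ + 1 with hΛ
  have hΛ1 : 1 ≤ Λ := by
    have : 0 ≤ s / ‖(μ J : ℂ)‖ := div_nonneg hs0 hpos.le
    linarith
  obtain ⟨T, hT⟩ := hE Λ
  refine ⟨T, fun m hm y hrel => ?_⟩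
  by_contra hcon
  rw [not_le] at hcon
  have hT' := hT m hm
  have hmono := ESC_.mono g m _ Λ hΛ1 hT' y hcon
  have hgrow := ESC_.grow g m _ Λ hΛ1 hT' y hcon J
  have hR0 : 0 ≤ Γ * (m : ℝ) ^ ((1 : ℝ) / d) := by
    have : 0 ≤ (m : ℝ) ^ ((1 : ℝ) / d) := Real.rpow_nonneg (Nat.cast_nonneg _) _
    have hΓ : 0 ≤ Γ := by linarith
    positivity
  have hyJ : 0 < ‖orb g (m : ℂ) y J‖ := lt_of_lt_of_le (lt_of_le_of_lt hR0 hcon) hgrow.1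
  rw [← Finset.add_sum_erase _ _ (Finset.mem_univ J)] at hrel
  have h1 : (μ J : ℂ) * orb g (m : ℂ) y J =
      -∑ j ∈ Finset.univ.erase J, (μ j : ℂ) * orb g (m : ℂ) y j := by
    linear_combination hrel
  have h2 : ‖(μ J : ℂ)‖ * ‖orb g (m : ℂ) y J‖ ≤
      ∑ j ∈ Finset.univ.erase J, ‖(μ j : ℂ)‖ * ‖orb g (m : ℂ) y j‖ := by
    rw [← norm_mul, h1, norm_neg]
    refine (norm_sum_le _ _).trans (le_of_eq ?_)
    exact Finset.sum_congr rfl fun j _ => norm_mul _ _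
  have h3 : Λ * ∑ j ∈ Finset.univ.erase J, ‖(μ j : ℂ)‖ * ‖orb g (m : ℂ) y j‖ ≤
      ∑ j ∈ Finset.univ.erase J, ‖(μ j : ℂ)‖ * ‖orb g (m : ℂ) y J‖ := by
    rw [Finset.mul_sum]
    refine Finset.sum_le_sum fun j hj => ?_
    have hjJ : j ≠ J := Finset.ne_of_mem_erase hj
    rcases lt_or_gt_of_ne hjJ with h | h
    · have h4 := hmono j J h
      have h5 : 0 ≤ ‖(μ j : ℂ)‖ := norm_nonneg _
      calc Λ * (‖(μ j : ℂ)‖ * ‖orb g (m : ℂ) y j‖) = ‖(μ j : ℂ)‖ * (Λ * ‖orb g (m : ℂ) y j‖) := by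
            ring
        _ ≤ _ := mul_le_mul_of_nonneg_left h4 h5
    · have h6 : μ j = 0 := hJ0 j h
      simp [h6]
  have h4 : ∑ j ∈ Finset.univ.erase J, ‖(μ j : ℂ)‖ * ‖orb g (m : ℂ) y J‖ ≤
      s * ‖orb g (m : ℂ) y J‖ := by
    rw [← Finset.sum_mul]
    refine mul_le_mul_of_nonneg_right ?_ hyJ.le
    exact Finset.sum_le_sum_of_subset_of_nonneg (Finset.erase_subset _ _)
      fun _ _ _ => norm_nonneg _
  have h5 : Λ * (‖(μ J : ℂ)‖ * ‖orb g (m : ℂ) y J‖) ≤ s * ‖orb g (m : ℂ) y J‖ :=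
    (mul_le_mul_of_nonneg_left h2 (by linarith)).trans (h3.trans h4)
  have h6 : Λ * ‖(μ J : ℂ)‖ = s + ‖(μ J : ℂ)‖ := by
    rw [hΛ, add_mul, div_mul_cancel₀ _ hpos.ne', one_mul]
  have h7 : (s + ‖(μ J : ℂ)‖) * ‖orb g (m : ℂ) y J‖ ≤ s * ‖orb g (m : ℂ) y J‖ := by
    rw [← h6, mul_assoc]
    exact h5
  nlinarith

end Pool.Agent.UBX
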