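import Pool.Agent.UBX.Targets

set_option autoImplicit false

namespace Pool.Agent.UBX

open Polynomial

theorem p_FACT : T_FACT := by
  classical
  suffices h : ∀ n : ℕ, ∀ F : ℚ[X][X], F.natDegree = n →
      (∃ q : ℚ, q ≠ 0 ∧ F.leadingCoeff = C q) →
      ∃ S : Finset ℚ[X][X], S.card ≤ F.natDegree ∧
        (∀ G ∈ S, Irreducible G ∧ G.Monic ∧ G ∣ F) ∧
        ∀ c x : ℚ, ev c x F = 0 → ∃ G ∈ S, ev c x G = 0 from fun F hF => h _ F rfl hF
  intro n
  induction n using Nat.strong_induction_on with
  | _ n ih =>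
    intro F hn hF
    obtain ⟨q, hq, hlc⟩ := hF
    rcases Nat.eq_zero_or_pos n with h0 | hpos
    · refine ⟨∅, by simp, by simp, fun c x hx => ?_⟩
      exfalso
      rw [eq_C_of_natDegree_eq_zero (hn.trans h0)] at hx hlc
      rw [leadingCoeff_C] at hlc
      rw [hlc, ev_C, aeval_C] at hx
      exact hq (by simpa using hx)
    · have hF0 : F ≠ 0 := by
        rintro rfl
        simp at hn
        omega
      have hnu : ¬ IsUnit F := by
        intro hu
        have := natDegree_eq_zero_of_isUnit hu
        omega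
      obtain ⟨G0, hG0, F1, hF1⟩ := WfDvdMonoid.exists_irreducible_factor hnu hF0
      have hlc1 : G0.leadingCoeff * F1.leadingCoeff = C q := by
        rw [← leadingCoeff_mul, ← hF1, hlc]
      have hu0 : IsUnit G0.leadingCoeff := by
        refine isUnit_of_mul_isUnit_left (y := F1.leadingCoeff) ?_
        rw [hlc1]
        exact isUnit_C.2 (isUnit_iff_ne_zero.2 hq)
      have hu1 : IsUnit F1.leadingCoeff := by
        refine isUnit_of_mul_isUnit_right (x := G0.leadingCoeff) ?_
        rw [hlc1]
        exact isUnit_C.2 (isUnit_iff_ne_zero.2 hq)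
      obtain ⟨q0, hq0, hq0'⟩ := Polynomial.isUnit_iff.1 hu0
      obtain ⟨q1, hq1, hq1'⟩ := Polynomial.isUnit_iff.1 hu1
      have hq00 : q0 ≠ 0 := hq0.ne_zero
      have hq10 : q1 ≠ 0 := hq1.ne_zero
      have hG0deg : 1 ≤ G0.natDegree := by
        by_contra hcon
        have h1 : G0.natDegree = 0 := by omega
        apply hG0.not_isUnit
        rw [eq_C_of_natDegree_eq_zero h1]
        have : G0.leadingCoeff = G0.coeff 0 := by rw [leadingCoeff, h1]
        rw [← this]
        exact isUnit_C.2 hu0
      have hF10 : F1 ≠ 0 := by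
        rintro rfl
        rw [mul_zero] at hF1
        exact hF0 hF1
      have hdeg : F.natDegree = G0.natDegree + F1.natDegree := by
        rw [hF1, natDegree_mul hG0.ne_zero hF10]
      obtain ⟨S, hS1, hS2, hS3⟩ := ih F1.natDegree (by omega) F1 rfl ⟨q1, hq10, hq1'.symm⟩
      have huC : IsUnit (C (C q0⁻¹) : ℚ[X][X]) :=
        isUnit_C.2 (isUnit_C.2 (isUnit_iff_ne_zero.2 (inv_ne_zero hq00)))
      set G : ℚ[X][X] := C (C q0⁻¹) * G0 with hG
      have hGirr : Irreducible G := (irreducible_isUnit_mul huC).2 hG0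
      have hGmon : G.Monic := by
        rw [Monic, hG, leadingCoeff_mul, leadingCoeff_C, ← hq0', ← C_mul, inv_mul_cancel₀ hq00,
          C_1]
      have hGF : G ∣ F := by
        rw [hF1]
        refine Dvd.dvd.mul_right ?_ _
        exact (huC.mul_left_dvd).2 dvd_rfl
      refine ⟨insert G S, ?_, ?_, ?_⟩
      · refine (Finset.card_insert_le _ _).trans ?_
        omega
      · intro H hH
        rcases Finset.mem_insert.1 hH with rfl | hH
        · exact ⟨hGirr, hGmon, hGF⟩
        · obtain ⟨a, b, c⟩ := hS2 H hH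
          refine ⟨a, b, c.trans ?_⟩
          rw [hF1]
          exact dvd_mul_left _ _
      · intro c x hx
        rw [hF1, map_mul] at hx
        rcases mul_eq_zero.1 hx with h | h
        · refine ⟨G, Finset.mem_insert_self _ _, ?_⟩
          rw [hG, map_mul, h, mul_zero]
        · obtain ⟨H, hH, hH'⟩ := hS3 c x h
          exact ⟨H, Finset.mem_insert_of_mem hH, hH'⟩

end Pool.Agent.UBX
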