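import Pool.Agent.UBX.Targets

set_option autoImplicit false

/-! # UBX-GEOM: relations on all blocks and distinctness bound the number of points -/

namespace Pool.Agent.UBX

open Polynomial

theorem p_GEOM (hR : T_RELDEG) (hF : T_FACT) (hA : T_CASEA) (hB : T_CASEB) : T_GEOM := by
  classical
  intro d r hd hr
  have hM := fun i => hA d r (d ^ (r - 1)) i hd hr
  choose M hM using hM
  obtain ⟨N, hN⟩ : ∃ N, N = d ^ (r - 1) := ⟨_, rfl⟩
  obtain ⟨L, hL⟩ : ∃ L, L = d ^ (2 * N) + r + 2 := ⟨_, rfl⟩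
  refine ⟨L, N * ∑ i ∈ Finset.range (L + 1), M i, ?_⟩
  intro g hg Z hrel hdist
  choose! μ hμ0 hμ using hrel
  have h0L : 0 + r ≤ L + 1 := by omega
  obtain ⟨hlc, hdeg1, hdeg2⟩ := hR g d r 0 hg hd (μ 0) (hμ0 0 h0L)
  have hdegN : (Rel g (μ 0) 0).natDegree ≤ N := by
    rw [hN]
    simpa using hdeg2
  have hF0 : Rel g (μ 0) 0 ≠ 0 := by
    intro h0
    rw [h0, natDegree_zero] at hdeg1
    omega
  obtain ⟨S, hScard, hS, hSz⟩ := hF (Rel g (μ 0) 0) hlc
  have hevz : ∀ i, i + r ≤ L + 1 → ∀ z ∈ Z, ev z.1 z.2 (Rel g (μ i) i) = 0 := by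
    intro i hi z hz
    rw [ev_Rel_rat]
    exact hμ i hi z hz
  have hcov : Z ⊆ S.biUnion (fun G => Z.filter (fun z => ev z.1 z.2 G = 0)) := by
    intro z hz
    obtain ⟨G, hG, hG0⟩ := hSz z.1 z.2 (hevz 0 h0L z hz)
    rw [Finset.mem_biUnion]
    exact ⟨G, hG, Finset.mem_filter.2 ⟨hz, hG0⟩⟩
  have hone : ∀ G ∈ S, (Z.filter (fun z => ev z.1 z.2 G = 0)).card ≤
      ∑ i ∈ Finset.range (L + 1), M i := by
    intro G hG
    obtain ⟨hirr, hmon, hdvd⟩ := hS G hG
    have hGN : G.natDegree ≤ N := (natDegree_le_of_dvd hdvd hF0).trans hdegN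
    by_cases hall : ∀ i, i + r ≤ L + 1 → G ∣ Rel g (μ i) i
    · obtain ⟨a, b, hab, hbL, hG2⟩ := hB g d r N L hg hd hr (by omega) G hirr hmon hGN
        (fun i hi => ⟨μ i, hμ0 i hi, hall i hi⟩)
      refine le_trans (le_of_eq ?_) (Nat.zero_le _)
      rw [Finset.card_eq_zero, Finset.filter_eq_empty_iff]
      intro z hz hz0
      obtain ⟨q, hq⟩ := hG2
      have h1 : ev z.1 z.2 (Pit g a - Pit g b) = 0 := by
        rw [hq, map_mul, hz0, zero_mul]
      rw [map_sub, ev_Pit, ev_Pit, sub_eq_zero] at h1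
      exact hdist z hz a b hab hbL h1
    · push Not at hall
      obtain ⟨i, hi, hnd⟩ := hall
      have h1 := hM i g hg G hirr hmon (by rw [← hN]; exact hGN) ⟨μ 0, hμ0 0 h0L, hdvd⟩
        (μ i) (hμ0 i hi) hnd (Z.filter (fun z => ev z.1 z.2 G = 0)) (by
          intro z hz
          rw [Finset.mem_filter] at hz
          exact ⟨hz.2, hevz i hi z hz.1⟩)
      refine h1.trans (Finset.single_le_sum (f := M) (fun _ _ => Nat.zero_le _) ?_)
      rw [Finset.mem_range]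
      omega
  calc Z.card ≤ (S.biUnion (fun G => Z.filter (fun z => ev z.1 z.2 G = 0))).card :=
        Finset.card_le_card hcov
    _ ≤ S.card * ∑ i ∈ Finset.range (L + 1), M i := Finset.card_biUnion_le_card_mul _ _ _ hone
    _ ≤ N * ∑ i ∈ Finset.range (L + 1), M i :=
        Nat.mul_le_mul_right _ (hScard.trans hdegN)

end Pool.Agent.UBX
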