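import Pool.Agent.UBX.Targets

set_option autoImplicit false

namespace Pool.Agent.UBX

open Polynomial

namespace GRO_

lemma lower (g : ℚ[X]) {d : ℕ} (hd : g.natDegree = d) (x : ℂ) (hx : 1 ≤ ‖x‖) :
    ‖(g.leadingCoeff : ℂ)‖ * ‖x‖ ^ d -
      (∑ i ∈ Finset.range d, ‖(g.coeff i : ℂ)‖) * ‖x‖ ^ (d - 1) ≤ ‖aeval x g‖ := by
  have h : aeval x g = (g.leadingCoeff : ℂ) * x ^ d +
      (∑ i ∈ Finset.range d, (g.coeff i : ℂ) * x ^ i) := by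
    rw [aeval_eq_sum_range, hd, Finset.sum_range_succ, add_comm]
    simp only [Algebra.smul_def, eq_ratCast, leadingCoeff, hd]
  have h1 : ‖∑ i ∈ Finset.range d, (g.coeff i : ℂ) * x ^ i‖ ≤
      (∑ i ∈ Finset.range d, ‖(g.coeff i : ℂ)‖) * ‖x‖ ^ (d - 1) := by
    refine (norm_sum_le _ _).trans ?_
    rw [Finset.sum_mul]
    refine Finset.sum_le_sum fun i hi => ?_
    rw [norm_mul, norm_pow]
    refine mul_le_mul_of_nonneg_left (pow_le_pow_right₀ hx ?_) (norm_nonneg _)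
    have := Finset.mem_range.1 hi
    omega
  have h2 : ‖(g.leadingCoeff : ℂ) * x ^ d‖ = ‖(g.leadingCoeff : ℂ)‖ * ‖x‖ ^ d := by
    rw [norm_mul, norm_pow]
  have h3 := norm_sub_le_norm_add ((g.leadingCoeff : ℂ) * x ^ d)
    (∑ i ∈ Finset.range d, (g.coeff i : ℂ) * x ^ i)
  rw [← h, h2] at h3
  linarith

end GRO_

open GRO_ in
theorem p_GRO : T_GRO := by
  intro g d hg hd
  have hg0 : g.leadingCoeff ≠ 0 := by
    rw [Ne, leadingCoeff_eq_zero]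
    rintro rfl
    simp at hg
    omega
  set l : ℝ := ‖(g.leadingCoeff : ℂ)‖ with hl
  have hl0 : 0 < l := by
    rw [hl, norm_pos_iff]
    exact_mod_cast hg0
  set S : ℝ := ∑ i ∈ Finset.range d, ‖(g.coeff i : ℂ)‖ with hS
  have hS0 : 0 ≤ S := Finset.sum_nonneg fun i _ => norm_nonneg _
  refine ⟨max 1 (4 / l), le_max_left _ _, fun Λ => ?_⟩
  set Γ : ℝ := max 1 (4 / l) with hΓ
  have hΓ1 : 1 ≤ Γ := le_max_left _ _
  have hΓl : 4 ≤ l * Γ := by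
    have : 4 / l ≤ Γ := le_max_right _ _
    rwa [div_le_iff₀ hl0, mul_comm] at this
  set R : ℝ := max 1 (max (4 * S / l) (2 * Λ / l)) with hR
  have hR1 : 1 ≤ R := le_max_left _ _
  refine ⟨⌈R ^ d⌉₊, fun m hm x hx => ?_⟩
  have hmR : R ^ d ≤ m := Nat.ceil_le.1 hm
  have hm0 : (0 : ℝ) ≤ m := Nat.cast_nonneg m
  have hd0 : d ≠ 0 := by omega
  have hpow : ((m : ℝ) ^ ((1 : ℝ) / d)) ^ d = m := by
    rw [one_div]
    exact Real.rpow_inv_natCast_pow hm0 hd0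
  have hrn : 0 ≤ (m : ℝ) ^ ((1 : ℝ) / d) := Real.rpow_nonneg hm0 _
  have hΓm : Γ ^ d * m ≤ ‖x‖ ^ d := by
    have := pow_le_pow_left₀ (by positivity) hx d
    rwa [mul_pow, hpow] at this
  have hΓd : Γ ≤ Γ ^ d := le_self_pow₀ hΓ1 hd0
  have h1 : (m : ℝ) ≤ ‖x‖ ^ d := by
    have : (1 : ℝ) ≤ Γ ^ d := hΓ1.trans hΓd
    nlinarith
  have h4 : 4 * (m : ℝ) ≤ l * ‖x‖ ^ d := by
    have h5 : l * Γ * m ≤ l * (Γ ^ d * m) := by
      rw [mul_assoc]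
      exact mul_le_mul_of_nonneg_left (mul_le_mul_of_nonneg_right hΓd hm0) hl0.le
    have h6 : l * (Γ ^ d * m) ≤ l * ‖x‖ ^ d := mul_le_mul_of_nonneg_left hΓm hl0.le
    nlinarith
  have hRx : R ≤ ‖x‖ := by
    refine le_of_pow_le_pow_left₀ hd0 (norm_nonneg _) (hmR.trans h1)
  have hx1 : 1 ≤ ‖x‖ := hR1.trans hRx
  have hxS : 4 * S ≤ l * ‖x‖ := by
    have : 4 * S / l ≤ ‖x‖ := ((le_max_left _ _).trans (le_max_right _ _)).trans hRx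
    rwa [div_le_iff₀ hl0, mul_comm (‖x‖)] at this
  have hxΛ : 2 * Λ ≤ l * ‖x‖ := by
    have : 2 * Λ / l ≤ ‖x‖ := ((le_max_right _ _).trans (le_max_right _ _)).trans hRx
    rwa [div_le_iff₀ hl0, mul_comm (‖x‖)] at this
  have hlow := lower g hg x hx1
  rw [← hl, ← hS] at hlow
  have hadd : ‖aeval x g‖ - m ≤ ‖aeval x g + (m : ℂ)‖ := by
    have := norm_sub_le_norm_add (aeval x g) (m : ℂ)
    simpa using this
  obtain ⟨e, rfl⟩ : ∃ e, d = e + 2 := ⟨d - 2, by omega⟩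
  have hpe : (1 : ℝ) ≤ ‖x‖ ^ e := one_le_pow₀ hx1
  have h7 : S * ‖x‖ ^ (e + 2 - 1) ≤ (l / 4) * ‖x‖ ^ (e + 2) := by
    have : e + 2 - 1 = e + 1 := by omega
    rw [this, pow_succ (‖x‖) (e + 1)]
    have : 0 ≤ ‖x‖ ^ (e + 1) := by positivity
    nlinarith
  have h8 : Λ * ‖x‖ ≤ (l / 2) * ‖x‖ ^ (e + 2) := by
    have h9 : Λ * ‖x‖ ≤ (l / 2) * ‖x‖ ^ 2 := by nlinarith
    have h10 : ‖x‖ ^ 2 ≤ ‖x‖ ^ (e + 2) := pow_le_pow_right₀ hx1 (by omega)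
    exact h9.trans (mul_le_mul_of_nonneg_left h10 (by positivity))
  linarith

end Pool.Agent.UBX
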