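import Pool.Agent.UBX.Targets

set_option autoImplicit false

/-!
# HGT: summary of the height estimates
-/

namespace Pool.Agent.UBX

open Polynomial

namespace HGT_

theorem abs_le_ht (q : ℚ) : |((q : ℚ) : ℝ)| ≤ (ht q : ℝ) := by
  have h1 : |((q : ℚ) : ℝ)| = (q.num.natAbs : ℝ) / (q.den : ℝ) := by
    rw [Rat.cast_def, abs_div, Nat.abs_cast, Nat.cast_natAbs, Int.cast_abs]
  have h2 : (1 : ℝ) ≤ q.den := by exact_mod_cast q.den_pos
  rw [h1]
  calc (q.num.natAbs : ℝ) / (q.den : ℝ) ≤ q.num.natAbs := div_le_self (Nat.cast_nonneg _) h2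
    _ ≤ (ht q : ℝ) := by exact_mod_cast le_max_left _ _

theorem den_le_ht (q : ℚ) : (q.den : ℝ) ≤ (ht q : ℝ) := by
  exact_mod_cast le_max_right _ _

end HGT_

open HGT_

/-- summary of the height estimates -/
theorem p_HGT (hD : T_DEN) (hA : T_ARCH) (hC : T_COMD) : T_HGT := by
  intro g d hg hd X hX hX2
  obtain ⟨e, he0, heX, hek⟩ := hC g d hg X hX hX2
  refine ⟨e, he0, heX, hek, fun c hc => ?_⟩
  obtain ⟨k, hk⟩ := hek d
  have hlc : g.coeff d = g.leadingCoeff := by rw [leadingCoeff, hg]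
  rw [hlc] at hk
  have hg0 : g ≠ 0 := by
    rintro rfl
    simp at hg
    omega
  have hlc0 : g.leadingCoeff ≠ 0 := leadingCoeff_ne_zero.2 hg0
  have hk0 : k ≠ 0 := by
    rintro rfl
    rw [Int.cast_zero] at hk
    exact mul_ne_zero (by exact_mod_cast he0) hlc0 hk
  have hX0 : 0 ≤ X := by linarith
  have hkabs : ((k.natAbs : ℕ) : ℝ) ≤ X ^ (d + 2) := by
    have h1 : ((k.natAbs : ℕ) : ℝ) = e * |((g.leadingCoeff : ℚ) : ℝ)| := by
      have h2 : ((e : ℝ)) * ((g.leadingCoeff : ℚ) : ℝ) = (k : ℝ) := by exact_mod_cast hk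
      rw [Nat.cast_natAbs, Int.cast_abs, ← h2, abs_mul, Nat.abs_cast]
    have h3 : |((g.leadingCoeff : ℚ) : ℝ)| ≤ X := by
      rw [← hlc]
      exact (abs_le_ht _).trans (hX2 d)
    calc ((k.natAbs : ℕ) : ℝ) = e * |((g.leadingCoeff : ℚ) : ℝ)| := h1
      _ ≤ X ^ (d + 1) * X := by gcongr
      _ = X ^ (d + 2) := by ring
  have hb : ((k.natAbs * c.den : ℕ) : ℝ) ≤ X ^ (d + 3) := by
    have h1 : (c.den : ℝ) ≤ X := (den_le_ht c).trans hc
    calc ((k.natAbs * c.den : ℕ) : ℝ) = (k.natAbs : ℝ) * c.den := by push_cast; ring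
      _ ≤ X ^ (d + 2) * X := by gcongr
      _ = X ^ (d + 3) := by ring
  refine ⟨k.natAbs * c.den, ?_, hb, Dvd.intro_left _ rfl, ?_⟩
  · exact mul_ne_zero (Int.natAbs_ne_zero.2 hk0) c.den_ne_zero
  · intro x hx i
    obtain ⟨n, hn⟩ := hD g d e hg hd he0 hek c x hx i
    rw [hk] at hn
    have hex : ∃ n' : ℤ, ((k.natAbs * c.den : ℕ) : ℚ) * orb g c x i = n' := by
      rcases Int.natAbs_eq k with h | h
      · refine ⟨n, ?_⟩
        rw [← hn]
        have h' : ((k.natAbs : ℕ) : ℚ) = (k : ℚ) := by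
          have h4 : ((k : ℤ) : ℚ) = (((k.natAbs : ℕ) : ℤ) : ℚ) := congrArg (Int.cast : ℤ → ℚ) h
          rw [Int.cast_natCast] at h4
          exact h4.symm
        rw [Nat.cast_mul, h']
      · refine ⟨-n, ?_⟩
        rw [Int.cast_neg, ← hn]
        have h' : ((k.natAbs : ℕ) : ℚ) = -(k : ℚ) := by
          have h4 : ((k : ℤ) : ℚ) = ((-((k.natAbs : ℕ) : ℤ) : ℤ) : ℚ) :=
            congrArg (Int.cast : ℤ → ℚ) h
          rw [Int.cast_neg, Int.cast_natCast] at h4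
          linarith
        rw [Nat.cast_mul, h']
        ring
    obtain ⟨n', hn'⟩ := hex
    refine ⟨n', hn', ?_⟩
    have h2 : ((k.natAbs * c.den : ℕ) : ℝ) * ((orb g c x i : ℚ) : ℝ) = (n' : ℝ) := by
      exact_mod_cast hn'
    have h3 := hA g d hg hd X hX hX2 c x hc hx i
    rw [← h2, abs_mul, Nat.abs_cast]
    calc ((k.natAbs * c.den : ℕ) : ℝ) * |((orb g c x i : ℚ) : ℝ)|
        ≤ X ^ (d + 3) * ((d + 3) * X ^ 2) := by gcongr
      _ = (d + 3) * X ^ (d + 5) := by ring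

end Pool.Agent.UBX
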