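import Pool.Agent.UBX.Targets

set_option autoImplicit false

namespace Pool.Agent.UBX

open Polynomial

namespace ITP_

private theorem lift (p : ℕ) [Fact p.Prime] (e : ℕ) (he : ¬ p ∣ e) (q : ℚ)
    (h : ∃ k : ℤ, (e : ℚ) * q = k) : ∃ a : ℤ_[p], (a : ℚ_[p]) = (q : ℚ_[p]) := by
  obtain ⟨k, hk⟩ := h
  have h1 : ‖((e : ℤ) : ℚ_[p])‖ = 1 := by
    have h2 := Padic.norm_int_le_one (p := p) (e : ℤ)
    rcases lt_or_eq_of_le h2 with h3 | h3
    · rw [Padic.norm_intCast_lt_one_iff] at h3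
      exact absurd (by exact_mod_cast h3) he
    · exact h3
  have h4 : ((e : ℤ) : ℚ_[p]) * (q : ℚ_[p]) = ((k : ℤ) : ℚ_[p]) := by
    have := congrArg (fun x : ℚ => (x : ℚ_[p])) hk
    push_cast at this ⊢
    exact this
  have h5 : ‖(q : ℚ_[p])‖ ≤ 1 := by
    have h6 := Padic.norm_int_le_one (p := p) k
    rw [← h4, norm_mul, h1, one_mul] at h6
    exact h6
  exact ⟨⟨(q : ℚ_[p]), h5⟩, rfl⟩

end ITP_

theorem p_ITP : T_ITP := by
  intro p _ g e he hg
  choose a ha using fun i => ITP_.lift p e he (g.coeff i) (hg i)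
  refine ⟨fun n => Nat.rec (MvPolynomial.X 0) (fun _ φ =>
    ∑ i ∈ Finset.range (g.natDegree + 1), MvPolynomial.C (a i) * φ ^ i + MvPolynomial.X 1) n, ?_⟩
  intro c x u hu0 hu1 n
  induction n with
  | zero => simpa using hu0
  | succ n ih =>
    have hr : orb g c x (n + 1) = ∑ i ∈ Finset.range (g.natDegree + 1),
        g.coeff i * (orb g c x n) ^ i + c := by
      rw [orb_rat, eval_eq_sum_range]
    rw [hr]
    simp only [map_add, map_sum, map_mul, map_pow, MvPolynomial.eval_C, MvPolynomial.eval_X,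
      PadicInt.coe_add, PadicInt.coe_mul, PadicInt.coe_sum, PadicInt.coe_pow]
    push_cast
    rw [hu1]
    congr 1
    refine Finset.sum_congr rfl fun i _ => ?_
    rw [ha i, ih]

end Pool.Agent.UBX
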