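import Pool.Agent.UBX.Targets

set_option autoImplicit false

/-!
# Project UBX: many points, one of them has a long orbit
-/

namespace Pool.Agent.UBX

open Polynomial

namespace LONG_

/-- the iterates as polynomials in the point, for a fixed parameter -/
noncomputable def F (g : ℚ[X]) (c : ℚ) : ℕ → ℚ[X]
  | 0 => X
  | (n + 1) => g.comp (F g c n) + C c

theorem eval_F (g : ℚ[X]) (c x : ℚ) (n : ℕ) : (F g c n).eval x = orb g c x n := by
  induction n with
  | zero => simp [F]
  | succ n ih => rw [F, eval_add, eval_comp, eval_C, ih, orb_rat]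

theorem natDegree_F {g : ℚ[X]} {d : ℕ} (hg : g.natDegree = d) (hd : 2 ≤ d) (c : ℚ) (n : ℕ) :
    (F g c n).natDegree = d ^ n := by
  induction n with
  | zero => simp [F]
  | succ n ih =>
    rw [F, natDegree_add_C, natDegree_comp, ih, hg, pow_succ, mul_comm]

theorem card_roots_le {g : ℚ[X]} {d : ℕ} (hg : g.natDegree = d) (hd : 2 ≤ d) (c : ℚ) {a b L : ℕ}
    (hab : a < b) (hb : b ≤ L) :
    (F g c b - F g c a) ≠ 0 ∧ (F g c b - F g c a).roots.toFinset.card ≤ d ^ L := by
  have h1 : (F g c a).natDegree < (F g c b).natDegree := by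
    rw [natDegree_F hg hd, natDegree_F hg hd]
    exact Nat.pow_lt_pow_right (by omega) hab
  have h2 : (F g c b - F g c a).natDegree = d ^ b := by
    rw [natDegree_sub_eq_left_of_natDegree_lt h1, natDegree_F hg hd]
  have hpos : 0 < d ^ b := Nat.pow_pos (by omega)
  refine ⟨?_, ?_⟩
  · intro h
    rw [h, natDegree_zero] at h2
    omega
  · refine (Multiset.toFinset_card_le _).trans ((card_roots' _).trans ?_)
    rw [h2]
    exact Nat.pow_le_pow_right (by omega) hb

end LONG_

open LONG_ in
/-- many points: one of them has a long orbit -/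
theorem p_LONG : T_LONG := by
  intro g d L hg hd c T hT
  by_contra hcon
  push Not at hcon
  have hsub : T ⊆ (Finset.range (L + 1) ×ˢ Finset.range (L + 1)).biUnion
      (fun p => if p.1 < p.2 then (F g c p.2 - F g c p.1).roots.toFinset else ∅) := by
    intro x hx
    have h1 := hcon x hx
    unfold Dist at h1
    push Not at h1
    obtain ⟨a, b, hab, hb, he⟩ := h1
    rw [Finset.mem_biUnion]
    refine ⟨(a, b), ?_, ?_⟩
    · rw [Finset.mem_product, Finset.mem_range, Finset.mem_range]
      exact ⟨by omega, by omega⟩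
    · rw [if_pos hab, Multiset.mem_toFinset, mem_roots (card_roots_le hg hd c hab hb).1, IsRoot.def,
        eval_sub, eval_F, eval_F, he, sub_self]
  have h2 := (Finset.card_le_card hsub).trans Finset.card_biUnion_le
  have h3 : ∑ p ∈ Finset.range (L + 1) ×ˢ Finset.range (L + 1),
      (if p.1 < p.2 then (F g c p.2 - F g c p.1).roots.toFinset else ∅).card ≤
      ∑ _p ∈ Finset.range (L + 1) ×ˢ Finset.range (L + 1), d ^ L := by
    refine Finset.sum_le_sum fun p hp => ?_
    rw [Finset.mem_product, Finset.mem_range, Finset.mem_range] at hp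
    split_ifs with h
    · exact (card_roots_le hg hd c h (by omega)).2
    · simp
  rw [Finset.sum_const, Finset.card_product, Finset.card_range, smul_eq_mul] at h3
  have h4 : (L + 1) * (L + 1) * d ^ L = (L + 1) ^ 2 * d ^ L := by ring
  omega

end Pool.Agent.UBX
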