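import Pool.Agent.UBX.Targets

set_option autoImplicit false

/-!
# Project UBX: the main theorem from GEOM, COUNT, LONG
-/

namespace Pool.Agent.UBX

open Polynomial

theorem p_MAIN (hG : T_GEOM) (hCo : T_COUNT) (hL : T_LONG) : T_MAIN := by
  intro d hd ε hε
  obtain ⟨h, hh1, hh2⟩ : ∃ h : ℕ, 1 ≤ h ∧ (4 * ((d : ℝ) + 5)) / h ≤ ε := by
    obtain ⟨n, hn⟩ := exists_nat_ge ((4 * ((d : ℝ) + 5)) / ε)
    refine ⟨n + 1, by omega, ?_⟩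
    rw [div_le_iff₀ hε] at hn
    rw [div_le_iff₀ (by positivity)]
    push_cast
    nlinarith
  have hhpos : (0 : ℝ) < h := by exact_mod_cast hh1
  obtain ⟨r, hr⟩ : ∃ r : ℕ, r = h * (h + 1) := ⟨_, rfl⟩
  have hr1 : 1 ≤ r := by
    rw [hr]
    exact Nat.mul_pos hh1 (by omega)
  have hr1' : (1 : ℝ) ≤ r := by exact_mod_cast hr1
  obtain ⟨L, M, hLM⟩ := hG d r hd hr1
  refine ⟨(L + 1) ^ 2 * d ^ L,
    h * 4 ^ h * 4 * ((r : ℝ) * ((d : ℝ) + 3)) ^ ((4 : ℝ) / h) * M, ?_⟩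
  intro X hX g hg hco E hE
  obtain ⟨K, hK⟩ : ∃ K : ℝ, K = (r : ℝ) * (((d : ℝ) + 3) * X ^ (d + 5)) := ⟨_, rfl⟩
  have hXp : 1 ≤ X ^ (d + 5) := one_le_pow₀ hX
  have hd0 : (0 : ℝ) ≤ d := Nat.cast_nonneg d
  have hK1 : 1 ≤ K := by
    rw [hK]
    have h1 : (1 : ℝ) ≤ ((d : ℝ) + 3) * X ^ (d + 5) := by nlinarith
    nlinarith
  have hK0 : 0 ≤ K := by linarith
  have hKr : 1 ≤ K ^ ((2 : ℝ) / h) := Real.one_le_rpow hK1 (by positivity)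
  obtain ⟨P, hP⟩ : ∃ P : ℕ, P = ⌈K ^ ((2 : ℝ) / h)⌉₊ := ⟨_, rfl⟩
  have hP1 : K ^ ((2 : ℝ) / h) ≤ P := by rw [hP]; exact Nat.le_ceil _
  have hP2 : (P : ℝ) ≤ 2 * K ^ ((2 : ℝ) / h) := by
    have h1 : (P : ℝ) < K ^ ((2 : ℝ) / h) + 1 := by
      rw [hP]
      exact Nat.ceil_lt_add_one (by linarith)
    linarith
  have hPh : ((r : ℝ) * (((d : ℝ) + 3) * X ^ (d + 5))) ^ 2 ≤ (P : ℝ) ^ h := by
    rw [← hK]
    have h1 : K ^ 2 = (K ^ ((2 : ℝ) / h)) ^ h := by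
      rw [← Real.rpow_natCast (K ^ ((2 : ℝ) / h)) h, ← Real.rpow_mul hK0,
        div_mul_cancel₀ _ hhpos.ne']
      norm_num
    rw [h1]
    exact pow_le_pow_left₀ (by linarith) hP1 h
  have hcount := hCo d h r L M hd hh1 hr hLM g hg X hX hco P hPh E (by
    intro c hc
    obtain ⟨hc1, T, hT1, hT2⟩ := hE c hc
    obtain ⟨x, hx, hx2⟩ := hL g d L hg hd c T hT1
    exact ⟨hc1, x, hT2 x hx, hx2⟩)
  have hcount' : (E.card : ℝ) ≤ h * ((2 ^ h * P) ^ 2 * M) := by exact_mod_cast hcount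
  have hP3 : (P : ℝ) ^ 2 ≤ 4 * K ^ ((4 : ℝ) / h) := by
    have h1 : (P : ℝ) ^ 2 ≤ (2 * K ^ ((2 : ℝ) / h)) ^ 2 :=
      pow_le_pow_left₀ (Nat.cast_nonneg P) hP2 2
    have h2 : (2 * K ^ ((2 : ℝ) / h)) ^ 2 = 4 * K ^ ((4 : ℝ) / h) := by
      rw [mul_pow, ← Real.rpow_natCast (K ^ ((2 : ℝ) / h)) 2, ← Real.rpow_mul hK0]
      have h3 : (2 : ℝ) / h * ((2 : ℕ) : ℝ) = 4 / h := by push_cast; ring
      rw [h3]
      norm_num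
    linarith
  have hK4 : K ^ ((4 : ℝ) / h) ≤ ((r : ℝ) * ((d : ℝ) + 3)) ^ ((4 : ℝ) / h) * X ^ ε := by
    have h1 : K = ((r : ℝ) * ((d : ℝ) + 3)) * X ^ (d + 5) := by rw [hK]; ring
    have h2 : (0 : ℝ) ≤ (r : ℝ) * ((d : ℝ) + 3) := by positivity
    rw [h1, Real.mul_rpow h2 (by linarith)]
    apply mul_le_mul_of_nonneg_left _ (Real.rpow_nonneg h2 _)
    rw [← Real.rpow_natCast X (d + 5), ← Real.rpow_mul (by linarith)]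
    apply Real.rpow_le_rpow_of_exponent_le hX
    have h3 : (((d + 5 : ℕ) : ℝ)) * (4 / h) = (4 * ((d : ℝ) + 5)) / h := by push_cast; ring
    rw [h3]
    exact hh2
  calc (E.card : ℝ) ≤ h * ((2 ^ h * P) ^ 2 * M) := hcount'
    _ = h * 4 ^ h * (P : ℝ) ^ 2 * M := by
        have h4 : (4 : ℝ) ^ h = (2 ^ h) ^ 2 := by
          rw [← pow_mul, mul_comm h 2, pow_mul]; norm_num
        rw [h4]; ring
    _ ≤ h * 4 ^ h * (4 * (((r : ℝ) * ((d : ℝ) + 3)) ^ ((4 : ℝ) / h) * X ^ ε)) * M := by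
        have h5 : (P : ℝ) ^ 2 ≤ 4 * (((r : ℝ) * ((d : ℝ) + 3)) ^ ((4 : ℝ) / h) * X ^ ε) := by
          linarith
        apply mul_le_mul_of_nonneg_right _ (Nat.cast_nonneg M)
        exact mul_le_mul_of_nonneg_left h5 (by positivity)
    _ = h * 4 ^ h * 4 * ((r : ℝ) * ((d : ℝ) + 3)) ^ ((4 : ℝ) / h) * M * X ^ ε := by ring

end Pool.Agent.UBX
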