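import Pool.Agent.UBX.Targets

set_option autoImplicit false

/-! # All minors vanish on a residue class (T_MINOR) -/

namespace Pool.Agent.UBX

open Polynomial

theorem p_MINOR (hD : T_DET) (hI : T_ITP) (hR : T_RED) (hS : T_DSIZE) : T_MINOR := by
  intro p h r hp hr hh g e he hg Y hY hYp i z b hb hbc hn hres
  have hb0 : ∀ l, b l ≠ 0 := fun l h0 => hb l (by rw [h0]; exact dvd_zero p)
  have hbx : ∀ l, ∃ n : ℤ, (b l : ℚ) * (z l).2 = n := by
    intro l
    obtain ⟨n, hn1, -⟩ := hn l 0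
    exact ⟨n, hn1⟩
  have hbc' : ∀ l, ∃ n : ℤ, (b l : ℚ) * (z l).1 = n := by
    intro l
    obtain ⟨m, hm⟩ := hbc l
    refine ⟨m * (z l).1.num, ?_⟩
    rw [hm]
    push_cast
    have h1 : ((z l).1.den : ℚ) * (z l).1 = (z l).1.num := by
      rw [mul_comm]
      exact Rat.mul_den_eq_num _
    calc ((z l).1.den : ℚ) * m * (z l).1 = m * (((z l).1.den : ℚ) * (z l).1) := by ring
      _ = _ := by rw [h1]
  -- the points over the p-adic integers
  have hx : ∀ l, ∃ u : ℤ_[p], (u : ℚ_[p]) = ((z l).2 : ℚ_[p]) := fun l => by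
    obtain ⟨u, v, h1, -, -⟩ := hR p (z l).2 (z l).2 (b l) (b l) (hb l) (hb l) (hbx l) (hbx l) rfl
    exact ⟨u, h1⟩
  have hc : ∀ l, ∃ u : ℤ_[p], (u : ℚ_[p]) = ((z l).1 : ℚ_[p]) := fun l => by
    obtain ⟨u, v, h1, -, -⟩ := hR p (z l).1 (z l).1 (b l) (b l) (hb l) (hb l) (hbc' l) (hbc' l) rfl
    exact ⟨u, h1⟩
  choose ux hux using hx
  choose uc huc using hc
  have hinj : Function.Injective (fun u : ℤ_[p] => (u : ℚ_[p])) := Subtype.val_injective
  have hdx : ∀ l l', (p : ℤ_[p]) ∣ ux l - ux l' := by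
    intro l l'
    obtain ⟨u, v, h1, h2, h3⟩ := hR p (z l).2 (z l').2 (b l) (b l') (hb l) (hb l') (hbx l)
      (hbx l') (hres l l').2
    have e1 : u = ux l := hinj (h1.trans (hux l).symm)
    have e2 : v = ux l' := hinj (h2.trans (hux l').symm)
    rwa [e1, e2] at h3
  have hdc : ∀ l l', (p : ℤ_[p]) ∣ uc l - uc l' := by
    intro l l'
    obtain ⟨u, v, h1, h2, h3⟩ := hR p (z l).1 (z l').1 (b l) (b l') (hb l) (hb l') (hbc' l)
      (hbc' l') (hres l l').1
    have e1 : u = uc l := hinj (h1.trans (huc l).symm)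
    have e2 : v = uc l' := hinj (h2.trans (huc l').symm)
    rwa [e1, e2] at h3
  obtain ⟨φ, hφ⟩ := hI p g e he hg
  set pt : Fin r → Fin 2 → ℤ_[p] := fun l => ![ux l, uc l] with hpt
  have hdet := hD p h r hr (fun j => φ (i + j)) pt (by
    intro l l' k
    fin_cases k
    · exact hdx l l'
    · exact hdc l l')
  -- the integral matrix
  choose n hn1 hn2 using fun (l : Fin r) (j : ℕ) => hn l j
  set N : Matrix (Fin r) (Fin r) ℤ := Matrix.of fun l j => n l (i + j) with hN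
  have hNp : ((N.det : ℤ) : ℤ_[p]) = (∏ l, (b l : ℤ_[p])) *
      Matrix.det (Matrix.of fun l j : Fin r => MvPolynomial.eval (pt l) (φ (i + j))) := by
    rw [← Matrix.det_mul_column, Int.cast_det]
    congr 1
    ext l j
    refine hinj ?_
    have h1 : ((MvPolynomial.eval (pt l) (φ (i + j)) : ℤ_[p]) : ℚ_[p])
        = ((orb g (z l).1 (z l).2 (i + j) : ℚ) : ℚ_[p]) :=
      hφ (z l).1 (z l).2 (pt l) (hux l) (huc l) (i + j)
    have h2 := congrArg (fun q : ℚ => (q : ℚ_[p])) (hn1 l (i + j))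
    simp only [Rat.cast_mul, Rat.cast_natCast, Rat.cast_intCast] at h2
    change (((n l (i + j) : ℤ) : ℤ_[p]) : ℚ_[p]) =
      (((b l : ℤ_[p]) * MvPolynomial.eval (pt l) (φ (i + j)) : ℤ_[p]) : ℚ_[p])
    rw [PadicInt.coe_mul, h1, PadicInt.coe_intCast, PadicInt.coe_natCast]
    exact h2.symm
  have hdvd : ((p : ℤ) ^ (h * (r / 2))) ∣ N.det := by
    rw [← PadicInt.pow_p_dvd_int_iff, hNp]
    exact Dvd.dvd.mul_left hdet _
  have hrr : r = 2 * (r / 2) := by
    have h1 : 2 ∣ r := by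
      rw [hr]
      exact (Nat.even_mul_succ_self h).two_dvd
    omega
  have hr2 : r / 2 ≠ 0 := by
    intro h0
    rw [h0] at hrr
    have : 0 < h * (h + 1) := by positivity
    omega
  have hsz : |((N.det : ℤ) : ℝ)| < (p : ℝ) ^ (h * (r / 2)) := by
    refine (hS r Y N fun l j => hn2 l (i + j)).trans_lt ?_
    rw [pow_mul]
    calc ((r : ℝ) * Y) ^ r = (((r : ℝ) * Y) ^ 2) ^ (r / 2) := by rw [← pow_mul, ← hrr]
      _ < ((p : ℝ) ^ h) ^ (r / 2) := pow_lt_pow_left₀ hYp (by positivity) hr2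
  have hN0 : N.det = 0 := by
    refine Int.eq_zero_of_abs_lt_dvd hdvd ?_
    have h1 : ((|N.det| : ℤ) : ℝ) < (((p : ℤ) ^ (h * (r / 2)) : ℤ) : ℝ) := by
      rw [Int.cast_abs, Int.cast_pow, Int.cast_natCast]
      exact hsz
    exact Int.cast_lt.1 h1
  have hNQ : ((N.det : ℤ) : ℚ) = (∏ l, (b l : ℚ)) *
      Matrix.det (Matrix.of fun l j : Fin r => orb g (z l).1 (z l).2 (i + j)) := by
    rw [← Matrix.det_mul_column, Int.cast_det]
    congr 1
    ext l j
    exact (hn1 l (i + j)).symm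
  rw [hN0, Int.cast_zero] at hNQ
  refine (mul_eq_zero.1 hNQ.symm).resolve_left (Finset.prod_ne_zero_iff.2 ?_)
  intro l _
  exact_mod_cast hb0 l

end Pool.Agent.UBX
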