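import Pool.Agent.UBX.Targets

set_option autoImplicit false

/-!
# Project UBX: pigeonhole over all roots
-/

namespace Pool.Agent.UBX

open Polynomial

namespace PIG_

/-- a relation divisible by `G` holds at the zeros of `G` -/
lemma rel_of_dvd {g : ℚ[X]} {r : ℕ} {μ : Fin r → ℚ} {i : ℕ} {G : ℚ[X][X]} (h : G ∣ Rel g μ i)
    {c x : ℂ} (h0 : ev c x G = 0) :
    ∑ j : Fin r, (μ j : ℂ) * orb g c (orb g c x i) j = 0 := by
  obtain ⟨H, hH⟩ := h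
  have h1 : ev c x (Rel g μ i) = 0 := by rw [hH, map_mul, h0, zero_mul]
  rw [ev_Rel] at h1
  rw [← h1]
  refine Finset.sum_congr rfl fun j _ => ?_
  rw [orb_add]
  rfl

/-- one parameter: two indices with the same symbols at all roots -/
lemma one_param {g : ℚ[X]} {d N n : ℕ} (hd : 2 ≤ d) (hn : d ^ (2 * N) < n) {G : ℚ[X][X]}
    (hGm : G.Monic) (hGN : G.natDegree ≤ N) {m : ℕ} {τ : ℂ} {C1 : ℝ}
    (hsym : ∀ ξ : ℂ, ev (m : ℂ) ξ G = 0 → ∀ i, i ≤ n → ∃ k : Fin d,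
      ‖orb g (m : ℂ) ξ i - Complex.exp (2 * Real.pi * Complex.I / d) ^ (k : ℕ) * τ‖ ≤ C1) :
    ∃ a b : ℕ, a < b ∧ b < n ∧ ∀ ξ : ℂ, ev (m : ℂ) ξ G = 0 → ∃ k k' : Fin d,
      (‖orb g (m : ℂ) ξ a - Complex.exp (2 * Real.pi * Complex.I / d) ^ (k : ℕ) * τ‖ ≤ C1 ∧
      ‖orb g (m : ℂ) ξ b - Complex.exp (2 * Real.pi * Complex.I / d) ^ (k : ℕ) * τ‖ ≤ C1) ∧
      (‖orb g (m : ℂ) ξ (a + 1) - Complex.exp (2 * Real.pi * Complex.I / d) ^ (k' : ℕ) * τ‖ ≤ C1 ∧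
      ‖orb g (m : ℂ) ξ (b + 1) - Complex.exp (2 * Real.pi * Complex.I / d) ^ (k' : ℕ) * τ‖ ≤ C1) := by
  classical
  have hspm : (sp (m : ℂ) G).Monic := hGm.map _
  have hsp0 : sp (m : ℂ) G ≠ 0 := hspm.ne_zero
  set R : Finset ℂ := (sp (m : ℂ) G).roots.toFinset with hR
  have hRmem : ∀ ξ, ξ ∈ R ↔ ev (m : ℂ) ξ G = 0 := by
    intro ξ
    rw [hR, Multiset.mem_toFinset, mem_roots hsp0, IsRoot, ev_apply]
  have hRcard : R.card ≤ N := by
    refine (Multiset.toFinset_card_le _).trans ((card_roots' _).trans ?_)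
    refine le_trans ?_ hGN
    exact natDegree_map_le
  have : Nonempty (Fin d) := ⟨⟨0, by omega⟩⟩
  choose! k hk using hsym
  -- the function of the indices
  let F : Fin n → ({ξ // ξ ∈ R} → Fin d × Fin d) := fun i ξ => (k ξ.1 i, k ξ.1 (i + 1))
  have hcard : Fintype.card ({ξ // ξ ∈ R} → Fin d × Fin d) < Fintype.card (Fin n) := by
    rw [Fintype.card_fun, Fintype.card_prod, Fintype.card_fin, Fintype.card_coe, Fintype.card_fin]
    calc (d * d) ^ R.card ≤ (d * d) ^ N := Nat.pow_le_pow_right (by positivity) hRcard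
      _ = d ^ (2 * N) := by rw [← sq, ← pow_mul]
      _ < n := hn
  obtain ⟨i, j, hij, hF⟩ := Fintype.exists_ne_map_eq_of_card_lt F hcard
  have key : ∀ (a b : Fin n), F a = F b → ∀ ξ : ℂ, ev (m : ℂ) ξ G = 0 → ∃ k k' : Fin d,
      (‖orb g (m : ℂ) ξ a - Complex.exp (2 * Real.pi * Complex.I / d) ^ (k : ℕ) * τ‖ ≤ C1 ∧
      ‖orb g (m : ℂ) ξ b - Complex.exp (2 * Real.pi * Complex.I / d) ^ (k : ℕ) * τ‖ ≤ C1) ∧
      (‖orb g (m : ℂ) ξ (a + 1) - Complex.exp (2 * Real.pi * Complex.I / d) ^ (k' : ℕ) * τ‖ ≤ C1 ∧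
      ‖orb g (m : ℂ) ξ (b + 1) - Complex.exp (2 * Real.pi * Complex.I / d) ^ (k' : ℕ) * τ‖ ≤ C1) := by
    intro a b hab ξ hξ
    have h1 := congrFun hab ⟨ξ, (hRmem ξ).2 hξ⟩
    have h2 := (Prod.ext_iff.mp h1).1
    have h3 := (Prod.ext_iff.mp h1).2
    simp only [F] at h2 h3
    refine ⟨k ξ a, k ξ (a + 1), ⟨hk ξ hξ a a.2.le, ?_⟩, ⟨hk ξ hξ (a + 1) a.2, ?_⟩⟩
    · rw [h2]; exact hk ξ hξ b b.2.le
    · rw [h3]; exact hk ξ hξ (b + 1) b.2
  rcases lt_or_gt_of_ne hij with h | h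
  · exact ⟨i, j, h, j.2, key i j hF⟩
  · exact ⟨j, i, h, i.2, key j i hF.symm⟩

end PIG_

open PIG_ in
theorem p_PIG (hG : T_GRO) (hE : T_ESC) (hS : T_SYM) (hC : T_CON) : T_PIG := by
  intro g d r N L hg hd hr hL G hGm hGN hdiv
  obtain ⟨Γ, hΓ⟩ := hG g d hg hd
  choose! μ hμ using hdiv
  have hesc := fun i (hi : i + r ≤ L + 1) => hE g d hg hd Γ hΓ r (μ i) (hμ i hi).1
  choose! T1 hT1 using hesc
  obtain ⟨C1, T2, hT2⟩ := hS g d hg hd Γ
  obtain ⟨C', T3, hT3⟩ := hC g d hg hd C1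
  have hg0 : (g.leadingCoeff : ℂ) ≠ 0 := by
    have : g ≠ 0 := by
      rintro rfl
      simp at hg
      omega
    exact_mod_cast leadingCoeff_ne_zero.mpr this
  set T0 : ℕ := (Finset.range (L + 2)).sup T1 + T2 + T3 with hT0
  have hpair : ∀ m : ℕ, T0 ≤ m → ∃ a b : ℕ, a < b ∧ b ≤ L ∧ ∀ ξ : ℂ, ev (m : ℂ) ξ G = 0 →
      ‖orb g (m : ℂ) ξ a - orb g (m : ℂ) ξ b‖ * Real.sqrt m ≤ C' := by
    intro m hm
    obtain ⟨τ, hτ⟩ := IsAlgClosed.exists_pow_nat_eq (-(m : ℂ) / (g.leadingCoeff : ℂ))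
      (show 0 < d by omega)
    have hτ' : (g.leadingCoeff : ℂ) * τ ^ d = -(m : ℂ) := by
      rw [hτ]; field_simp
    have hsmall : ∀ ξ : ℂ, ev (m : ℂ) ξ G = 0 → ∀ i, i + r ≤ L + 1 →
        ‖orb g (m : ℂ) ξ i‖ ≤ Γ * (m : ℝ) ^ ((1 : ℝ) / d) := by
      intro ξ hξ i hi
      refine hT1 i hi m ?_ _ (rel_of_dvd (hμ i hi).2 hξ)
      have : T1 i ≤ (Finset.range (L + 2)).sup T1 :=
        Finset.le_sup (f := T1) (Finset.mem_range.mpr (by omega))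
      omega
    have hsym : ∀ ξ : ℂ, ev (m : ℂ) ξ G = 0 → ∀ i, i ≤ L - r → ∃ k : Fin d,
        ‖orb g (m : ℂ) ξ i - Complex.exp (2 * Real.pi * Complex.I / d) ^ (k : ℕ) * τ‖ ≤ C1 := by
      intro ξ hξ i hi
      refine hT2 m (by omega) τ hτ' _ (hsmall ξ hξ i (by omega)) ?_
      have := hsmall ξ hξ (i + 1) (by omega)
      rwa [orb_succ] at this
    obtain ⟨a, b, hab, hb, hk⟩ := one_param hd (show d ^ (2 * N) < L - r by omega) hGm hGN hsym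
    refine ⟨a, b, hab, by omega, fun ξ hξ => ?_⟩
    obtain ⟨k, k', ⟨h1, h2⟩, h3, h4⟩ := hk ξ hξ
    have hζ : (Complex.exp (2 * Real.pi * Complex.I / d) ^ (k : ℕ)) ^ d = 1 := by
      rw [← pow_mul, Nat.mul_comm (k : ℕ) d, pow_mul, ← Complex.exp_nat_mul]
      have : (d : ℂ) * (2 * Real.pi * Complex.I / d) = 2 * Real.pi * Complex.I := by
        have : (d : ℂ) ≠ 0 := by
          have : d ≠ 0 := by omega
          exact_mod_cast this
        field_simp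
      rw [this, Complex.exp_two_pi_mul_I, one_pow]
    refine hT3 m (by omega) τ hτ' _ _ _ hζ h1 h2 ?_
    have h5 : aeval (orb g (m : ℂ) ξ a) g - aeval (orb g (m : ℂ) ξ b) g =
        (orb g (m : ℂ) ξ (a + 1) -
          Complex.exp (2 * Real.pi * Complex.I / d) ^ (k' : ℕ) * τ) -
        (orb g (m : ℂ) ξ (b + 1) -
          Complex.exp (2 * Real.pi * Complex.I / d) ^ (k' : ℕ) * τ) := by
      rw [orb_succ, orb_succ]; ring
    rw [h5]
    exact (norm_sub_le _ _).trans (by linarith)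
  by_contra hcon
  push Not at hcon
  choose! T4 hT4 using fun a b hab hb => hcon a b hab hb C'
  obtain ⟨a, b, hab, hb, h⟩ := hpair
    (T0 + (Finset.range (L + 1) ×ˢ Finset.range (L + 1)).sup fun p => T4 p.1 p.2) (by omega)
  obtain ⟨ξ, hξ, h'⟩ := hT4 a b hab hb
    (T0 + (Finset.range (L + 1) ×ˢ Finset.range (L + 1)).sup fun p => T4 p.1 p.2) (by
      have : T4 a b ≤ (Finset.range (L + 1) ×ˢ Finset.range (L + 1)).sup fun p => T4 p.1 p.2 :=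
        Finset.le_sup (f := fun p : ℕ × ℕ => T4 p.1 p.2) (b := (a, b))
          (Finset.mem_product.mpr ⟨Finset.mem_range.mpr (by omega), Finset.mem_range.mpr (by omega)⟩)
      omega)
  exact absurd (h ξ hξ) (not_le.mpr h')

end Pool.Agent.UBX
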