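import Pool.Agent.UBX.Targets

set_option autoImplicit false

/-!
# Project UBX: POLYG, growth along the natural numbers and degree
-/

namespace Pool.Agent.UBX

open Polynomial Filter

namespace POLYG_

lemma norm_eq (ρ : ℚ[X]) (m : ℕ) :
    ‖aeval (m : ℂ) ρ‖ = |eval (m : ℝ) (ρ.map (algebraMap ℚ ℝ))| := by
  have h : aeval (m : ℂ) ρ = ((eval (m : ℝ) (ρ.map (algebraMap ℚ ℝ)) : ℝ) : ℂ) := by
    rw [aeval_def, eval_map]
    have h2 : ((eval₂ (algebraMap ℚ ℝ) (m : ℝ) ρ : ℝ) : ℂ)
        = (Complex.ofRealHom : ℝ →+* ℂ) (eval₂ (algebraMap ℚ ℝ) (m : ℝ) ρ) := rfl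
    rw [h2, hom_eval₂]
    congr 1
  rw [h, Complex.norm_real, Real.norm_eq_abs]

end POLYG_

theorem p_POLYG : T_POLYG := by
  constructor
  · intro ρ n ⟨C, T, h⟩
    by_contra hcon
    push Not at hcon
    have hd : (X ^ n : ℝ[X]).degree < (ρ.map (algebraMap ℚ ℝ)).degree := by
      rw [degree_X_pow, degree_map]
      rw [degree_eq_natDegree (by rintro rfl; simp at hcon)]
      exact_mod_cast hcon
    have ht := abs_div_tendsto_atTop_atTop_of_degree_gt _ _ hd (pow_ne_zero _ X_ne_zero)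
    have ht2 := ht.comp tendsto_natCast_atTop_atTop
    obtain ⟨N, hN⟩ := (ht2.eventually (eventually_gt_atTop C)).exists_forall_of_atTop
    have h1 := hN (max N (max T 1)) (le_max_left _ _)
    have h2 := h (max N (max T 1)) (le_trans (le_max_left _ _) (le_max_right _ _))
    set m := max N (max T 1) with hm
    have hm1 : 1 ≤ m := le_trans (le_max_right _ _) (le_max_right _ _)
    have hmp : (0 : ℝ) < (m : ℝ) ^ n := by positivity
    rw [POLYG_.norm_eq] at h2
    simp only [Function.comp_apply, eval_pow, eval_X, abs_div, abs_of_pos hmp] at h1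
    rw [lt_div_iff₀ hmp] at h1
    linarith
  · intro ρ ⟨C, h⟩
    by_contra hρ
    have key : ∃ c : ℝ, 0 < c ∧ ∀ᶠ x : ℝ in atTop, c ≤ |eval x (ρ.map (algebraMap ℚ ℝ))| := by
      by_cases hd : 0 < (ρ.map (algebraMap ℚ ℝ)).degree
      · exact ⟨1, one_pos, (abs_tendsto_atTop _ hd).eventually (eventually_ge_atTop 1)⟩
      · push Not at hd
        rw [degree_map] at hd
        have h0 := eq_C_of_degree_le_zero hd
        have hc : ρ.coeff 0 ≠ 0 := by
          intro hc
          rw [hc, map_zero] at h0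
          exact hρ h0
        refine ⟨|((ρ.coeff 0 : ℚ) : ℝ)|, by positivity, Eventually.of_forall fun x => ?_⟩
        rw [h0]
        simp
    obtain ⟨c, hc, hev⟩ := key
    have hev2 := (tendsto_natCast_atTop_atTop (R := ℝ)).eventually hev
    have hs : Tendsto (fun m : ℕ => c * Real.sqrt m) atTop atTop :=
      (Real.tendsto_sqrt_atTop.comp tendsto_natCast_atTop_atTop).const_mul_atTop hc
    obtain ⟨N, hN⟩ := (hev2.and (hs.eventually (eventually_gt_atTop C))).exists_forall_of_atTop
    obtain ⟨m, hm, hm2⟩ := h N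
    obtain ⟨h1, h2⟩ := hN m hm
    rw [POLYG_.norm_eq] at hm2
    have h3 := mul_le_mul_of_nonneg_right h1 (Real.sqrt_nonneg (m : ℝ))
    linarith

end Pool.Agent.UBX
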