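import Pool.Agent.UBX.Targets

set_option autoImplicit false

/-!
# UBX-RED: congruent rational numbers in `ℤ_p`
-/

namespace Pool.Agent.UBX

open Polynomial

namespace RED_

theorem den_not_dvd {p b : ℕ} {x : ℚ} (hb : ¬ p ∣ b) (h : ∃ n : ℤ, (b : ℚ) * x = n) :
    ¬ p ∣ x.den := by
  obtain ⟨n, hn⟩ := h
  intro hp
  apply hb
  refine hp.trans ?_
  have hb0 : b ≠ 0 := by
    rintro rfl
    exact hb (dvd_zero p)
  have hx : x = ((n : ℤ) : ℚ) / ((b : ℤ) : ℚ) := by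
    rw [← hn]
    have : (b : ℚ) ≠ 0 := by exact_mod_cast hb0
    push_cast
    field_simp
  have h1 : ((x.den : ℕ) : ℤ) ∣ (b : ℤ) := by
    rw [hx, ← Rat.divInt_eq_div]
    exact Rat.den_dvd n b
  exact_mod_cast h1

end RED_

open RED_ in
theorem p_RED : T_RED := by
  intro p hp x y b b' hb hb' hx hy hxy
  have hxd := den_not_dvd hb hx
  have hyd := den_not_dvd hb' hy
  have hprime : p.Prime := hp.out
  have nx : ‖((x : ℚ) : ℚ_[p])‖ ≤ 1 := Padic.norm_rat_le_one hxd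
  have ny : ‖((y : ℚ) : ℚ_[p])‖ ≤ 1 := Padic.norm_rat_le_one hyd
  refine ⟨⟨_, nx⟩, ⟨_, ny⟩, rfl, rfl, ?_⟩
  rw [← PadicInt.norm_lt_one_iff_dvd]
  show ‖((x : ℚ) : ℚ_[p]) - ((y : ℚ) : ℚ_[p])‖ < 1
  -- the integer
  have hx1 : ‖((x.den : ℕ) : ℚ_[p])‖ = 1 :=
    Padic.norm_natCast_eq_one_iff.2 ((Nat.Prime.coprime_iff_not_dvd hprime).2 hxd)
  have hy1 : ‖((y.den : ℕ) : ℚ_[p])‖ = 1 :=
    Padic.norm_natCast_eq_one_iff.2 ((Nat.Prime.coprime_iff_not_dvd hprime).2 hyd)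
  have hz : ((x.den : ℕ) : ZMod p) ≠ 0 := by
    rw [Ne, ZMod.natCast_eq_zero_iff]; exact hxd
  have hz' : ((y.den : ℕ) : ZMod p) ≠ 0 := by
    rw [Ne, ZMod.natCast_eq_zero_iff]; exact hyd
  have h1 : ((x.num * y.den - y.num * x.den : ℤ) : ZMod p) = 0 := by
    rw [Rat.cast_def, Rat.cast_def, div_eq_div_iff hz hz'] at hxy
    push_cast
    rw [hxy]
    ring
  have h2 : (p : ℤ) ∣ (x.num * y.den - y.num * x.den) := (ZMod.intCast_zmod_eq_zero_iff_dvd _ _).1 h1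
  have h3 : ‖(((x.num * y.den - y.num * x.den : ℤ)) : ℚ_[p])‖ < 1 :=
    Padic.norm_intCast_lt_one_iff.2 h2
  have hxq : ((x : ℚ) : ℚ_[p]) * (x.den : ℚ_[p]) = (x.num : ℚ_[p]) := by
    have := Rat.mul_den_eq_num x
    exact_mod_cast congrArg (fun q : ℚ => (q : ℚ_[p])) this
  have hyq : ((y : ℚ) : ℚ_[p]) * (y.den : ℚ_[p]) = (y.num : ℚ_[p]) := by
    have := Rat.mul_den_eq_num y
    exact_mod_cast congrArg (fun q : ℚ => (q : ℚ_[p])) this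
  have h4 : (((x.num * y.den - y.num * x.den : ℤ)) : ℚ_[p]) =
      (((x : ℚ) : ℚ_[p]) - ((y : ℚ) : ℚ_[p])) * (x.den : ℚ_[p]) * (y.den : ℚ_[p]) := by
    push_cast
    rw [← hxq, ← hyq]
    ring
  rw [h4, norm_mul, norm_mul, hx1, hy1, mul_one, mul_one] at h3
  exact h3

end Pool.Agent.UBX
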