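import Pool.Agent.UBX.Targets

set_option autoImplicit false

/-!
# RELDEG: degree and leading coefficient of a relation polynomial
-/

namespace Pool.Agent.UBX

open Polynomial

/-- degree and leading coefficient of a relation polynomial -/
theorem p_RELDEG : T_RELDEG := by
  intro g d r i hg hd μ hμ
  obtain ⟨j0, hj0⟩ : ∃ j, μ j ≠ 0 := by
    by_contra h
    push Not at h
    exact hμ (funext h)
  have hne : (Finset.univ.filter fun j : Fin r => μ j ≠ 0).Nonempty :=
    ⟨j0, Finset.mem_filter.2 ⟨Finset.mem_univ _, hj0⟩⟩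
  set js := (Finset.univ.filter fun j : Fin r => μ j ≠ 0).max' hne with hjs
  have hjs0 : μ js ≠ 0 := (Finset.mem_filter.1 (Finset.max'_mem _ hne)).2
  have hmax : ∀ j : Fin r, μ j ≠ 0 → j ≤ js := by
    intro j hj
    have hm : j ∈ Finset.univ.filter fun j : Fin r => μ j ≠ 0 :=
      Finset.mem_filter.2 ⟨Finset.mem_univ _, hj⟩
    exact Finset.le_max' _ _ hm
  have hpos : 0 < d ^ (i + (js : ℕ)) := by positivity
  obtain ⟨h1, q, hq, h2⟩ := natDegree_Pit hg hd (i + (js : ℕ))
  have hC : (C (μ js) : ℚ[X]) ≠ 0 := C_ne_zero.2 hjs0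
  have hsum : Rel g μ i = C (C (μ js)) * Pit g (i + js) +
      ∑ j ∈ Finset.univ.erase js, C (C (μ j)) * Pit g (i + j) := by
    exact (Finset.add_sum_erase Finset.univ
      (fun j : Fin r => (C (C (μ j)) * Pit g (i + j) : ℚ[X][X])) (Finset.mem_univ js)).symm
  have hrest : (∑ j ∈ Finset.univ.erase js, C (C (μ j)) * Pit g (i + j)).natDegree ≤
      d ^ (i + (js : ℕ)) - 1 := by
    refine natDegree_sum_le_of_forall_le _ _ fun j hj => ?_
    have hj1 : j ≠ js := (Finset.mem_erase.1 hj).1
    by_cases hj0 : μ j = 0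
    · rw [hj0]
      simp
    · have hlt : j < js := lt_of_le_of_ne (hmax j hj0) hj1
      refine (natDegree_C_mul_le _ _).trans ?_
      rw [(natDegree_Pit hg hd (i + (j : ℕ))).1]
      have h3 : d ^ (i + (j : ℕ)) < d ^ (i + (js : ℕ)) := by
        apply Nat.pow_lt_pow_right (by omega)
        have : (j : ℕ) < js := hlt
        omega
      omega
  have htop : (C (C (μ js)) * Pit g (i + js)).natDegree = d ^ (i + (js : ℕ)) := by
    rw [natDegree_C_mul hC, h1]
  have hlt : (∑ j ∈ Finset.univ.erase js, C (C (μ j)) * Pit g (i + j)).natDegree <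
      (C (C (μ js)) * Pit g (i + js)).natDegree := by
    rw [htop]
    omega
  have hdeg : (Rel g μ i).natDegree = d ^ (i + (js : ℕ)) := by
    rw [hsum, natDegree_add_eq_left_of_natDegree_lt hlt, htop]
  refine ⟨⟨μ js * q, mul_ne_zero hjs0 hq, ?_⟩, ?_, ?_⟩
  · rw [hsum, leadingCoeff_add_of_degree_lt' (degree_lt_degree hlt), leadingCoeff_mul,
      leadingCoeff_C, h2, C_mul]
  · rw [hdeg]
    omega
  · rw [hdeg]
    apply Nat.pow_le_pow_right (by omega)
    have := js.2
    omega

end Pool.Agent.UBX
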