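import Pool.Agent.UBX.Targets

set_option autoImplicit false

/-!
# The resultant specialised at a complex number
-/

namespace Pool.Agent.UBX

open Polynomial

theorem p_RESEV : T_RESEV := by
  intro G H hG t
  set φ : ℚ[X] →+* ℂ := ((aeval t : ℚ[X] →ₐ[ℚ] ℂ) : ℚ[X] →+* ℂ) with hφ
  have hsp : ∀ p : ℚ[X][X], sp t p = p.map φ := fun p => rfl
  have hmon : (G.map φ).Monic := hG.map φ
  have hdeg : (G.map φ).natDegree = G.natDegree := hG.natDegree_map φ
  have hspl : (G.map φ).Splits := IsAlgClosed.splits _
  refine ⟨?_, ?_⟩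
  · rw [hsp, ← hdeg]
    exact hspl.natDegree_eq_card_roots.symm
  · have h1 : aeval t (resultant G H) = φ (resultant G H G.natDegree H.natDegree) := rfl
    rw [h1, ← resultant_map_map, ← hdeg,
      resultant_eq_prod_eval (G.map φ) (H.map φ) H.natDegree natDegree_map_le hspl,
      hmon.leadingCoeff, one_pow, one_mul, hsp]
    congr 1
    refine Multiset.map_congr rfl fun ξ _ => ?_
    rw [ev_apply, hsp]

end Pool.Agent.UBX
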