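import Pool.Agent.UBX.Targets

set_option autoImplicit false

/-!
# RESQ: common zeros give zeros of the resultant
-/

namespace Pool.Agent.UBX

open Polynomial

theorem p_RESQ : T_RESQ := by
  intro G H _ h1 c x hGx hHx
  obtain ⟨p, q, _, _, e⟩ := exists_mul_add_mul_eq_C_resultant G H le_rfl le_rfl
    (Or.inl (by omega))
  have h := congrArg (ev c x) e
  rw [map_add, map_mul, map_mul, hGx, hHx, zero_mul, zero_mul, add_zero, ev_C,
    coe_aeval_eq_eval] at h
  exact h.symm

end Pool.Agent.UBX
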