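import Pool.Agent.UBX.Targets

set_option autoImplicit false

/-!
# Project UBX: Gauss lemma, a vanishing resultant gives divisibility
-/

namespace Pool.Agent.UBX

open Polynomial

theorem p_RESZ : T_RESZ := by
  intro G H hG hGm hres
  have hinj : Function.Injective (algebraMap ℚ[X] (FractionRing ℚ[X])) :=
    IsFractionRing.injective ℚ[X] (FractionRing ℚ[X])
  have hGi : Irreducible (G.map (algebraMap ℚ[X] (FractionRing ℚ[X]))) :=
    (hGm.irreducible_iff_irreducible_map_fraction_map).1 hG
  have hr : resultant (G.map (algebraMap ℚ[X] (FractionRing ℚ[X])))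
      (H.map (algebraMap ℚ[X] (FractionRing ℚ[X]))) = 0 := by
    have h := resultant_map_map G H G.natDegree H.natDegree
      (algebraMap ℚ[X] (FractionRing ℚ[X]))
    rw [hres, map_zero] at h
    rw [natDegree_map_eq_of_injective hinj, natDegree_map_eq_of_injective hinj]
    exact h
  have hnc := (resultant_eq_zero_iff.1 hr).2
  have hdvd : G.map (algebraMap ℚ[X] (FractionRing ℚ[X])) ∣
      H.map (algebraMap ℚ[X] (FractionRing ℚ[X])) := by
    by_contra hn
    exact hnc ((Irreducible.coprime_iff_not_dvd hGi).2 hn)
  exact (map_dvd_map _ hinj hGm).1 hdvd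

end Pool.Agent.UBX
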