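import Pool.Agent.UBX.Targets

set_option autoImplicit false

namespace Pool.Agent.UBX

open Polynomial

namespace SYM_

private lemma fin_sum (g : ℚ[X]) (d : ℕ) (hg : g.natDegree = d) (x : ℂ) :
    aeval x g = ∑ i ∈ Finset.range d, (g.coeff i : ℂ) * x ^ i + (g.leadingCoeff : ℂ) * x ^ d := by
  rw [aeval_eq_sum_range, hg, Finset.sum_range_succ, leadingCoeff, hg]
  simp only [Algebra.smul_def, eq_ratCast]

private lemma err (g : ℚ[X]) (d : ℕ) (hg : g.natDegree = d) (hd : 2 ≤ d) (x : ℂ) :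
    ‖aeval x g - (g.leadingCoeff : ℂ) * x ^ d‖ ≤
      (∑ i ∈ Finset.range d, ‖(g.coeff i : ℂ)‖) * (1 + ‖x‖) ^ (d - 1) := by
  rw [fin_sum g d hg, add_sub_cancel_right, Finset.sum_mul]
  refine (norm_sum_le _ _).trans (Finset.sum_le_sum fun i hi => ?_)
  rw [norm_mul, norm_pow]
  refine mul_le_mul_of_nonneg_left ?_ (norm_nonneg _)
  have hi' := Finset.mem_range.mp hi
  calc ‖x‖ ^ i ≤ (1 + ‖x‖) ^ i := pow_le_pow_left₀ (norm_nonneg _) (by linarith) _
    _ ≤ (1 + ‖x‖) ^ (d - 1) :=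
      pow_le_pow_right₀ (by linarith [norm_nonneg x]) (by omega)

private lemma sep (d : ℕ) (hd : 2 ≤ d) (w : ℂ) (hw : IsPrimitiveRoot w d) :
    ∃ δ : ℝ, 0 < δ ∧ ∀ k l : Fin d, k ≠ l → δ ≤ ‖w ^ (k : ℕ) - w ^ (l : ℕ)‖ := by
  classical
  have : Nonempty (Fin d) := ⟨⟨0, by omega⟩⟩
  obtain ⟨p, hp⟩ := Finite.exists_min
    (fun p : Fin d × Fin d => if p.1 = p.2 then (1 : ℝ) else ‖w ^ (p.1 : ℕ) - w ^ (p.2 : ℕ)‖)
  refine ⟨_, ?_, fun k l hkl => (hp (k, l)).trans (by simp [hkl])⟩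
  by_cases h : p.1 = p.2
  · simp [h]
  · simp only [h, if_false]
    rw [norm_pos_iff, sub_ne_zero]
    intro h2
    exact h (Fin.ext (hw.pow_inj p.1.2 p.2.2 h2))

private lemma near (d : ℕ) (hd : 2 ≤ d) (w : ℂ) (hw : IsPrimitiveRoot w d) (δ : ℝ) (hδ : 0 < δ)
    (hsep : ∀ k l : Fin d, k ≠ l → δ ≤ ‖w ^ (k : ℕ) - w ^ (l : ℕ)‖) (x τ : ℂ) :
    ∃ k : Fin d, ‖x - w ^ (k : ℕ) * τ‖ * (δ / 2 * ‖τ‖) ^ (d - 1) ≤ ‖x ^ d - τ ^ d‖ := by
  classical
  have : Nonempty (Fin d) := ⟨⟨0, by omega⟩⟩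
  obtain ⟨k0, hk0⟩ := Finite.exists_min (fun k : Fin d => ‖x - w ^ (k : ℕ) * τ‖)
  refine ⟨k0, ?_⟩
  have h1 : x ^ d - τ ^ d = ∏ k : Fin d, (x - w ^ (k : ℕ) * τ) := by
    have h := congrArg (eval x) (X_pow_sub_C_eq_prod hw (α := τ) (by omega : 0 < d) rfl)
    rw [eval_prod] at h
    simp only [eval_sub, eval_pow, eval_X, eval_C] at h
    rw [h, Finset.prod_range]
  rw [h1, norm_prod, ← Finset.mul_prod_erase _ _ (Finset.mem_univ k0)]
  refine mul_le_mul_of_nonneg_left ?_ (norm_nonneg _)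
  have hc : (Finset.univ.erase k0).card = d - 1 := by
    rw [Finset.card_erase_of_mem (Finset.mem_univ _), Finset.card_univ, Fintype.card_fin]
  rw [← hc, ← Finset.prod_const]
  refine Finset.prod_le_prod (fun _ _ => by positivity) fun k hk => ?_
  have hne := Finset.ne_of_mem_erase hk
  have h2 := mul_le_mul_of_nonneg_right (hsep k k0 hne) (norm_nonneg τ)
  rw [← norm_mul] at h2
  have h3 : (w ^ (k : ℕ) - w ^ (k0 : ℕ)) * τ = (x - w ^ (k0 : ℕ) * τ) - (x - w ^ (k : ℕ) * τ) := by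
    ring
  rw [h3] at h2
  have h4 := norm_sub_le (x - w ^ (k0 : ℕ) * τ) (x - w ^ (k : ℕ) * τ)
  have h5 := hk0 k
  linarith

end SYM_

open SYM_ in
theorem p_SYM : T_SYM := by
  intro g d hg hd Γ
  have hg0 : g ≠ 0 := by
    rintro rfl
    simp at hg
    omega
  have hlc : (g.leadingCoeff : ℂ) ≠ 0 := by
    exact_mod_cast leadingCoeff_ne_zero.mpr hg0
  have hl : 0 < ‖(g.leadingCoeff : ℂ)‖ := norm_pos_iff.mpr hlc
  have hw : IsPrimitiveRoot (Complex.exp (2 * Real.pi * Complex.I / d)) d :=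
    Complex.isPrimitiveRoot_exp d (by omega)
  obtain ⟨δ, hδ, hsep⟩ := sep d hd _ hw
  set w := Complex.exp (2 * Real.pi * Complex.I / d) with hwdef
  set S := ∑ i ∈ Finset.range d, ‖(g.coeff i : ℂ)‖ with hS
  have hS0 : 0 ≤ S := Finset.sum_nonneg fun _ _ => norm_nonneg _
  set C1 := |Γ| + S * (1 + |Γ|) ^ (d - 1) with hC1
  have hC10 : 0 ≤ C1 := by positivity
  set l := ‖(g.leadingCoeff : ℂ)‖ with hldef
  refine ⟨C1 / l * (2 / δ * (1 + l)) ^ (d - 1), 1, fun m hm τ hτ x hx hx1 => ?_⟩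
  obtain ⟨k, hk⟩ := near d hd w hw δ hδ hsep x τ
  refine ⟨k, ?_⟩
  set u := (m : ℝ) ^ ((1 : ℝ) / d) with hu
  have hm1 : (1 : ℝ) ≤ m := by exact_mod_cast hm
  have hu1 : 1 ≤ u := Real.one_le_rpow hm1 (by positivity)
  have hud : u ^ d = m := by
    rw [hu, ← Real.rpow_natCast, ← Real.rpow_mul (by positivity)]
    have : (1 : ℝ) / d * d = 1 := by
      field_simp
    rw [this, Real.rpow_one]
  -- upper bound
  have h1 : l * ‖x ^ d - τ ^ d‖ ≤ C1 * u ^ (d - 1) := by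
    have e1 : (g.leadingCoeff : ℂ) * (x ^ d - τ ^ d) =
        (aeval x g + (m : ℂ)) - (aeval x g - (g.leadingCoeff : ℂ) * x ^ d) := by
      linear_combination -hτ
    rw [hldef, ← norm_mul, e1]
    refine (norm_sub_le _ _).trans ?_
    have e2 := err g d hg hd x
    have e3 : Γ * u ≤ |Γ| * u ^ (d - 1) := by
      have : u ≤ u ^ (d - 1) := le_self_pow₀ hu1 (by omega)
      calc Γ * u ≤ |Γ| * u := mul_le_mul_of_nonneg_right (le_abs_self _) (by linarith)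
        _ ≤ _ := mul_le_mul_of_nonneg_left this (abs_nonneg _)
    have e4 : (1 + ‖x‖) ^ (d - 1) ≤ (1 + |Γ|) ^ (d - 1) * u ^ (d - 1) := by
      rw [← mul_pow]
      refine pow_le_pow_left₀ (by positivity) ?_ _
      have : Γ * u ≤ |Γ| * u := mul_le_mul_of_nonneg_right (le_abs_self _) (by linarith)
      nlinarith
    have e5 := mul_le_mul_of_nonneg_left e4 hS0
    rw [hC1]
    nlinarith
  -- size of tau
  have h2 : l * ‖τ‖ ^ d = u ^ d := by
    rw [hud, hldef, ← norm_pow, ← norm_mul, hτ, norm_neg]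
    simp
  have hτ0 : 0 < ‖τ‖ := by
    rcases eq_or_lt_of_le (norm_nonneg τ) with h | h
    · rw [← h, zero_pow (by omega), mul_zero] at h2
      have : 0 < u ^ d := by positivity
      linarith
    · exact h
  have h3 : u ≤ (1 + l) * ‖τ‖ := by
    refine le_of_pow_le_pow_left₀ (by omega : d ≠ 0) (by positivity) ?_
    rw [← h2, mul_pow]
    refine mul_le_mul_of_nonneg_right ?_ (by positivity)
    calc l ≤ 1 + l := by linarith
      _ ≤ (1 + l) ^ d := le_self_pow₀ (by linarith) (by omega)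
  have h4 : u ^ (d - 1) ≤ ((1 + l) * ‖τ‖) ^ (d - 1) := pow_le_pow_left₀ (by linarith) h3 _
  -- conclusion
  have hP : 0 < (δ / 2 * ‖τ‖) ^ (d - 1) := by positivity
  rw [← mul_le_mul_iff_left₀ hP]
  refine hk.trans ?_
  have h5 : ‖x ^ d - τ ^ d‖ ≤ C1 / l * u ^ (d - 1) := by
    rw [div_mul_eq_mul_div, le_div_iff₀ hl]
    linarith
  refine h5.trans ?_
  rw [mul_assoc, ← mul_pow]
  refine mul_le_mul_of_nonneg_left (h4.trans (le_of_eq ?_)) (by positivity)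
  congr 1
  field_simp

end Pool.Agent.UBX
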