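import Pool.Agent.UBX.Targets

set_option autoImplicit false

namespace Pool.Agent.UBX

open Polynomial

private lemma UPG_aeval_le (g : ℚ[X]) (d : ℕ) (hd : g.natDegree = d) (u : ℂ) :
    ‖aeval u g‖ ≤ (∑ i ∈ Finset.range (d + 1), ‖((g.coeff i : ℚ) : ℂ)‖) * (1 + ‖u‖) ^ d := by
  rw [aeval_eq_sum_range, hd, Finset.sum_mul]
  refine (norm_sum_le _ _).trans (Finset.sum_le_sum ?_)
  intro i hi
  have hi' : i ≤ d := Nat.lt_succ_iff.mp (Finset.mem_range.mp hi)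
  have h1 : g.coeff i • u ^ i = ((g.coeff i : ℚ) : ℂ) * u ^ i := by
    rw [Algebra.smul_def]; rfl
  rw [h1, norm_mul, norm_pow]
  refine mul_le_mul_of_nonneg_left ?_ (norm_nonneg _)
  have h2 : ‖u‖ ^ i ≤ (1 + ‖u‖) ^ i :=
    pow_le_pow_left₀ (norm_nonneg _) (by linarith) i
  have h3 : (1 + ‖u‖) ^ i ≤ (1 + ‖u‖) ^ d :=
    pow_le_pow_right₀ (by linarith [norm_nonneg u]) hi'
  exact h2.trans h3

theorem p_UPG : T_UPG := by
  intro g d hg hd A n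
  induction n with
  | zero =>
    refine ⟨A, ?_⟩
    intro m _ x hx
    simpa using hx
  | succ n ih =>
    obtain ⟨C, hC⟩ := ih
    set S : ℝ := ∑ i ∈ Finset.range (d + 1), ‖((g.coeff i : ℚ) : ℂ)‖ with hS
    have hS0 : 0 ≤ S := Finset.sum_nonneg fun _ _ => norm_nonneg _
    refine ⟨S * (1 + |C|) ^ d + 1, ?_⟩
    intro m hm x hx
    have hm1 : (1 : ℝ) ≤ m := by exact_mod_cast hm
    have hu := hC m hm x hx
    rw [orb_succ]
    set u : ℂ := orb g (m : ℂ) x n with hu'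
    have hp1 : (1 : ℝ) ≤ (m : ℝ) ^ (d ^ n) := one_le_pow₀ hm1
    have hu1 : 1 + ‖u‖ ≤ (1 + |C|) * (m : ℝ) ^ (d ^ n) := by
      have h1 : C * (m : ℝ) ^ (d ^ n) ≤ |C| * (m : ℝ) ^ (d ^ n) :=
        mul_le_mul_of_nonneg_right (le_abs_self C) (by linarith)
      nlinarith
    have h2 : (1 + ‖u‖) ^ d ≤ (1 + |C|) ^ d * (m : ℝ) ^ (d ^ (n + 1)) := by
      have h3 := pow_le_pow_left₀ (by linarith [norm_nonneg u]) hu1 d
      rw [mul_pow, ← pow_mul, ← pow_succ] at h3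
      exact h3
    have h4 : (m : ℝ) ≤ (m : ℝ) ^ (d ^ (n + 1)) := by
      calc (m : ℝ) = (m : ℝ) ^ 1 := (pow_one _).symm
        _ ≤ (m : ℝ) ^ (d ^ (n + 1)) := pow_le_pow_right₀ hm1 (Nat.one_le_pow _ _ (by omega))
    calc ‖aeval u g + (m : ℂ)‖ ≤ ‖aeval u g‖ + ‖(m : ℂ)‖ := norm_add_le _ _
      _ ≤ S * (1 + ‖u‖) ^ d + m := by
          refine add_le_add (UPG_aeval_le g d hg u) ?_
          simp
      _ ≤ S * ((1 + |C|) ^ d * (m : ℝ) ^ (d ^ (n + 1))) + (m : ℝ) ^ (d ^ (n + 1)) :=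
          add_le_add (mul_le_mul_of_nonneg_left h2 hS0) h4
      _ = (S * (1 + |C|) ^ d + 1) * (m : ℝ) ^ (d ^ (n + 1)) := by ring

end Pool.Agent.UBX
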