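import Pool.Agent.UBX.ARCH
import Pool.Agent.UBX.CASEA
import Pool.Agent.UBX.CASEB
import Pool.Agent.UBX.CLASS
import Pool.Agent.UBX.CLCOUNT
import Pool.Agent.UBX.DSIZE
import Pool.Agent.UBX.ESC
import Pool.Agent.UBX.GEOM
import Pool.Agent.UBX.GRO
import Pool.Agent.UBX.HGT
import Pool.Agent.UBX.ITP
import Pool.Agent.UBX.LONG
import Pool.Agent.UBX.MAIN
import Pool.Agent.UBX.MINOR
import Pool.Agent.UBX.PIG
import Pool.Agent.UBX.POLYG
import Pool.Agent.UBX.PRIMES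
import Pool.Agent.UBX.RED
import Pool.Agent.UBX.RELDEG
import Pool.Agent.UBX.RESEV
import Pool.Agent.UBX.RESQ
import Pool.Agent.UBX.RESZ
import Pool.Agent.UBX.UPG
import Pool.Agent.UBX.FACT
import Pool.Agent.UBX.SYM
import Pool.Agent.UBX.CONTR
import Pool.Agent.UBX.DEN
import Pool.Agent.UBX.COMD
import Pool.Agent.UBX.DET
import Pool.Agent.UBX.SPAN
import Pool.Agent.UBX.COUNT

set_option autoImplicit false

namespace Pool.Agent.UBX

open Polynomial

theorem caseA : T_CASEA := p_CASEA p_GRO p_ESC p_UPG p_RESZ p_RESEV p_RESQ p_POLYG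
theorem pig : T_PIG := p_PIG p_GRO p_ESC p_SYM p_CON
theorem caseB : T_CASEB := p_CASEB pig p_RESZ p_RESEV p_POLYG
theorem geom : T_GEOM := p_GEOM p_RELDEG p_FACT caseA caseB
theorem hgt : T_HGT := p_HGT p_DEN p_ARCH p_COMD
theorem minor : T_MINOR := p_MINOR p_DET p_ITP p_RED p_DSIZE
theorem cls : T_CLASS := p_CLASS minor p_SPAN
theorem count : T_COUNT := p_COUNT hgt cls p_PRIMES p_AVOID p_CLCOUNT
theorem main : T_MAIN := p_MAIN geom count p_LONG

/-- preperiodic in the sense of a finite orbit -/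
def PreS (g : ℚ[X]) (c : ℚ) : Set ℚ :=
  {x : ℚ | {y : ℚ | ∃ k : ℕ, (fun z : ℚ => g.eval z + c)^[k] x = y}.Finite}

lemma orb_eq_iter (g : ℚ[X]) (c x : ℚ) (n : ℕ) :
    orb g c x n = (fun z : ℚ => g.eval z + c)^[n] x := by
  rw [orb_eq_iterate]
  congr 2

lemma isPrep_of_mem {g : ℚ[X]} {c x : ℚ} (h : x ∈ PreS g c) : IsPrep g c x := by
  have hfin : (Set.range (fun k : ℕ => orb g c x k)).Finite := by
    refine Set.Finite.subset h ?_
    rintro y ⟨k, rfl⟩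
    exact ⟨k, (orb_eq_iter g c x k).symm⟩
  have hninj : ¬ Function.Injective (fun k : ℕ => orb g c x k) := fun hinj =>
    Set.infinite_range_of_injective hinj hfin
  simp only [Function.Injective, not_forall] at hninj
  obtain ⟨a, b, hab, hne⟩ := hninj
  rcases lt_or_gt_of_ne hne with h1 | h1
  · exact ⟨a, b, h1, hab⟩
  · exact ⟨b, a, h1, hab.symm⟩

lemma finite_ht (X : ℝ) : {c : ℚ | (ht c : ℝ) ≤ X}.Finite := by
  obtain ⟨n, hn⟩ := exists_nat_ge X
  have : {c : ℚ | (ht c : ℝ) ≤ X} ⊆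
      (fun p : ℤ × ℕ => ((p.1 : ℚ) / (p.2 : ℚ))) '' (Set.Icc (-(n : ℤ)) n ×ˢ Set.Iic n) := by
    intro c hc
    have h1 : ht c ≤ n := by
      have h2 : (ht c : ℝ) ≤ n := le_trans hc hn
      exact_mod_cast h2
    rw [ht_le_iff] at h1
    refine ⟨(c.num, c.den), ⟨?_, h1.2⟩, ?_⟩
    · simp only [Set.mem_Icc]
      omega
    · exact Rat.num_div_den c
  exact Set.Finite.subset ((Set.Finite.prod (Set.finite_Icc _ _) (Set.finite_Iic _)).image _) this

theorem final (d : ℕ) (hd : 2 ≤ d) (ε : ℝ) (hε : 0 < ε) :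
    ∃ (B : ℕ) (C : ℝ), ∀ H : ℝ, 1 ≤ H → ∀ g : ℚ[X], g.natDegree = d →
      (∀ i : ℕ, (ht (g.coeff i) : ℝ) ≤ H) →
      ∃ E : Finset ℚ, (E.card : ℝ) ≤ C * H ^ ε ∧
        ∀ c : ℚ, (ht c : ℝ) ≤ H → c ∉ E → (PreS g c).Finite ∧ (PreS g c).ncard ≤ B := by
  classical
  obtain ⟨B, A, hBA⟩ := main d hd ε hε
  refine ⟨B, A, fun H hH g hg hcoef => ?_⟩
  set Bad : Set ℚ := {c : ℚ | (ht c : ℝ) ≤ H ∧ ∃ T : Finset ℚ, B < T.card ∧
    ∀ x ∈ T, IsPrep g c x} with hBad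
  have hfin : Bad.Finite := (finite_ht H).subset fun c hc => hc.1
  refine ⟨hfin.toFinset, hBA H hH g hg hcoef _ (fun c hc => by simpa [hBad] using hc), ?_⟩
  intro c hc hcE
  have hno : ∀ T : Finset ℚ, (∀ x ∈ T, IsPrep g c x) → T.card ≤ B := by
    intro T hT
    by_contra hlt
    exact hcE (hfin.mem_toFinset.mpr ⟨hc, T, not_le.mp hlt, hT⟩)
  have hf : (PreS g c).Finite := by
    by_contra hinf
    obtain ⟨T, hT, hcard⟩ := (Set.not_finite.mp hinf |>.exists_subset_card_eq (B + 1))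
    have := hno T (fun x hx => isPrep_of_mem (hT hx))
    omega
  refine ⟨hf, ?_⟩
  rw [Set.ncard_eq_toFinset_card _ hf]
  exact hno _ (fun x hx => isPrep_of_mem (by simpa using hx))

end Pool.Agent.UBX
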