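import Pool.Agent.UBX.Basic

set_option autoImplicit false

/-!
# Project UBX: exact targets (every `T_X : Prop` is one job)
-/

namespace Pool.Agent.UBX

open Polynomial

/-! ## Part 1: algebra of `ℚ[c][x]` -/

/-- degree and leading coefficient of a relation polynomial -/
def T_RELDEG : Prop := ∀ (g : ℚ[X]) (d r i : ℕ), g.natDegree = d → 2 ≤ d → ∀ μ : Fin r → ℚ, μ ≠ 0 →
  (∃ q : ℚ, q ≠ 0 ∧ (Rel g μ i).leadingCoeff = C q) ∧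
    1 ≤ (Rel g μ i).natDegree ∧ (Rel g μ i).natDegree ≤ d ^ (i + r - 1)

/-- factorisation of a polynomial with constant leading coefficient -/
def T_FACT : Prop := ∀ F : ℚ[X][X], (∃ q : ℚ, q ≠ 0 ∧ F.leadingCoeff = C q) →
  ∃ S : Finset ℚ[X][X], S.card ≤ F.natDegree ∧
    (∀ G ∈ S, Irreducible G ∧ G.Monic ∧ G ∣ F) ∧
    ∀ c x : ℚ, ev c x F = 0 → ∃ G ∈ S, ev c x G = 0

/-- Gauss lemma: a vanishing resultant gives divisibility -/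
def T_RESZ : Prop := ∀ G H : ℚ[X][X], Irreducible G → G.Monic → resultant G H = 0 → G ∣ H

/-- the resultant specialised at a complex number is the product of the values at the roots -/
def T_RESEV : Prop := ∀ (G H : ℚ[X][X]), G.Monic → ∀ t : ℂ,
  Multiset.card (sp t G).roots = G.natDegree ∧
    aeval t (resultant G H) = ((sp t G).roots.map (fun ξ => ev t ξ H)).prod

/-- common zeros give zeros of the resultant -/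
def T_RESQ : Prop := ∀ (G H : ℚ[X][X]), G.Monic → 1 ≤ G.natDegree → ∀ c x : ℚ,
  ev c x G = 0 → ev c x H = 0 → (resultant G H).eval c = 0

/-- a polynomial of growth `O(m^n)` along the natural numbers has degree `≤ n`; a polynomial
with a sequence `m → ∞` along which it tends to `0` like `m^(-1/2)` is zero -/
def T_POLYG : Prop :=
  (∀ (ρ : ℚ[X]) (n : ℕ), (∃ (C : ℝ) (T : ℕ), ∀ m : ℕ, T ≤ m →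
      ‖aeval (m : ℂ) ρ‖ ≤ C * (m : ℝ) ^ n) → ρ.natDegree ≤ n) ∧
  (∀ ρ : ℚ[X], (∃ C : ℝ, ∀ T : ℕ, ∃ m : ℕ, T ≤ m ∧
      ‖aeval (m : ℂ) ρ‖ * Real.sqrt m ≤ C) → ρ = 0)

/-! ## Part 2: dynamics of `x ↦ g(x) + m` for `m → ∞` over `ℂ` -/

/-- `Γ` is an escape constant for `g` (degree `d`): for large `m`, the map `x ↦ g(x) + m`
multiplies the size of every `x` with `|x| ≥ Γ m^(1/d)` by any prescribed factor `Λ`. -/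
def Esc (g : ℚ[X]) (d : ℕ) (Γ : ℝ) : Prop := 1 ≤ Γ ∧ ∀ Λ : ℝ, ∃ T : ℕ, ∀ m : ℕ, T ≤ m → ∀ x : ℂ,
  Γ * (m : ℝ) ^ ((1 : ℝ) / d) ≤ ‖x‖ → Λ * ‖x‖ ≤ ‖aeval x g + (m : ℂ)‖

def T_GRO : Prop := ∀ (g : ℚ[X]) (d : ℕ), g.natDegree = d → 2 ≤ d → ∃ Γ : ℝ, Esc g d Γ

/-- a linear relation between `r` consecutive points of an orbit forbids escape -/
def T_ESC : Prop := ∀ (g : ℚ[X]) (d : ℕ), g.natDegree = d → 2 ≤ d → ∀ Γ : ℝ, Esc g d Γ →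
  ∀ (r : ℕ) (μ : Fin r → ℚ), μ ≠ 0 → ∃ T : ℕ, ∀ m : ℕ, T ≤ m → ∀ y : ℂ,
    (∑ j : Fin r, (μ j : ℂ) * orb g (m : ℂ) y j) = 0 → ‖y‖ ≤ Γ * (m : ℝ) ^ ((1 : ℝ) / d)

/-- symbols: two consecutive non-escaping points -/
def T_SYM : Prop := ∀ (g : ℚ[X]) (d : ℕ), g.natDegree = d → 2 ≤ d → ∀ Γ : ℝ,
  ∃ (C : ℝ) (T : ℕ), ∀ m : ℕ, T ≤ m → ∀ τ : ℂ, (g.leadingCoeff : ℂ) * τ ^ d = -(m : ℂ) →
    ∀ x : ℂ, ‖x‖ ≤ Γ * (m : ℝ) ^ ((1 : ℝ) / d) →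
      ‖aeval x g + (m : ℂ)‖ ≤ Γ * (m : ℝ) ^ ((1 : ℝ) / d) →
      ∃ k : Fin d, ‖x - Complex.exp (2 * Real.pi * Complex.I / d) ^ (k : ℕ) * τ‖ ≤ C

/-- contraction of the inverse branches -/
def T_CON : Prop := ∀ (g : ℚ[X]) (d : ℕ), g.natDegree = d → 2 ≤ d → ∀ C : ℝ,
  ∃ (C' : ℝ) (T : ℕ), ∀ m : ℕ, T ≤ m → ∀ τ : ℂ, (g.leadingCoeff : ℂ) * τ ^ d = -(m : ℂ) →
    ∀ ζ x y : ℂ, ζ ^ d = 1 → ‖x - ζ * τ‖ ≤ C → ‖y - ζ * τ‖ ≤ C →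
      ‖aeval x g - aeval y g‖ ≤ 2 * C → ‖x - y‖ * Real.sqrt m ≤ C'

/-- trivial upper bound for the growth of an orbit -/
def T_UPG : Prop := ∀ (g : ℚ[X]) (d : ℕ), g.natDegree = d → 2 ≤ d → ∀ (A : ℝ) (n : ℕ),
  ∃ C : ℝ, ∀ m : ℕ, 1 ≤ m → ∀ x : ℂ, ‖x‖ ≤ A * m → ‖orb g (m : ℂ) x n‖ ≤ C * (m : ℝ) ^ (d ^ n)

/-- pigeonhole over all roots of `G(·, m)` simultaneously -/
def T_PIG : Prop := ∀ (g : ℚ[X]) (d r N L : ℕ), g.natDegree = d → 2 ≤ d → 1 ≤ r →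
  d ^ (2 * N) + r + 2 ≤ L → ∀ G : ℚ[X][X], G.Monic → G.natDegree ≤ N →
  (∀ i : ℕ, i + r ≤ L + 1 → ∃ μ : Fin r → ℚ, μ ≠ 0 ∧ G ∣ Rel g μ i) →
  ∃ a b : ℕ, a < b ∧ b ≤ L ∧ ∃ C : ℝ, ∀ T : ℕ, ∃ m : ℕ, T ≤ m ∧ ∀ ξ : ℂ, ev (m : ℂ) ξ G = 0 →
    ‖orb g (m : ℂ) ξ a - orb g (m : ℂ) ξ b‖ * Real.sqrt m ≤ C

/-- case A: an irreducible curve on which one of the relations does not hold identically -/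
def T_CASEA : Prop := ∀ d r N i : ℕ, 2 ≤ d → 1 ≤ r → ∃ M : ℕ, ∀ g : ℚ[X], g.natDegree = d →
  ∀ G : ℚ[X][X], Irreducible G → G.Monic → G.natDegree ≤ N →
  (∃ μ : Fin r → ℚ, μ ≠ 0 ∧ G ∣ Rel g μ 0) →
  ∀ μ : Fin r → ℚ, μ ≠ 0 → ¬ G ∣ Rel g μ i →
  ∀ Z : Finset (ℚ × ℚ), (∀ z ∈ Z, ev z.1 z.2 G = 0 ∧ ev z.1 z.2 (Rel g μ i) = 0) → Z.card ≤ M

/-- case B: all relations hold identically on the curve, so it is a curve `x_a = x_b` -/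
def T_CASEB : Prop := ∀ (g : ℚ[X]) (d r N L : ℕ), g.natDegree = d → 2 ≤ d → 1 ≤ r →
  d ^ (2 * N) + r + 2 ≤ L → ∀ G : ℚ[X][X], Irreducible G → G.Monic → G.natDegree ≤ N →
  (∀ i : ℕ, i + r ≤ L + 1 → ∃ μ : Fin r → ℚ, μ ≠ 0 ∧ G ∣ Rel g μ i) →
  ∃ a b : ℕ, a < b ∧ b ≤ L ∧ G ∣ (Pit g a - Pit g b)

/-- GEOM: relations on all blocks + distinctness bound the number of points, uniformly in `g` -/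
def T_GEOM : Prop := ∀ d r : ℕ, 2 ≤ d → 1 ≤ r → ∃ L M : ℕ, ∀ g : ℚ[X], g.natDegree = d →
  ∀ Z : Finset (ℚ × ℚ),
    (∀ i : ℕ, i + r ≤ L + 1 → ∃ μ : Fin r → ℚ, μ ≠ 0 ∧
      ∀ z ∈ Z, ∑ j : Fin r, μ j * orb g z.1 z.2 (i + j) = 0) →
    (∀ z ∈ Z, Dist g L z.1 z.2) → Z.card ≤ M

/-! ## Part 3: heights -/

/-- denominators of preperiodic points -/
def T_DEN : Prop := ∀ (g : ℚ[X]) (d e : ℕ), g.natDegree = d → 2 ≤ d → e ≠ 0 →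
  (∀ i : ℕ, ∃ k : ℤ, (e : ℚ) * g.coeff i = k) → ∀ c x : ℚ, IsPrep g c x →
  ∀ i : ℕ, ∃ n : ℤ, (e : ℚ) * g.leadingCoeff * c.den * orb g c x i = n

/-- archimedean size of preperiodic points -/
def T_ARCH : Prop := ∀ (g : ℚ[X]) (d : ℕ), g.natDegree = d → 2 ≤ d → ∀ X : ℝ, 1 ≤ X →
  (∀ i : ℕ, (ht (g.coeff i) : ℝ) ≤ X) → ∀ c x : ℚ, (ht c : ℝ) ≤ X → IsPrep g c x →
  ∀ i : ℕ, |((orb g c x i : ℚ) : ℝ)| ≤ (d + 3) * X ^ 2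

/-- common denominator of the coefficients -/
def T_COMD : Prop := ∀ (g : ℚ[X]) (d : ℕ), g.natDegree = d → ∀ X : ℝ, 1 ≤ X →
  (∀ i : ℕ, (ht (g.coeff i) : ℝ) ≤ X) →
  ∃ e : ℕ, e ≠ 0 ∧ (e : ℝ) ≤ X ^ (d + 1) ∧ ∀ i : ℕ, ∃ k : ℤ, (e : ℚ) * g.coeff i = k

/-- summary: all points of a preperiodic orbit have the form `n / b`, `b ≤ X^(d+3)`,
`|n| ≤ (d+3) X^(d+5)`, with one `b` per parameter `c` -/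
def T_HGT : Prop := ∀ (g : ℚ[X]) (d : ℕ), g.natDegree = d → 2 ≤ d → ∀ X : ℝ, 1 ≤ X →
  (∀ i : ℕ, (ht (g.coeff i) : ℝ) ≤ X) →
  ∃ e : ℕ, e ≠ 0 ∧ (e : ℝ) ≤ X ^ (d + 1) ∧ (∀ i : ℕ, ∃ k : ℤ, (e : ℚ) * g.coeff i = k) ∧
    ∀ c : ℚ, (ht c : ℝ) ≤ X → ∃ b : ℕ, b ≠ 0 ∧ (b : ℝ) ≤ X ^ (d + 3) ∧ c.den ∣ b ∧
      ∀ x : ℚ, IsPrep g c x → ∀ i : ℕ, ∃ n : ℤ, (b : ℚ) * orb g c x i = n ∧
        |(n : ℝ)| ≤ (d + 3) * X ^ (d + 5)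

/-- many preperiodic points: one of them has a long orbit -/
def T_LONG : Prop := ∀ (g : ℚ[X]) (d L : ℕ), g.natDegree = d → 2 ≤ d → ∀ c : ℚ,
  ∀ T : Finset ℚ, (L + 1) ^ 2 * d ^ L < T.card → ∃ x ∈ T, Dist g L c x

/-! ## Part 4: the determinant method -/

/-- `p`-adic divisibility of the determinant (`r = h (h + 1)`, `r / 2` monomials of degree
`< h` in two variables) -/
def T_DET : Prop := ∀ (p : ℕ) [Fact p.Prime] (h r : ℕ), r = h * (h + 1) →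
  ∀ φ : Fin r → MvPolynomial (Fin 2) ℤ_[p], ∀ z : Fin r → (Fin 2 → ℤ_[p]),
  (∀ l l' k, (p : ℤ_[p]) ∣ z l k - z l' k) →
  (p : ℤ_[p]) ^ (h * (r / 2)) ∣ Matrix.det (Matrix.of fun l j => MvPolynomial.eval (z l) (φ j))

/-- the iterates as polynomials with `p`-integral coefficients -/
def T_ITP : Prop := ∀ (p : ℕ) [Fact p.Prime] (g : ℚ[X]) (e : ℕ), ¬ p ∣ e →
  (∀ i : ℕ, ∃ k : ℤ, (e : ℚ) * g.coeff i = k) →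
  ∃ φ : ℕ → MvPolynomial (Fin 2) ℤ_[p], ∀ (c x : ℚ) (u : Fin 2 → ℤ_[p]),
    ((u 0 : ℤ_[p]) : ℚ_[p]) = (x : ℚ_[p]) → ((u 1 : ℤ_[p]) : ℚ_[p]) = (c : ℚ_[p]) →
    ∀ n : ℕ, ((MvPolynomial.eval u (φ n) : ℤ_[p]) : ℚ_[p]) = ((orb g c x n : ℚ) : ℚ_[p])

/-- rational numbers with denominator prime to `p` in `ℤ_p` -/
def T_RED : Prop := ∀ (p : ℕ) [Fact p.Prime] (x y : ℚ) (b b' : ℕ), ¬ p ∣ b → ¬ p ∣ b' →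
  (∃ n : ℤ, (b : ℚ) * x = n) → (∃ n : ℤ, (b' : ℚ) * y = n) → (x : ZMod p) = (y : ZMod p) →
  ∃ u v : ℤ_[p], (u : ℚ_[p]) = (x : ℚ_[p]) ∧ (v : ℚ_[p]) = (y : ℚ_[p]) ∧ (p : ℤ_[p]) ∣ u - v

/-- size bound of an integral determinant -/
def T_DSIZE : Prop := ∀ (r : ℕ) (Y : ℝ) (M : Matrix (Fin r) (Fin r) ℤ),
  (∀ i j, |((M i j : ℤ) : ℝ)| ≤ Y) → |((M.det : ℤ) : ℝ)| ≤ (r * Y) ^ r

/-- linear algebra: all `r × r` minors vanish, so there is a linear relation -/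
def T_SPAN : Prop := ∀ (ι : Type) (r : ℕ) (v : ι → Fin r → ℚ),
  (∀ s : Fin r → ι, Matrix.det (Matrix.of fun l j => v (s l) j) = 0) →
  ∃ μ : Fin r → ℚ, μ ≠ 0 ∧ ∀ i : ι, ∑ j : Fin r, μ j * v i j = 0

/-- all minors vanish on a residue class -/
def T_MINOR : Prop := ∀ (p h r : ℕ) [Fact p.Prime], r = h * (h + 1) → 1 ≤ h →
  ∀ (g : ℚ[X]) (e : ℕ), ¬ p ∣ e → (∀ i : ℕ, ∃ k : ℤ, (e : ℚ) * g.coeff i = k) →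
  ∀ (Y : ℝ), 1 ≤ Y → (r * Y) ^ 2 < (p : ℝ) ^ h →
  ∀ (i : ℕ) (z : Fin r → ℚ × ℚ) (b : Fin r → ℕ), (∀ l, ¬ p ∣ b l) →
  (∀ l, (z l).1.den ∣ b l) →
  (∀ l, ∀ j : ℕ, ∃ n : ℤ, (b l : ℚ) * orb g (z l).1 (z l).2 j = n ∧ |(n : ℝ)| ≤ Y) →
  (∀ l l', ((z l).1 : ZMod p) = ((z l').1 : ZMod p) ∧ ((z l).2 : ZMod p) = ((z l').2 : ZMod p)) →
  Matrix.det (Matrix.of fun l j : Fin r => orb g (z l).1 (z l).2 (i + j)) = 0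

/-- one linear relation for every block, on a whole residue class -/
def T_CLASS : Prop := ∀ (p h r : ℕ) [Fact p.Prime], r = h * (h + 1) → 1 ≤ h →
  ∀ (g : ℚ[X]) (e : ℕ), ¬ p ∣ e → (∀ i : ℕ, ∃ k : ℤ, (e : ℚ) * g.coeff i = k) →
  ∀ (Y : ℝ), 1 ≤ Y → (r * Y) ^ 2 < (p : ℝ) ^ h →
  ∀ Z : Finset (ℚ × ℚ),
  (∀ z ∈ Z, ∃ b : ℕ, ¬ p ∣ b ∧ z.1.den ∣ b ∧
    ∀ j : ℕ, ∃ n : ℤ, (b : ℚ) * orb g z.1 z.2 j = n ∧ |(n : ℝ)| ≤ Y) →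
  (∀ z ∈ Z, ∀ z' ∈ Z, (z.1 : ZMod p) = (z'.1 : ZMod p) ∧ (z.2 : ZMod p) = (z'.2 : ZMod p)) →
  ∀ i : ℕ, ∃ μ : Fin r → ℚ, μ ≠ 0 ∧ ∀ z ∈ Z, ∑ j : Fin r, μ j * orb g z.1 z.2 (i + j) = 0

/-- Bertrand: `q` primes in `(P, 2^q P]` -/
def T_PRIMES : Prop := ∀ q P : ℕ, 1 ≤ P → ∃ S : Finset ℕ, S.card = q ∧
  ∀ p ∈ S, p.Prime ∧ P < p ∧ p ≤ 2 ^ q * P

/-- a small number avoids one of the primes -/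
def T_AVOID : Prop := ∀ (q P n : ℕ) (S : Finset ℕ), S.card = q → (∀ p ∈ S, p.Prime ∧ P < p) →
  n ≠ 0 → n ≤ P ^ q → 1 ≤ q → ∃ p ∈ S, ¬ p ∣ n

/-- counting by residue classes -/
def T_CLCOUNT : Prop := ∀ (p M : ℕ) [Fact p.Prime] (Z : Finset (ℚ × ℚ)),
  (∀ Z' ⊆ Z, (∀ z ∈ Z', ∀ z' ∈ Z', (z.1 : ZMod p) = (z'.1 : ZMod p) ∧
    (z.2 : ZMod p) = (z'.2 : ZMod p)) → Z'.card ≤ M) → Z.card ≤ p ^ 2 * M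

/-- counting: everything except the dynamical input `T_GEOM` (used as a hypothesis with
constants `L, M`) -/
def T_COUNT : Prop := ∀ (d h r L M : ℕ), 2 ≤ d → 1 ≤ h → r = h * (h + 1) →
  (∀ g : ℚ[X], g.natDegree = d → ∀ Z : Finset (ℚ × ℚ),
    (∀ i : ℕ, i + r ≤ L + 1 → ∃ μ : Fin r → ℚ, μ ≠ 0 ∧
      ∀ z ∈ Z, ∑ j : Fin r, μ j * orb g z.1 z.2 (i + j) = 0) →
    (∀ z ∈ Z, Dist g L z.1 z.2) → Z.card ≤ M) →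
  ∀ (g : ℚ[X]), g.natDegree = d → ∀ X : ℝ, 1 ≤ X → (∀ i : ℕ, (ht (g.coeff i) : ℝ) ≤ X) →
  ∀ P : ℕ, ((r : ℝ) * ((d + 3) * X ^ (d + 5))) ^ 2 ≤ (P : ℝ) ^ h →
  ∀ E : Finset ℚ, (∀ c ∈ E, (ht c : ℝ) ≤ X ∧ ∃ x : ℚ, IsPrep g c x ∧ Dist g L c x) →
  E.card ≤ h * ((2 ^ h * P) ^ 2 * M)

/-- MAIN THEOREM -/
def T_MAIN : Prop := ∀ d : ℕ, 2 ≤ d → ∀ ε : ℝ, 0 < ε → ∃ (B : ℕ) (A : ℝ), ∀ (X : ℝ), 1 ≤ X →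
  ∀ g : ℚ[X], g.natDegree = d → (∀ i : ℕ, (ht (g.coeff i) : ℝ) ≤ X) →
  ∀ E : Finset ℚ, (∀ c ∈ E, (ht c : ℝ) ≤ X ∧ ∃ T : Finset ℚ, B < T.card ∧
    ∀ x ∈ T, IsPrep g c x) → (E.card : ℝ) ≤ A * X ^ ε

end Pool.Agent.UBX
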